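import Mathlib
import Pool.Agent.Helper186.LocalFlow

open Set Filter Topology Metric
open scoped ContDiff

namespace Pool.Agent.H153R3

set_option linter.unusedSectionVars false

section absLB
variable {E G : Type*} [NormedAddCommGroup E] [NormedSpace ℝ E] [NormedAddCommGroup G]
  [NormedSpace ℝ G]

/-- Lipschitz on bounded sets -/
def LB (f : E → G) : Prop :=
  ∀ R : ℝ, ∃ K : ℝ, 0 ≤ K ∧ ∀ u v, ‖u‖ ≤ R → ‖v‖ ≤ R → ‖f u - f v‖ ≤ K * ‖u - v‖

lemma LB.bdd {f : E → G} (hf : LB f) (R : ℝ) :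
    ∃ C, 0 ≤ C ∧ ∀ u, ‖u‖ ≤ R → ‖f u‖ ≤ C := by
  obtain ⟨K, hK, h⟩ := hf (max R 0)
  refine ⟨‖f 0‖ + K * max R 0, by positivity, fun u hu => ?_⟩
  have h1 := h u 0 (hu.trans (le_max_left _ _)) (by simp)
  rw [sub_zero] at h1
  have h2 : ‖f u‖ ≤ ‖f u - f 0‖ + ‖f 0‖ := norm_le_norm_sub_add _ _
  have h3 : K * ‖u‖ ≤ K * max R 0 := mul_le_mul_of_nonneg_left (hu.trans (le_max_left _ _)) hK
  linarith

lemma LB.clm (L : E →L[ℝ] G) : LB (fun u => L u) := by
  intro R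
  refine ⟨‖L‖, norm_nonneg _, fun u v _ _ => ?_⟩
  rw [← map_sub]
  exact L.le_opNorm _

lemma LB.add {f g : E → G} (hf : LB f) (hg : LB g) : LB (fun u => f u + g u) := by
  intro R
  obtain ⟨K, hK, h⟩ := hf R
  obtain ⟨K', hK', h'⟩ := hg R
  refine ⟨K + K', by positivity, fun u v hu hv => ?_⟩
  have h1 := h u v hu hv
  have h2 := h' u v hu hv
  have h3 : f u + g u - (f v + g v) = (f u - f v) + (g u - g v) := by abel
  rw [h3]
  refine (norm_add_le _ _).trans ?_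
  linarith

lemma LB.neg {f : E → G} (hf : LB f) : LB (fun u => - f u) := by
  intro R
  obtain ⟨K, hK, h⟩ := hf R
  refine ⟨K, hK, fun u v hu hv => ?_⟩
  have h1 := h u v hu hv
  have h3 : - f u - (- f v) = -(f u - f v) := by abel
  rw [h3, norm_neg]
  exact h1

lemma LB.sub {f g : E → G} (hf : LB f) (hg : LB g) : LB (fun u => f u - g u) := by
  have := hf.add hg.neg
  simpa [sub_eq_add_neg] using this

lemma LB.smul (c : ℝ) {f : E → G} (hf : LB f) : LB (fun u => c • f u) := by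
  intro R
  obtain ⟨K, hK, h⟩ := hf R
  refine ⟨|c| * K, by positivity, fun u v hu hv => ?_⟩
  have h1 := h u v hu hv
  rw [← smul_sub, norm_smul, Real.norm_eq_abs, mul_assoc]
  exact mul_le_mul_of_nonneg_left h1 (abs_nonneg _)

lemma LB.comp_clm {H : Type*} [NormedAddCommGroup H] [NormedSpace ℝ H] (L : G →L[ℝ] H)
    {f : E → G} (hf : LB f) : LB (fun u => L (f u)) := by
  intro R
  obtain ⟨K, hK, h⟩ := hf R
  refine ⟨‖L‖ * K, by positivity, fun u v hu hv => ?_⟩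
  have h1 := h u v hu hv
  rw [← map_sub, mul_assoc]
  exact (L.le_opNorm _).trans (mul_le_mul_of_nonneg_left h1 (norm_nonneg _))

lemma LB.mul {A : Type*} [NormedRing A] [NormedAlgebra ℝ A] {f g : E → A}
    (hf : LB f) (hg : LB g) : LB (fun u => f u * g u) := by
  intro R
  obtain ⟨K, hK, h⟩ := hf R
  obtain ⟨K', hK', h'⟩ := hg R
  obtain ⟨C, hC, hc⟩ := hf.bdd R
  obtain ⟨C', hC', hc'⟩ := hg.bdd R
  refine ⟨C * K' + K * C', by positivity, fun u v hu hv => ?_⟩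
  have h1 := h u v hu hv
  have h2 := h' u v hu hv
  have h3 : f u * g u - f v * g v = f u * (g u - g v) + (f u - f v) * g v := by noncomm_ring
  rw [h3]
  refine (norm_add_le _ _).trans ?_
  have h4 : ‖f u * (g u - g v)‖ ≤ C * (K' * ‖u - v‖) :=
    (norm_mul_le _ _).trans (mul_le_mul (hc u hu) h2 (norm_nonneg _) hC)
  have h5 : ‖(f u - f v) * g v‖ ≤ (K * ‖u - v‖) * C' :=
    (norm_mul_le _ _).trans (mul_le_mul h1 (hc' v hv) (norm_nonneg _) (by positivity))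
  nlinarith

lemma LB.pi {ι : Type*} [Fintype ι] {A : ι → Type*} [∀ i, NormedAddCommGroup (A i)]
    [∀ i, NormedSpace ℝ (A i)] {f : E → ∀ i, A i} (hf : ∀ i, LB (fun u => f u i)) : LB f := by
  intro R
  choose K hK h using fun i => hf i R
  refine ⟨∑ i, K i, Finset.sum_nonneg fun i _ => hK i, fun u v hu hv => ?_⟩
  refine (pi_norm_le_iff_of_nonneg (mul_nonneg (Finset.sum_nonneg fun i _ => hK i)
    (norm_nonneg _))).2 fun i => ?_
  refine (h i u v hu hv).trans ?_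
  exact mul_le_mul_of_nonneg_right
    (Finset.single_le_sum (fun i _ => hK i) (Finset.mem_univ i)) (norm_nonneg _)

lemma LB.unique {F : E → E} (hF : LB F) {a b t₀ : ℝ} (ht₀ : t₀ ∈ Ioo a b) {u v : ℝ → E}
    (hu : ∀ t ∈ Ioo a b, HasDerivAt u (F (u t)) t) (hv : ∀ t ∈ Ioo a b, HasDerivAt v (F (v t)) t)
    (h : u t₀ = v t₀) : EqOn u v (Ioo a b) := by
  intro t ht
  obtain ⟨a', ha', ha''⟩ := exists_between (lt_min ht₀.1 ht.1)
  obtain ⟨b', hb', hb''⟩ := exists_between (max_lt ht₀.2 ht.2)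
  have hsub : Icc a' b' ⊆ Ioo a b := fun x hx => ⟨ha'.trans_le hx.1, hx.2.trans_lt hb''⟩
  have hcu : ContinuousOn u (Icc a' b') := fun x hx => (hu x (hsub hx)).continuousAt.continuousWithinAt
  have hcv : ContinuousOn v (Icc a' b') := fun x hx => (hv x (hsub hx)).continuousAt.continuousWithinAt
  obtain ⟨R, hR⟩ := isCompact_Icc.exists_bound_of_continuousOn hcu
  obtain ⟨R', hR'⟩ := isCompact_Icc.exists_bound_of_continuousOn hcv
  obtain ⟨K, hK, hL⟩ := hF (max R R')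
  have ht' : t ∈ Ioo a' b' := ⟨ha''.trans_le (min_le_right _ _), (le_max_right _ _).trans_lt hb'⟩
  have ht₀' : t₀ ∈ Ioo a' b' := ⟨ha''.trans_le (min_le_left _ _), (le_max_left _ _).trans_lt hb'⟩
  refine ODE_solution_unique_of_mem_Ioo (v := fun _ => F)
    (s := fun _ => closedBall 0 (max R R')) (K := K.toNNReal) ?_ ht₀' ?_ ?_ h ht'
  · intro s _
    refine LipschitzOnWith.of_dist_le_mul fun x hx y hy => ?_
    rw [Real.coe_toNNReal K hK, dist_eq_norm, dist_eq_norm]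
    exact hL x y (by simpa using hx) (by simpa using hy)
  · intro s hs
    refine ⟨hu s (hsub (Ioo_subset_Icc_self hs)), ?_⟩
    simpa using Or.inl (hR s (Ioo_subset_Icc_self hs))
  · intro s hs
    refine ⟨hv s (hsub (Ioo_subset_Icc_self hs)), ?_⟩
    simpa using Or.inr (hR' s (Ioo_subset_Icc_self hs))

/-- local flow, continuous -/
lemma exists_flow [CompleteSpace E] {F : E → E} (hF : ContDiff ℝ 1 F) (x₀ : E) :
    ∃ r > (0:ℝ), ∃ ε > (0:ℝ), ∃ α : E × ℝ → E,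
      ContinuousOn α (closedBall x₀ r ×ˢ Icc (-ε) ε) ∧
      (∀ x ∈ closedBall x₀ r, α (x, 0) = x) ∧
      (∀ x ∈ closedBall x₀ r, ∀ t ∈ Ioo (-ε) ε,
        HasDerivAt (fun s => α (x, s)) (F (α (x, t))) t) := by
  obtain ⟨ε, hε, a, r, L, K, hr, hpl⟩ := IsPicardLindelof.of_contDiffAt_one
    (hF.contDiffAt (x := x₀))
  obtain ⟨α, hα, hαc⟩ :=
    (hpl 0).exists_forall_mem_closedBall_eq_hasDerivWithinAt_continuousOn
  simp only [zero_sub, zero_add] at hα hαc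
  exact ⟨r, by exact_mod_cast hr, ε, hε, α, hαc, fun x hx => (hα x hx).1, fun x hx t ht =>
    ((hα x hx).2 t (Ioo_subset_Icc_self ht)).hasDerivAt (Icc_mem_nhds ht.1 ht.2)⟩

/-- the maximal solution -/
theorem exists_max [CompleteSpace E] {F : E → E} (hF : ContDiff ℝ 1 F) (hLB : LB F) (u₀ : E)
    (B : ℝ) (hB : ∀ e > (0:ℝ), ∀ T > (0:ℝ), B < T →
      ¬ ∃ u : ℝ → E, u 0 = u₀ ∧ ∀ t ∈ Ioo (-e) T, HasDerivAt u (F (u t)) t) :
    ∃ ε₀ > (0:ℝ), ∃ T > (0:ℝ), ∃ u : ℝ → E, u 0 = u₀ ∧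
      (∀ t ∈ Ioo (-ε₀) T, HasDerivAt u (F (u t)) t) ∧
      (∀ t₁ ∈ Ico 0 T, ∀ R : ℝ, ¬ ∀ t ∈ Ico t₁ T, ‖u t‖ ≤ R) := by
  obtain ⟨r, hr, ε₀, hε₀, α, hαc, hα0, hαd⟩ := exists_flow hF u₀
  set S : Set ℝ := {T | 0 < T ∧ ∃ u : ℝ → E, u 0 = u₀ ∧
    ∀ t ∈ Ioo (-ε₀) T, HasDerivAt u (F (u t)) t} with hS
  have hε₀S : ε₀ ∈ S := ⟨hε₀, fun t => α (u₀, t), hα0 _ (mem_closedBall_self hr.le),
    fun t ht => hαd _ (mem_closedBall_self hr.le) t ht⟩
  have hbd : BddAbove S := by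
    refine ⟨B, ?_⟩
    rintro T ⟨hT, u, hu0, hu⟩
    by_contra hcon
    push Not at hcon
    exact hB ε₀ hε₀ T hT hcon ⟨u, hu0, hu⟩
  set T := sSup S with hT
  have hTpos : 0 < T := lt_of_lt_of_le hε₀ (le_csSup hbd hε₀S)
  have hex : ∀ t < T, ∃ T' ∈ S, t < T' := fun t ht => exists_lt_of_lt_csSup ⟨_, hε₀S⟩ ht
  choose! sol hsol0 hsold using fun T' (h : T' ∈ S) => h.2
  choose! g hgS hgt using hex
  have huniq : ∀ T₁ ∈ S, ∀ T₂ ∈ S, ∀ t ∈ Ioo (-ε₀) (min T₁ T₂), sol T₁ t = sol T₂ t := by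
    intro T₁ h₁ T₂ h₂ t ht
    refine hLB.unique (t₀ := 0) ⟨by linarith, lt_min h₁.1 h₂.1⟩ (fun s hs => ?_) (fun s hs => ?_)
      ?_ ht
    · exact hsold T₁ h₁ s ⟨hs.1, hs.2.trans_le (min_le_left _ _)⟩
    · exact hsold T₂ h₂ s ⟨hs.1, hs.2.trans_le (min_le_right _ _)⟩
    · rw [hsol0 T₁ h₁, hsol0 T₂ h₂]
  set u : ℝ → E := fun t => sol (g t) t with hu
  have hu_eq : ∀ T' ∈ S, ∀ t ∈ Ioo (-ε₀) T', u t = sol T' t := by
    intro T' hT' t ht
    have htT : t < T := lt_of_lt_of_le ht.2 (le_csSup hbd hT')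
    exact huniq _ (hgS t htT) _ hT' t ⟨ht.1, lt_min (hgt t htT) ht.2⟩
  have hud : ∀ t ∈ Ioo (-ε₀) T, HasDerivAt u (F (u t)) t := by
    intro t ht
    have h1 := hsold _ (hgS t ht.2) t ⟨ht.1, hgt t ht.2⟩
    have h2 : u =ᶠ[𝓝 t] sol (g t) := by
      filter_upwards [Ioo_mem_nhds ht.1 (hgt t ht.2)] with s hs
      exact hu_eq _ (hgS t ht.2) s hs
    rw [hu_eq _ (hgS t ht.2) t ⟨ht.1, hgt t ht.2⟩]
    exact h1.congr_of_eventuallyEq h2
  refine ⟨ε₀, hε₀, T, hTpos, u, ?_, hud, ?_⟩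
  · rw [hu_eq _ hε₀S 0 ⟨by linarith, hε₀⟩, hsol0 _ hε₀S]
  · intro t₁ ht₁ R hR
    obtain ⟨C, hC, hCb⟩ := hLB.bdd R
    -- u is Lipschitz on [t₁,T)
    have hlip : ∀ s ∈ Ico t₁ T, ∀ t ∈ Ico t₁ T, s ≤ t → ‖u t - u s‖ ≤ C * (t - s) := by
      intro s hs t ht hst
      refine norm_image_sub_le_of_norm_deriv_le_segment' (f := u) (f' := fun t => F (u t)) (a := s)
        (b := t) (fun x hx => ?_) (fun x hx => ?_) t (right_mem_Icc.2 hst)
      · exact (hud x ⟨by linarith [hx.1, hs.1, ht₁.1], lt_of_le_of_lt hx.2 ht.2⟩).hasDerivWithinAt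
      · exact hCb _ (hR x ⟨hs.1.trans hx.1, hx.2.trans ht.2⟩)
    have hcauchy : ∃ L : E, Tendsto u (𝓝[<] T) (𝓝 L) := by
      apply cauchy_map_iff_exists_tendsto.1
      rw [Metric.cauchy_iff]
      refine ⟨inferInstance, fun ε hε => ?_⟩
      set δ := ε / (C + 1) with hδ
      have hδpos : 0 < δ := by positivity
      set t₂ := max t₁ (T - δ / 2) with ht₂
      have ht₂T : t₂ < T := max_lt ht₁.2 (by linarith)
      refine ⟨u '' (Ioo t₂ T), image_mem_map (Ioo_mem_nhdsLT ht₂T), ?_⟩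
      rintro _ ⟨s, hs, rfl⟩ _ ⟨t, ht, rfl⟩
      have hs' : s ∈ Ico t₁ T := ⟨(le_max_left _ _).trans hs.1.le, hs.2⟩
      have ht' : t ∈ Ico t₁ T := ⟨(le_max_left _ _).trans ht.1.le, ht.2⟩
      have hs2 : T - δ/2 < s := lt_of_le_of_lt (le_max_right _ _) hs.1
      have ht2 : T - δ/2 < t := lt_of_le_of_lt (le_max_right _ _) ht.1
      have hCδ : C * (δ/2) < ε := by
        have : (C + 1) * δ = ε := by rw [hδ]; field_simp
        nlinarith
      rcases le_total s t with h | h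
      · rw [dist_comm, dist_eq_norm]
        refine (hlip s hs' t ht' h).trans_lt (lt_of_le_of_lt ?_ hCδ)
        exact mul_le_mul_of_nonneg_left (by linarith [ht.2]) hC
      · rw [dist_eq_norm]
        refine (hlip t ht' s hs' h).trans_lt (lt_of_le_of_lt ?_ hCδ)
        exact mul_le_mul_of_nonneg_left (by linarith [hs.2]) hC
    obtain ⟨L, hL⟩ := hcauchy
    obtain ⟨r', hr', ε, hε, β, -, hβ0, hβd⟩ := exists_flow hF L
    have hev1 : ∀ᶠ t in 𝓝[<] T, u t ∈ closedBall L r' := hL (closedBall_mem_nhds L hr')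
    have hev2 : ∀ᶠ t in 𝓝[<] T, t ∈ Ioo (max t₁ (T - ε/2)) T :=
      Ioo_mem_nhdsLT (max_lt ht₁.2 (by linarith))
    obtain ⟨t₂, h1, h2⟩ := (hev1.and hev2).exists
    have ht₂1 : t₁ < t₂ := lt_of_le_of_lt (le_max_left _ _) h2.1
    have ht₂2 : T - ε/2 < t₂ := lt_of_le_of_lt (le_max_right _ _) h2.1
    have ht₂3 : t₂ < T := h2.2
    have ht₂0 : 0 < t₂ := lt_of_le_of_lt ht₁.1 ht₂1
    set η := min ε (t₂ + ε₀) with hη
    have hηpos : 0 < η := lt_min hε (by linarith)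
    have hβ' : ∀ t ∈ Ioo (t₂ - ε) (t₂ + ε),
        HasDerivAt (fun s => β (u t₂, s - t₂)) (F (β (u t₂, t - t₂))) t := by
      intro t ht
      have := (hβd _ h1 (t - t₂) ⟨by linarith [ht.1], by linarith [ht.2]⟩).scomp t
        ((hasDerivAt_id t).sub_const t₂)
      simp only [one_smul] at this
      exact this
    have hagree : ∀ t ∈ Ioo (t₂ - η) T, u t = β (u t₂, t - t₂) := by
      intro t ht
      refine hLB.unique (t₀ := t₂) (a := t₂ - η) (b := T) (v := fun t => β (u t₂, t - t₂))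
        ⟨by linarith, ht₂3⟩ (fun s hs => ?_) (fun s hs => ?_)
        ?_ ht
      · exact hud s ⟨by linarith [hs.1, min_le_right ε (t₂ + ε₀)], hs.2⟩
      · exact hβ' s ⟨by linarith [hs.1, min_le_left ε (t₂ + ε₀)], by linarith [hs.2]⟩
      · simp only [sub_self]; rw [hβ0 _ h1]
    set v : ℝ → E := fun t => if t < T then u t else β (u t₂, t - t₂) with hv
    have hv1 : ∀ t < T, v t = u t := fun t ht => by simp only [hv, if_pos ht]
    have hv2 : ∀ t, t₂ - η < t → v t = β (u t₂, t - t₂) := by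
      intro t ht
      by_cases h : t < T
      · rw [hv1 t h]; exact hagree t ⟨ht, h⟩
      · simp only [hv, if_neg h]
    have hmem : t₂ + ε ∈ S := by
      refine ⟨by linarith, v, ?_, ?_⟩
      · rw [hv1 0 hTpos, hu_eq _ hε₀S 0 ⟨by linarith, hε₀⟩, hsol0 _ hε₀S]
      · intro t ht
        by_cases h : t < T
        · rw [hv1 t h]
          refine (hud t ⟨ht.1, h⟩).congr_of_eventuallyEq ?_
          filter_upwards [Iio_mem_nhds h] with s hs
          exact hv1 s hs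
        · have h' : t₂ - η < t := by
            push Not at h
            linarith
          rw [hv2 t h']
          have h'' : t ∈ Ioo (t₂ - ε) (t₂ + ε) :=
            ⟨by linarith [min_le_left ε (t₂ + ε₀)], ht.2⟩
          refine (hβ' t h'').congr_of_eventuallyEq ?_
          filter_upwards [Ioi_mem_nhds h'] with s hs
          exact hv2 s hs
    have := le_csSup hbd hmem
    linarith

end absLB

end Pool.Agent.H153R3
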