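import Mathlib

open Set Filter Topology MeasureTheory
open scoped BoundedContinuousFunction ContDiff

noncomputable section

namespace Pool.Agent.H153R3

/-- bounded continuous functions on the line -/
abbrev V := BoundedContinuousFunction ℝ ℝ

/-- the clamp to `[-2,2]` -/
def cl (x : ℝ) : ℝ := max (-2) (min x 2)

lemma continuous_cl : Continuous cl := by unfold cl; fun_prop

lemma cl_mem (x : ℝ) : cl x ∈ Icc (-2:ℝ) 2 := by
  unfold cl
  constructor
  · exact le_max_left _ _
  · exact max_le (by norm_num) (min_le_right _ _)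

lemma cl_of_mem {x : ℝ} (h : x ∈ Icc (-2:ℝ) 2) : cl x = x := by
  unfold cl
  rw [min_eq_left h.2, max_eq_right h.1]

/-- half of the difference of the integrals to the left and to the right -/
def jf (f : ℝ → ℝ) (x : ℝ) : ℝ :=
  (1/2) * ((∫ y in (-2:ℝ)..(cl x), f y) - ∫ y in (cl x)..(2:ℝ), f y)

lemma jf_eq {f : ℝ → ℝ} (hf : Continuous f) (x : ℝ) :
    jf f x = (∫ y in (-2:ℝ)..(cl x), f y) - (1/2) * ∫ y in (-2:ℝ)..2, f y := by
  unfold jf
  have := intervalIntegral.integral_add_adjacent_intervals
    (hf.intervalIntegrable (-2:ℝ) (cl x)) (hf.intervalIntegrable (μ := volume) (cl x) 2)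
  linarith

lemma continuous_jf {f : ℝ → ℝ} (hf : Continuous f) : Continuous (jf f) := by
  have h1 : jf f = fun x => (∫ y in (-2:ℝ)..(cl x), f y) - (1/2) * ∫ y in (-2:ℝ)..2, f y := by
    ext x; exact jf_eq hf x
  rw [h1]
  have h2 := (intervalIntegral.continuous_primitive
      (fun a b => hf.intervalIntegrable (μ := volume) a b) (-2:ℝ)).comp continuous_cl
  exact h2.sub continuous_const

lemma jf_le {f : ℝ → ℝ} (hf : Continuous f) (x : ℝ) :
    |jf f x| ≤ (1/2) * ∫ y in (-2:ℝ)..2, |f y| := by
  have h1 := intervalIntegral.integral_add_adjacent_intervals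
    (hf.abs.intervalIntegrable (-2:ℝ) (cl x)) (hf.abs.intervalIntegrable (μ := volume) (cl x) 2)
  have h2 := intervalIntegral.abs_integral_le_integral_abs (μ := volume) (f := f) (cl_mem x).1
  have h3 := intervalIntegral.abs_integral_le_integral_abs (μ := volume) (f := f) (cl_mem x).2
  rw [← h1]
  unfold jf
  rw [abs_mul, abs_of_nonneg (by norm_num : (0:ℝ) ≤ 1/2)]
  have h4 := abs_sub (∫ y in (-2:ℝ)..(cl x), f y) (∫ y in (cl x)..(2:ℝ), f y)
  linarith

lemma jf_bound (f : V) (x : ℝ) : ‖jf f x‖ ≤ 2 * ‖f‖ := by
  rw [Real.norm_eq_abs]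
  refine (jf_le f.continuous x).trans ?_
  have h1 : ∫ y in (-2:ℝ)..2, |f y| ≤ ∫ y in (-2:ℝ)..2, ‖f‖ := by
    apply intervalIntegral.integral_mono_on (by norm_num)
    · exact f.continuous.abs.intervalIntegrable _ _
    · exact continuous_const.intervalIntegrable _ _
    · intro y _
      exact f.norm_coe_le_norm y
  rw [intervalIntegral.integral_const] at h1
  simp only [smul_eq_mul] at h1
  linarith

/-- the operator as a function -/
def JV (f : V) : V := BoundedContinuousFunction.ofNormedAddCommGroup (jf f)
        (continuous_jf f.continuous) (2 * ‖f‖) (jf_bound f)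

lemma JV_apply (f : V) (x : ℝ) : JV f x = jf f x := rfl

/-- the operator on bounded continuous functions -/
def J : V →L[ℝ] V :=
  LinearMap.mkContinuous
    { toFun := JV
      map_add' := fun f g => by
        ext x
        simp only [JV_apply, BoundedContinuousFunction.coe_add, Pi.add_apply, jf]
        have h1 := intervalIntegral.integral_add (f.continuous.intervalIntegrable (μ := volume) (-2) (cl x))
          (g.continuous.intervalIntegrable (-2) (cl x))
        have h2 := intervalIntegral.integral_add (f.continuous.intervalIntegrable (μ := volume) (cl x) 2)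
          (g.continuous.intervalIntegrable (cl x) 2)
        rw [h1, h2]; ring
      map_smul' := fun c f => by
        ext x
        simp only [JV_apply,
          BoundedContinuousFunction.coe_smul, jf, smul_eq_mul, RingHom.id_apply,
          intervalIntegral.integral_const_mul]
        ring } 2 (by
    intro f
    exact (BoundedContinuousFunction.norm_le (by positivity)).2 (jf_bound f))

lemma J_apply (f : V) (x : ℝ) : J f x = jf f x := rfl

lemma J_abs_le (f : V) (x : ℝ) : |J f x| ≤ (1/2) * ∫ y in (-2:ℝ)..2, |f y| := jf_le f.continuous x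

lemma hasDerivAt_J (f : V) {x : ℝ} (hx : x ∈ Ioo (-2:ℝ) 2) :
    HasDerivAt (fun x => J f x) (f x) x := by
  have h1 : HasDerivAt (fun x => ∫ y in (-2:ℝ)..x, f y) (f x) x :=
    intervalIntegral.integral_hasDerivAt_right (f.continuous.intervalIntegrable _ _)
      f.continuous.stronglyMeasurable.stronglyMeasurableAtFilter f.continuous.continuousAt
  have h2 := h1.sub_const ((1/2) * ∫ y in (-2:ℝ)..2, f y)
  refine h2.congr_of_eventuallyEq ?_
  filter_upwards [Ioo_mem_nhds hx.1 hx.2] with y hy
  rw [J_apply, jf_eq f.continuous, cl_of_mem (Ioo_subset_Icc_self hy)]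

/-- translation -/
def tr (f : V) (s : ℝ) : V := f.compContinuous ⟨fun x => x + s, by fun_prop⟩

@[simp] lemma tr_apply (f : V) (s x : ℝ) : tr f s x = f (x + s) := rfl

lemma tr_zero (f : V) : tr f 0 = f := by ext x; simp

lemma tr_mul (f g : V) (s : ℝ) : tr (f * g) s = tr f s * tr g s := by ext x; simp

lemma tr_add (f g : V) (s : ℝ) : tr (f + g) s = tr f s + tr g s := by ext x; simp

lemma tr_sub (f g : V) (s : ℝ) : tr (f - g) s = tr f s - tr g s := by ext x; simp

lemma tr_neg (f : V) (s : ℝ) : tr (-f) s = -tr f s := by ext x; simp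

lemma tr_smul (c : ℝ) (f : V) (s : ℝ) : tr (c • f) s = c • tr f s := by ext x; simp

/-- translation as a continuous linear map -/
def trL (s : ℝ) : V →L[ℝ] V :=
  LinearMap.mkContinuous
    { toFun := fun f => tr f s
      map_add' := fun f g => tr_add f g s
      map_smul' := fun c f => tr_smul c f s } 1 (by
    intro f
    rw [one_mul]
    refine (BoundedContinuousFunction.norm_le (norm_nonneg _)).2 fun x => ?_
    exact f.norm_coe_le_norm _)

@[simp] lemma trL_apply (s : ℝ) (f : V) : trL s f = tr f s := rfl

/-- reflection -/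
def rf (f : V) : V := f.compContinuous ⟨fun x => -x, by fun_prop⟩

@[simp] lemma rf_apply (f : V) (x : ℝ) : rf f x = f (-x) := rfl

lemma rf_mul (f g : V) : rf (f * g) = rf f * rf g := by ext x; simp

lemma rf_add (f g : V) : rf (f + g) = rf f + rf g := by ext x; simp

lemma rf_sub (f g : V) : rf (f - g) = rf f - rf g := by ext x; simp

lemma rf_neg (f : V) : rf (-f) = -rf f := by ext x; simp

lemma rf_smul (c : ℝ) (f : V) : rf (c • f) = c • rf f := by ext x; simp

/-- reflection as a continuous linear map -/
def rfL : V →L[ℝ] V :=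
  LinearMap.mkContinuous
    { toFun := fun f => rf f
      map_add' := fun f g => rf_add f g
      map_smul' := fun c f => rf_smul c f } 1 (by
    intro f
    rw [one_mul]
    refine (BoundedContinuousFunction.norm_le (norm_nonneg _)).2 fun x => ?_
    exact f.norm_coe_le_norm _)

@[simp] lemma rfL_apply (f : V) : rfL f = rf f := rfl

lemma cl_neg (x : ℝ) : cl (-x) = -cl x := by
  unfold cl
  rcases le_total x 2 with h | h <;> rcases le_total (-2) x with h' | h' <;>
    simp only [max_def, min_def] <;> split_ifs <;> linarith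

lemma J_rf (f : V) : J (rf f) = - rf (J f) := by
  ext x
  simp only [J_apply, BoundedContinuousFunction.coe_neg, Pi.neg_apply, rf_apply, jf]
  rw [intervalIntegral.integral_comp_neg (fun y => f y),
    intervalIntegral.integral_comp_neg (fun y => f y), cl_neg, neg_neg]
  ring

lemma J_tr {f : V} (hf : ∀ x, 1 ≤ |x| → f x = 0) {s : ℝ} (hs : |s| ≤ 1) :
    J (tr f s) = tr (J f) s := by
  obtain ⟨hs1, hs2⟩ := abs_le.1 hs
  have hII : ∀ a b, IntervalIntegrable (fun y => f y) volume a b := fun a b =>
    f.continuous.intervalIntegrable a b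
  have hR : ∀ a b : ℝ, 1 ≤ a → 1 ≤ b → ∫ y in a..b, f y = 0 := by
    intro a b ha hb
    have : ∫ y in a..b, f y = ∫ y in a..b, (0:ℝ) := by
      apply intervalIntegral.integral_congr
      intro y hy
      have h1 : 1 ≤ y := le_trans (le_min ha hb) hy.1
      exact hf y (by rw [abs_of_nonneg (by linarith)]; exact h1)
    rw [this]; simp
  have hL : ∀ a b : ℝ, a ≤ -1 → b ≤ -1 → ∫ y in a..b, f y = 0 := by
    intro a b ha hb
    have : ∫ y in a..b, f y = ∫ y in a..b, (0:ℝ) := by
      apply intervalIntegral.integral_congr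
      intro y hy
      have h1 : y ≤ -1 := le_trans hy.2 (max_le ha hb)
      exact hf y (by rw [abs_of_nonpos (by linarith)]; linarith)
    rw [this]; simp
  ext x
  rw [J_apply, tr_apply, J_apply, jf_eq (tr f s).continuous, jf_eq f.continuous]
  simp only [tr_apply]
  rw [intervalIntegral.integral_comp_add_right (fun y => f y),
    intervalIntegral.integral_comp_add_right (fun y => f y)]
  have h0 := intervalIntegral.integral_add_adjacent_intervals (hII (-2) (-2+s)) (hII (-2+s) (2+s))
  have h1 := intervalIntegral.integral_add_adjacent_intervals (hII (-2) 2) (hII 2 (2+s))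
  have h2 := intervalIntegral.integral_add_adjacent_intervals (hII (-2) (-2+s))
    (hII (-2+s) (cl x + s))
  have h3 := intervalIntegral.integral_add_adjacent_intervals (hII (-2) (cl (x+s)))
    (hII (cl (x+s)) (cl x + s))
  have h4 : ∫ y in (-2)..(-2+s), f y = 0 := hL _ _ (by norm_num) (by linarith)
  have h5 : ∫ y in (2:ℝ)..(2+s), f y = 0 := hR _ _ (by norm_num) (by linarith)
  have h6 : ∫ y in (cl (x+s))..(cl x+s), f y = 0 := by
    unfold cl
    rcases le_total x 2 with h | h <;> rcases le_total (-2) x with h' | h' <;>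
    rcases le_total (x+s) 2 with g | g <;> rcases le_total (-2) (x+s) with g' | g' <;>
    simp only [min_eq_left, min_eq_right, max_eq_left, max_eq_right, h, h', g, g',
      intervalIntegral.integral_same, (by norm_num : (-2:ℝ) ≤ 2)] <;>
    first
      | (apply hR <;> linarith)
      | (apply hL <;> linarith)
  linarith

end Pool.Agent.H153R3
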