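import Mathlib
import Pool.Agent.H153R3.Op
import Pool.Agent.H153R3.Abs

open Set Filter Topology MeasureTheory
open scoped BoundedContinuousFunction ContDiff

set_option maxHeartbeats 1000000

noncomputable section

namespace Pool.Agent.H153R3

/-- the state space: cosine, sine, Jacobian, vorticity, density, its derivative, displacement -/
abbrev St := Fin 7 → V

def c2 (u : St) : V := u 0 * u 0 - u 1 * u 1
def s2 (u : St) : V := (2:ℝ) • (u 0 * u 1)
def Js (u : St) : V := J (s2 u * u 3 * u 2)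
def Jc (u : St) : V := J (c2 u * u 3 * u 2)
def vel (u : St) : V := s2 u * Jc u - c2 u * Js u
def str (u : St) : V := s2 u * Js u + c2 u * Jc u

/-- the vector field -/
def F (u : St) : St :=
  ![-(u 1 * vel u), u 0 * vel u, (2:ℝ) • (str u * u 2), -(u 4 * u 1 + u 5 * u 0), str u * u 4,
    -(str u * u 5) + (u 3 - (2:ℝ) • vel u) * u 4, vel u]

lemma LB_coord (i : Fin 7) : LB (fun u : St => u i) :=
  LB.clm (ContinuousLinearMap.proj (R := ℝ) (φ := fun _ : Fin 7 => V) i)

lemma LB_c2 : LB c2 := ((LB_coord 0).mul (LB_coord 0)).sub ((LB_coord 1).mul (LB_coord 1))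
lemma LB_s2 : LB s2 := ((LB_coord 0).mul (LB_coord 1)).smul 2
lemma LB_Js : LB Js := ((LB_s2.mul (LB_coord 3)).mul (LB_coord 2)).comp_clm J
lemma LB_Jc : LB Jc := ((LB_c2.mul (LB_coord 3)).mul (LB_coord 2)).comp_clm J
lemma LB_vel : LB vel := (LB_s2.mul LB_Jc).sub (LB_c2.mul LB_Js)
lemma LB_str : LB str := (LB_s2.mul LB_Js).add (LB_c2.mul LB_Jc)

lemma LB_F : LB F := by
  apply LB.pi
  intro i
  fin_cases i
  · exact ((LB_coord 1).mul LB_vel).neg
  · exact (LB_coord 0).mul LB_vel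
  · exact (LB_str.mul (LB_coord 2)).smul 2
  · exact (((LB_coord 4).mul (LB_coord 1)).add ((LB_coord 5).mul (LB_coord 0))).neg
  · exact LB_str.mul (LB_coord 4)
  · exact ((LB_str.mul (LB_coord 5)).neg).add
      (((LB_coord 3).sub (LB_vel.smul 2)).mul (LB_coord 4))
  · exact LB_vel

lemma cd_coord (i : Fin 7) : ContDiff ℝ ∞ (fun u : St => u i) := contDiff_apply ℝ V i

lemma cd_c2 : ContDiff ℝ ∞ c2 :=
  ((cd_coord 0).mul (cd_coord 0)).sub ((cd_coord 1).mul (cd_coord 1))
lemma cd_s2 : ContDiff ℝ ∞ s2 := ((cd_coord 0).mul (cd_coord 1)).const_smul (2:ℝ)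
lemma cd_Js : ContDiff ℝ ∞ Js :=
  ContDiff.comp (g := J) J.contDiff ((cd_s2.mul (cd_coord 3)).mul (cd_coord 2))
lemma cd_Jc : ContDiff ℝ ∞ Jc :=
  ContDiff.comp (g := J) J.contDiff ((cd_c2.mul (cd_coord 3)).mul (cd_coord 2))
lemma cd_vel : ContDiff ℝ ∞ vel := (cd_s2.mul cd_Jc).sub (cd_c2.mul cd_Js)
lemma cd_str : ContDiff ℝ ∞ str := (cd_s2.mul cd_Js).add (cd_c2.mul cd_Jc)

lemma cd_F : ContDiff ℝ ∞ F := by
  rw [contDiff_pi]
  intro i
  fin_cases i
  · exact ((cd_coord 1).mul cd_vel).neg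
  · exact (cd_coord 0).mul cd_vel
  · exact (cd_str.mul (cd_coord 2)).const_smul (2:ℝ)
  · exact (((cd_coord 4).mul (cd_coord 1)).add ((cd_coord 5).mul (cd_coord 0))).neg
  · exact cd_str.mul (cd_coord 4)
  · exact ((cd_str.mul (cd_coord 5)).neg).add
      (((cd_coord 3).sub (cd_vel.const_smul (2:ℝ))).mul (cd_coord 4))
  · exact cd_vel

/-- translation of a state -/
def trS (s : ℝ) (u : St) : St := fun i => tr (u i) s

lemma trS_c2 (s : ℝ) (u : St) : c2 (trS s u) = tr (c2 u) s := by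
  simp only [c2, trS, tr_sub, tr_mul]
lemma trS_s2 (s : ℝ) (u : St) : s2 (trS s u) = tr (s2 u) s := by
  simp only [s2, trS, tr_smul, tr_mul]

lemma trS_Js {s : ℝ} (hs : |s| ≤ 1) {u : St} (hu : ∀ x, 1 ≤ |x| → u 3 x = 0) :
    Js (trS s u) = tr (Js u) s := by
  unfold Js
  rw [trS_s2]
  simp only [trS]
  rw [← tr_mul, ← tr_mul]
  apply J_tr _ hs
  intro x hx
  simp [hu x hx]

lemma trS_Jc {s : ℝ} (hs : |s| ≤ 1) {u : St} (hu : ∀ x, 1 ≤ |x| → u 3 x = 0) :
    Jc (trS s u) = tr (Jc u) s := by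
  unfold Jc
  rw [trS_c2]
  simp only [trS]
  rw [← tr_mul, ← tr_mul]
  apply J_tr _ hs
  intro x hx
  simp [hu x hx]

lemma trS_vel {s : ℝ} (hs : |s| ≤ 1) {u : St} (hu : ∀ x, 1 ≤ |x| → u 3 x = 0) :
    vel (trS s u) = tr (vel u) s := by
  unfold vel
  rw [trS_Js hs hu, trS_Jc hs hu, trS_s2, trS_c2, tr_sub, tr_mul, tr_mul]

lemma trS_str {s : ℝ} (hs : |s| ≤ 1) {u : St} (hu : ∀ x, 1 ≤ |x| → u 3 x = 0) :
    str (trS s u) = tr (str u) s := by
  unfold str
  rw [trS_Js hs hu, trS_Jc hs hu, trS_s2, trS_c2, tr_add, tr_mul, tr_mul]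

lemma trS_F {s : ℝ} (hs : |s| ≤ 1) {u : St} (hu : ∀ x, 1 ≤ |x| → u 3 x = 0) :
    F (trS s u) = trS s (F u) := by
  unfold F
  rw [trS_vel hs hu, trS_str hs hu]
  funext i
  fin_cases i
  · change -(tr (u 1) s * tr (vel u) s) = tr (-(u 1 * vel u)) s
    rw [tr_neg, tr_mul]
  · change (tr (u 0) s * tr (vel u) s) = tr ((u 0 * vel u)) s
    rw [tr_mul]
  · change (2:ℝ) • (tr (str u) s * tr (u 2) s) = tr ((2:ℝ) • (str u * u 2)) s
    rw [tr_smul, tr_mul]
  · change -(tr (u 4) s * tr (u 1) s + tr (u 5) s * tr (u 0) s) =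
      tr (-(u 4 * u 1 + u 5 * u 0)) s
    rw [tr_neg, tr_add, tr_mul, tr_mul]
  · change tr (str u) s * tr (u 4) s = tr (str u * u 4) s
    rw [tr_mul]
  · change -(tr (str u) s * tr (u 5) s) + (tr (u 3) s - (2:ℝ) • tr (vel u) s) * tr (u 4) s =
      tr (-(str u * u 5) + (u 3 - (2:ℝ) • vel u) * u 4) s
    rw [tr_add, tr_neg, tr_mul, tr_mul, tr_sub, tr_smul]
  · rfl

/-- translation of a state as a continuous linear map -/
def trSL (s : ℝ) : St →L[ℝ] St :=
  ContinuousLinearMap.pi fun i => (trL s).comp (ContinuousLinearMap.proj i)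

lemma trSL_apply (s : ℝ) (u : St) : trSL s u = trS s u := rfl

/-- reflection of a state -/
def rfS : St →L[ℝ] St :=
  ContinuousLinearMap.pi ![rfL.comp (ContinuousLinearMap.proj 0),
    -rfL.comp (ContinuousLinearMap.proj 1), rfL.comp (ContinuousLinearMap.proj 2),
    -rfL.comp (ContinuousLinearMap.proj 3), rfL.comp (ContinuousLinearMap.proj 4),
    -rfL.comp (ContinuousLinearMap.proj 5), -rfL.comp (ContinuousLinearMap.proj 6)]

lemma rfS0 (u : St) : rfS u 0 = rf (u 0) := rfl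
lemma rfS1 (u : St) : rfS u 1 = -rf (u 1) := rfl
lemma rfS2 (u : St) : rfS u 2 = rf (u 2) := rfl
lemma rfS3 (u : St) : rfS u 3 = -rf (u 3) := rfl
lemma rfS4 (u : St) : rfS u 4 = rf (u 4) := rfl
lemma rfS5 (u : St) : rfS u 5 = -rf (u 5) := rfl
lemma rfS6 (u : St) : rfS u 6 = -rf (u 6) := rfl

lemma rfS_c2 (u : St) : c2 (rfS u) = rf (c2 u) := by
  ext x; simp [c2, rfS0, rfS1]
lemma rfS_s2 (u : St) : s2 (rfS u) = -rf (s2 u) := by
  ext x; simp [s2, rfS0, rfS1]
lemma rfS_Js (u : St) : Js (rfS u) = -rf (Js u) := by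
  unfold Js; rw [rfS_s2, rfS3, rfS2, ← J_rf]
  congr 1
  ext x; simp
lemma rfS_Jc (u : St) : Jc (rfS u) = rf (Jc u) := by
  unfold Jc; rw [rfS_c2, rfS3, rfS2]
  have h1 : rf (c2 u) * -rf (u 3) * rf (u 2) = - rf (c2 u * u 3 * u 2) := by
    ext x; simp
  rw [h1, map_neg, J_rf, neg_neg]
lemma rfS_vel (u : St) : vel (rfS u) = -rf (vel u) := by
  unfold vel
  rw [rfS_s2, rfS_c2, rfS_Js, rfS_Jc]
  ext x; simp; ring
lemma rfS_str (u : St) : str (rfS u) = rf (str u) := by
  unfold str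
  rw [rfS_s2, rfS_c2, rfS_Js, rfS_Jc]
  ext x; simp

lemma rfS_F (u : St) : F (rfS u) = rfS (F u) := by
  unfold F
  rw [rfS_vel, rfS_str]
  funext i
  fin_cases i
  · change -(-rf (u 1) * -rf (vel u)) = rf (-(u 1 * vel u))
    ext x; simp
  · change rf (u 0) * -rf (vel u) = -rf (u 0 * vel u)
    ext x; simp
  · change (2:ℝ) • (rf (str u) * rf (u 2)) = rf ((2:ℝ) • (str u * u 2))
    ext x; simp
  · change -(rf (u 4) * -rf (u 1) + -rf (u 5) * rf (u 0)) = -rf (-(u 4 * u 1 + u 5 * u 0))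
    ext x; simp; ring
  · change rf (str u) * rf (u 4) = rf (str u * u 4)
    ext x; simp
  · change -(rf (str u) * -rf (u 5)) + (-rf (u 3) - (2:ℝ) • -rf (vel u)) * rf (u 4) =
      -rf (-(str u * u 5) + (u 3 - (2:ℝ) • vel u) * u 4)
    ext x; simp; ring
  · rfl

/-! ### smooth translation of smooth functions -/

lemma hasDerivAt_tr {f g : V} {C : ℝ} (hC : 0 ≤ C) (hg : ∀ x, HasDerivAt f (g x) x)
    (hlip : ∀ x y, |g x - g y| ≤ C * |x - y|) (s : ℝ) : HasDerivAt (tr f) (tr g s) s := by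
  rw [hasDerivAt_iff_isLittleO_nhds_zero, Asymptotics.isLittleO_iff]
  intro c hc
  have hev : ∀ᶠ h : ℝ in 𝓝 0, |h| < c / (C + 1) := by
    have : ContinuousAt (fun s : ℝ => |s|) 0 := continuous_abs.continuousAt
    exact this.eventually (gt_mem_nhds (by simp; positivity))
  filter_upwards [hev] with h hh
  have key : ∀ y : ℝ, |f (y + h) - f y - h * g y| ≤ C * |h| * |h| := by
    intro y
    have h1 : ∀ r ∈ uIcc 0 h, HasDerivWithinAt (fun r => f (y + r) - r * g y)
        (g (y + r) - g y) (uIcc 0 h) r := by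
      intro r _
      have h2 : HasDerivAt (fun r => f (y + r)) (g (y + r)) r := by
        have := (hg (y + r)).scomp r ((hasDerivAt_id r).const_add y)
        simp only [one_smul] at this
        exact this
      have h3 : HasDerivAt (fun r => r * g y) (g y) r := by
        simpa using (hasDerivAt_id r).mul_const (g y)
      exact (h2.sub h3).hasDerivWithinAt
    have h4 : ∀ r ∈ uIcc 0 h, ‖g (y + r) - g y‖ ≤ C * |h| := by
      intro r hr
      rw [Real.norm_eq_abs]
      refine (hlip _ _).trans ?_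
      have : |y + r - y| ≤ |h| := by
        have h5 : y + r - y = r := by ring
        rw [h5]
        rcases le_total 0 h with h6 | h6
        · rw [uIcc_of_le h6] at hr
          rw [abs_of_nonneg hr.1, abs_of_nonneg h6]; exact hr.2
        · rw [uIcc_of_ge h6] at hr
          rw [abs_of_nonpos hr.2, abs_of_nonpos h6]; linarith [hr.1]
      exact mul_le_mul_of_nonneg_left this hC
    have h5 := (convex_uIcc (0:ℝ) h).norm_image_sub_le_of_norm_hasDerivWithin_le h1 h4
      left_mem_uIcc right_mem_uIcc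
    simp only [add_zero, zero_mul, sub_zero, Real.norm_eq_abs] at h5
    have h6 : f (y + h) - f y - h * g y = f (y + h) - h * g y - f y := by ring
    rw [h6]
    exact h5
  refine (BoundedContinuousFunction.norm_le (by positivity)).2 fun x => ?_
  have h1 : (tr f (s + h) - tr f s - h • tr g s) x
      = f (x + s + h) - f (x + s) - h * g (x + s) := by
    simp [add_assoc]
  rw [h1, Real.norm_eq_abs, Real.norm_eq_abs]
  refine (key (x + s)).trans ?_
  have h2 : C * |h| ≤ c := by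
    have h3 : (C + 1) * |h| < c := by
      rw [lt_div_iff₀ (by positivity)] at hh
      linarith
    nlinarith [abs_nonneg h]
  exact mul_le_mul_of_nonneg_right h2 (abs_nonneg _)

lemma exists_V_of_compact {f : ℝ → ℝ} (hf : Continuous f) (hc : HasCompactSupport f) :
    ∃ g : V, ∀ x, g x = f x := by
  obtain ⟨C, hC⟩ := hf.bounded_above_of_compact_support hc
  exact ⟨BoundedContinuousFunction.ofNormedAddCommGroup f hf C hC, fun x => rfl⟩

lemma contDiff_tr (n : ℕ) : ∀ f : V, ContDiff ℝ ∞ (f : ℝ → ℝ) → HasCompactSupport (f : ℝ → ℝ) →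
    ContDiff ℝ n (tr f) := by
  have key : ∀ f : V, ContDiff ℝ ∞ (f : ℝ → ℝ) → HasCompactSupport (f : ℝ → ℝ) →
      ∃ g : V, (∀ x, g x = deriv f x) ∧ ∀ s, HasDerivAt (tr f) (tr g s) s := by
    intro f hf hc
    have h1 : ContDiff ℝ ∞ (deriv (f : ℝ → ℝ)) := (contDiff_infty_iff_deriv.1 hf).2
    obtain ⟨g, hg⟩ := exists_V_of_compact h1.continuous hc.deriv
    have h2 : ContDiff ℝ ∞ (deriv (deriv (f : ℝ → ℝ))) := (contDiff_infty_iff_deriv.1 h1).2
    obtain ⟨C, hC⟩ := h2.continuous.bounded_above_of_compact_support hc.deriv.deriv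
    have hC0 : 0 ≤ C := (norm_nonneg _).trans (hC 0)
    refine ⟨g, hg, fun s => hasDerivAt_tr hC0 ?_ ?_ s⟩
    · intro x
      rw [hg]
      exact ((contDiff_infty_iff_deriv.1 hf).1 x).hasDerivAt
    · intro x y
      rw [hg, hg]
      have h3 := convex_univ.norm_image_sub_le_of_norm_deriv_le (𝕜 := ℝ)
        (f := deriv (f : ℝ → ℝ)) (C := C) (s := univ) (x := y) (y := x)
        (fun z _ => (contDiff_infty_iff_deriv.1 h1).1 z)
        (fun z _ => hC z) (mem_univ _) (mem_univ _)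
      simpa using h3
  induction n with
  | zero =>
    intro f hf hc
    obtain ⟨g, _, h⟩ := key f hf hc
    simp only [CharP.cast_eq_zero, contDiff_zero]
    exact continuous_iff_continuousAt.2 fun s => (h s).continuousAt
  | succ n ih =>
    intro f hf hc
    obtain ⟨g, hg, h⟩ := key f hf hc
    have hg' : (g : ℝ → ℝ) = deriv (f : ℝ → ℝ) := funext hg
    push_cast
    rw [contDiff_succ_iff_deriv]
    refine ⟨fun s => (h s).differentiableAt, by simp, ?_⟩
    have hd : deriv (tr f) = tr g := funext fun s => (h s).deriv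
    rw [hd]
    apply ih
    · rw [hg']; exact (contDiff_infty_iff_deriv.1 hf).2
    · rw [hg']; exact hc.deriv

lemma contDiff_tr_infty {f : V} (hf : ContDiff ℝ ∞ (f : ℝ → ℝ))
    (hc : HasCompactSupport (f : ℝ → ℝ)) : ContDiff ℝ ∞ (tr f) :=
  contDiff_infty.2 fun n => contDiff_tr n f hf hc

/-- the cosine as a bounded continuous function -/
def cosV : V := BoundedContinuousFunction.ofNormedAddCommGroup Real.cos Real.continuous_cos 1
  (fun x => by rw [Real.norm_eq_abs]; exact Real.abs_cos_le_one x)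

/-- the sine as a bounded continuous function -/
def sinV : V := BoundedContinuousFunction.ofNormedAddCommGroup Real.sin Real.continuous_sin 1
  (fun x => by rw [Real.norm_eq_abs]; exact Real.abs_sin_le_one x)

@[simp] lemma cosV_apply (x : ℝ) : cosV x = Real.cos x := rfl
@[simp] lemma sinV_apply (x : ℝ) : sinV x = Real.sin x := rfl

lemma contDiff_tr_cosV : ContDiff ℝ ∞ (tr cosV) := by
  have : tr cosV = fun s => Real.cos s • cosV - Real.sin s • sinV := by
    funext s; ext x; simp [Real.cos_add]; ring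
  rw [this]
  exact (Real.contDiff_cos.smul contDiff_const).sub (Real.contDiff_sin.smul contDiff_const)

lemma contDiff_tr_sinV : ContDiff ℝ ∞ (tr sinV) := by
  have : tr sinV = fun s => Real.cos s • sinV + Real.sin s • cosV := by
    funext s; ext x; simp [Real.sin_add]; ring
  rw [this]
  exact (Real.contDiff_cos.smul contDiff_const).add (Real.contDiff_sin.smul contDiff_const)

end Pool.Agent.H153R3
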