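import Mathlib
import Pool.Agent.Helper186.LocalFlow
import Pool.Agent.H153R3.Abs

open Set Filter Topology Metric
open scoped ContDiff

namespace Pool.Agent.H153R3

section smoothfam
variable {E : Type*} [NormedAddCommGroup E] [NormedSpace ℝ E] [CompleteSpace E]

lemma smooth_family_key {F : E → E} (hF : ContDiff ℝ ∞ F) (hLB : LB F) {a b : ℝ}
    (U : ℝ → ℝ → E)
    (hU : ∀ s, |s| < 1 → ∀ t ∈ Ioo a b, HasDerivAt (U s) (F (U s t)) t) {n : ℕ} (hn : n ≠ 0)
    {t₁ : ℝ} (ht₁ : t₁ ∈ Ioo a b) :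
    ∃ η > (0:ℝ), ∀ t' ∈ Ioo a b, |t' - t₁| < η → ContDiffAt ℝ n (fun s => U s t') 0 →
      ∀ t'' ∈ Ioo a b, |t'' - t₁| < η → ContDiffAt ℝ n (fun p : ℝ × ℝ => U p.1 p.2) (0, t'') := by
  set x₀ := U 0 t₁ with hx₀
  have hF1 : ContDiff ℝ 1 F := hF.of_le (by exact_mod_cast le_top)
  obtain ⟨r, hr, ε, hε, α, hαc, hα0, hαd⟩ := exists_flow hF1 x₀
  have hFn : ContDiff ℝ n F := hF.of_le (by exact_mod_cast le_top)
  have hα : ContDiffAt ℝ n α (x₀, 0) :=
    Helper186.contDiffAt_of_isFlow ⟨F, hF.continuous⟩ hn hFn x₀ α hr hε hαc hα0 hαd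
  have hev : ∀ᶠ p in 𝓝 (x₀, (0:ℝ)), ContDiffAt ℝ n α p := hα.eventually (by simp)
  obtain ⟨ρ, hρ, hρ'⟩ := Metric.eventually_nhds_iff.1 hev
  have h0 : (|(0:ℝ)| < 1) := by simp
  have hc0 : ContinuousAt (U 0) t₁ := (hU 0 h0 t₁ ht₁).continuousAt
  obtain ⟨η₁, hη₁, hη₁'⟩ := Metric.continuousAt_iff.1 hc0 (min r ρ) (lt_min hr hρ)
  refine ⟨min η₁ (min (ε/2) (ρ/2)), by positivity, ?_⟩
  intro t' ht' htt' hA t'' ht'' htt''
  have e1 : |t' - t₁| < η₁ := htt'.trans_le (min_le_left _ _)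
  have e2 : |t' - t₁| < ε/2 := htt'.trans_le ((min_le_right _ _).trans (min_le_left _ _))
  have e3 : |t' - t₁| < ρ/2 := htt'.trans_le ((min_le_right _ _).trans (min_le_right _ _))
  have e2' : |t'' - t₁| < ε/2 := htt''.trans_le ((min_le_right _ _).trans (min_le_left _ _))
  have e3' : |t'' - t₁| < ρ/2 := htt''.trans_le ((min_le_right _ _).trans (min_le_right _ _))
  have hdist : |t'' - t'| ≤ |t'' - t₁| + |t' - t₁| := by
    have : t'' - t' = (t'' - t₁) - (t' - t₁) := by ring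
    rw [this]; exact abs_sub _ _
  have hUt' : dist (U 0 t') x₀ < min r ρ := hη₁' (by rw [Real.dist_eq]; exact e1)
  have hs1 : ∀ᶠ s in 𝓝 (0:ℝ), dist (U s t') x₀ < min r ρ := by
    have hc := hA.continuousAt
    have : ∀ᶠ z in 𝓝 (U 0 t'), dist z x₀ < min r ρ :=
      (isOpen_ball (x := x₀) (ε := min r ρ)).mem_nhds hUt'
    exact hc.eventually this
  have hs2 : ∀ᶠ s in 𝓝 (0:ℝ), |s| < 1 := by
    have : ContinuousAt (fun s : ℝ => |s|) 0 := continuous_abs.continuousAt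
    exact this.eventually (gt_mem_nhds (by simp))
  have hs3 : ∀ᶠ t in 𝓝 t'', t ∈ Ioo a b ∧ |t - t'| < ε := by
    have hc : ContinuousAt (fun t : ℝ => |t - t'|) t'' := by fun_prop
    have h4 : ∀ᶠ t in 𝓝 t'', |t - t'| < ε := hc.eventually (gt_mem_nhds (by linarith))
    filter_upwards [Ioo_mem_nhds ht''.1 ht''.2, h4] with t h5 h6
    exact ⟨h5, h6⟩
  have hEq : (fun p : ℝ × ℝ => U p.1 p.2) =ᶠ[𝓝 (0, t'')] fun p => α (U p.1 t', p.2 - t') := by
    rw [nhds_prod_eq]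
    filter_upwards [(hs1.and hs2).prod_mk hs3] with p hp
    obtain ⟨⟨hp1, hp2⟩, hp3, hp4⟩ := hp
    have hx : U p.1 t' ∈ closedBall x₀ r :=
      mem_closedBall.2 (hp1.le.trans (min_le_left _ _))
    rw [abs_lt] at hp4
    refine hLB.unique (t₀ := t') (a := max a (t' - ε)) (b := min b (t' + ε)) (u := U p.1)
      (v := fun t => α (U p.1 t', t - t')) ⟨max_lt ht'.1 (by linarith),
        lt_min ht'.2 (by linarith)⟩ (fun s hs => ?_) (fun s hs => ?_) ?_
        ⟨max_lt hp3.1 (by linarith), lt_min hp3.2 (by linarith)⟩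
    · exact hU p.1 hp2 s ⟨(le_max_left _ _).trans_lt hs.1, hs.2.trans_le (min_le_left _ _)⟩
    · have hs1 := (le_max_right a (t' - ε)).trans_lt hs.1
      have hs2 := hs.2.trans_le (min_le_right b (t' + ε))
      have := (hαd _ hx (s - t') ⟨by linarith, by linarith⟩).scomp s
        ((hasDerivAt_id s).sub_const t')
      simp only [one_smul] at this
      exact this
    · simp only [sub_self]; rw [hα0 _ hx]
  refine ContDiffAt.congr_of_eventuallyEq ?_ hEq
  have hαat : ContDiffAt ℝ n α (U 0 t', t'' - t') := by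
    apply hρ'
    rw [Prod.dist_eq]
    refine max_lt (hUt'.trans_le (min_le_right _ _)) ?_
    rw [dist_zero_right, Real.norm_eq_abs]
    linarith
  have h2 : ContDiffAt ℝ n (fun p : ℝ × ℝ => (U p.1 t', p.2 - t')) (0, t'') := by
    refine ContDiffAt.prodMk ?_ ?_
    · exact ContDiffAt.comp (0, t'') (g := fun s => U s t') (f := Prod.fst) hA contDiffAt_fst
    · exact contDiffAt_snd.sub contDiffAt_const
  exact ContDiffAt.comp (0, t'') (g := α) (f := fun p : ℝ × ℝ => (U p.1 t', p.2 - t')) hαat h2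

theorem smooth_family {F : E → E} (hF : ContDiff ℝ ∞ F) (hLB : LB F) {a b : ℝ}
    (hab : (0:ℝ) ∈ Ioo a b) (U : ℝ → ℝ → E)
    (hU : ∀ s, |s| < 1 → ∀ t ∈ Ioo a b, HasDerivAt (U s) (F (U s t)) t)
    (h0 : ContDiffAt ℝ ∞ (fun s => U s 0) 0) :
    ∀ t₁ ∈ Ioo a b, ContDiffAt ℝ ∞ (fun p : ℝ × ℝ => U p.1 p.2) (0, t₁) := by
  intro t₁ ht₁
  rw [contDiffAt_infty]
  intro n
  suffices h : ∀ m : ℕ, m ≠ 0 → ContDiffAt ℝ m (fun p : ℝ × ℝ => U p.1 p.2) (0, t₁) by
    exact (h (n+1) (by omega)).of_le (by exact_mod_cast Nat.le_succ n)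
  intro n hn
  have hA : ∀ t t', t ∈ Ioo a b → t' ∈ Ioo a b → (ContDiffAt ℝ n (fun s => U s t) 0 →
      ContDiffAt ℝ n (fun s => U s t') 0) := by
    intro t t' ht ht'
    refine isPreconnected_Ioo.induction₂' (s := Ioo a b)
      (fun t t' => (ContDiffAt ℝ n (fun s => U s t) 0 → ContDiffAt ℝ n (fun s => U s t') 0))
      ?_ ?_ ht ht'
    · intro x hx
      obtain ⟨η, hη, h⟩ := smooth_family_key hF hLB U hU hn hx
      have hev : ∀ᶠ y in 𝓝[Ioo a b] x, |y - x| < η := by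
        apply mem_nhdsWithin_of_mem_nhds
        have hc : ContinuousAt (fun t : ℝ => |t - x|) x := by fun_prop
        exact hc.eventually (gt_mem_nhds (by simpa using hη))
      have hev2 : ∀ᶠ y in 𝓝[Ioo a b] x, y ∈ Ioo a b := self_mem_nhdsWithin
      filter_upwards [hev, hev2] with y hy hy2
      have hcd : ∀ z : ℝ, ContDiffAt ℝ n (fun p : ℝ × ℝ => U p.1 p.2) (0, z) →
          ContDiffAt ℝ n (fun s => U s z) 0 := by
        intro z hz
        exact ContDiffAt.comp (0:ℝ) (g := fun p : ℝ × ℝ => U p.1 p.2) (f := fun s => (s, z)) hz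
          (contDiffAt_id.prodMk contDiffAt_const)
      constructor
      · intro hA
        exact hcd y (h x hx (by simpa using hη) hA y hy2 hy)
      · intro hA
        exact hcd x (h y hy2 hy hA x hx (by simpa using hη))
    · intro x y z _ _ _ h1 h2 h3
      exact h2 (h1 h3)
  have h1 := hA 0 t₁ hab ht₁ (h0.of_le (by exact_mod_cast le_top))
  obtain ⟨η, hη, h⟩ := smooth_family_key hF hLB U hU hn ht₁
  exact h t₁ ht₁ (by simpa using hη) h1 t₁ ht₁ (by simpa using hη)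

end smoothfam

end Pool.Agent.H153R3
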