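import Mathlib
import Pool.Agent.H153R3.Field
import Pool.Agent.H153R3.Smooth

open Set Filter Topology MeasureTheory
open scoped BoundedContinuousFunction ContDiff

set_option maxHeartbeats 1000000

noncomputable section

namespace Pool.Agent.H153R3

/-- the cutoff -/
def chi (x : ℝ) : ℝ := expNegInvGlue (1/2 - x^2)
/-- initial vorticity -/
def om0 (x : ℝ) : ℝ := -(Real.sin (2*x) * chi x)
/-- initial density -/
def rho0 (x : ℝ) : ℝ := -(Real.cos x * chi x)

lemma contDiff_chi : ContDiff ℝ ∞ chi :=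
  expNegInvGlue.contDiff.comp (by fun_prop)

lemma chi_zero {x : ℝ} (hx : 1/2 ≤ x^2) : chi x = 0 :=
  expNegInvGlue.zero_of_nonpos (by linarith)

lemma chi_nonneg (x : ℝ) : 0 ≤ chi x := expNegInvGlue.nonneg _

lemma contDiff_om0 : ContDiff ℝ ∞ om0 :=
  ((Real.contDiff_sin.comp (by fun_prop)).mul contDiff_chi).neg

lemma contDiff_rho0 : ContDiff ℝ ∞ rho0 := (Real.contDiff_cos.mul contDiff_chi).neg

lemma compact_rho0 : HasCompactSupport rho0 := by
  refine HasCompactSupport.intro (K := Icc (-1) 1) isCompact_Icc fun x hx => ?_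
  have : 1/2 ≤ x^2 := by
    by_contra h
    push Not at h
    apply hx
    constructor <;> nlinarith
  simp [rho0, chi_zero this]

lemma compact_om0 : HasCompactSupport om0 := by
  refine HasCompactSupport.intro (K := Icc (-1) 1) isCompact_Icc fun x hx => ?_
  have : 1/2 ≤ x^2 := by
    by_contra h
    push Not at h
    apply hx
    constructor <;> nlinarith
  simp [om0, chi_zero this]

lemma hasDerivAt_rho0 (x : ℝ) : HasDerivAt rho0 (deriv rho0 x) x :=
  ((contDiff_infty_iff_deriv.1 contDiff_rho0).1 x).hasDerivAt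

/-- solutions of the Lagrangian system with the given data -/
structure IsSol (u : ℝ → St) (e T : ℝ) : Prop where
  he : 0 < e
  hT : 0 < T
  ode : ∀ t ∈ Ioo (-e) T, HasDerivAt u (F (u t)) t
  i0 : u 0 0 = cosV
  i1 : u 0 1 = sinV
  i2 : u 0 2 = 1
  i3 : ∀ x, u 0 3 x = om0 x
  i4 : ∀ x, u 0 4 x = rho0 x
  i5 : ∀ x, u 0 5 x = deriv rho0 x
  i6 : u 0 6 = 0

/-- scalar linear equations -/
lemma lin_exp {e T : ℝ} (he : 0 < e) (hT : 0 < T) {a : ℝ → ℝ} (ha : ContinuousOn a (Ioo (-e) T)) :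
    ∃ A : ℝ → ℝ, A 0 = 0 ∧ (∀ t ∈ Ioo (-e) T, HasDerivAt A (a t) t) ∧
      ∀ y : ℝ → ℝ, (∀ t ∈ Ioo (-e) T, HasDerivAt y (a t * y t) t) →
        ∀ t ∈ Ioo (-e) T, y t = y 0 * Real.exp (A t) := by
  have h0 : (0:ℝ) ∈ Ioo (-e) T := ⟨by linarith, hT⟩
  refine ⟨fun t => ∫ s in (0:ℝ)..t, a s, by simp, ?_, ?_⟩
  · intro t ht
    refine intervalIntegral.integral_hasDerivAt_right ?_ ?_ ?_
    · apply ContinuousOn.intervalIntegrable
      refine ha.mono fun s hs => ?_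
      exact (ordConnected_Ioo.uIcc_subset h0 ht) hs
    · exact ha.stronglyMeasurableAtFilter isOpen_Ioo t ht
    · exact ha.continuousAt (isOpen_Ioo.mem_nhds ht)
  · intro y hy t ht
    have hA : ∀ t ∈ Ioo (-e) T, HasDerivAt (fun t => ∫ s in (0:ℝ)..t, a s) (a t) t := by
      intro t ht
      refine intervalIntegral.integral_hasDerivAt_right ?_ ?_ ?_
      · apply ContinuousOn.intervalIntegrable
        refine ha.mono fun s hs => ?_
        exact (ordConnected_Ioo.uIcc_subset h0 ht) hs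
      · exact ha.stronglyMeasurableAtFilter isOpen_Ioo t ht
      · exact ha.continuousAt (isOpen_Ioo.mem_nhds ht)
    have h1 : ∀ s ∈ Ioo (-e) T, HasDerivWithinAt
        (fun t => y t * Real.exp (-∫ s in (0:ℝ)..t, a s)) 0 (Ioo (-e) T) s := by
      intro s hs
      have h2 := (hy s hs).mul ((hA s hs).neg.exp)
      have h3 : a s * y s * Real.exp (-∫ r in (0:ℝ)..s, a r) +
          y s * (Real.exp (-∫ r in (0:ℝ)..s, a r) * -a s) = 0 := by ring
      exact (h2.congr_deriv h3).hasDerivWithinAt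
    have h2 := (convex_Ioo (-e) T).norm_image_sub_le_of_norm_hasDerivWithin_le (C := 0) h1
      (by simp) h0 ht
    simp only [intervalIntegral.integral_same, neg_zero, Real.exp_zero, mul_one, zero_mul] at h2
    have h3 : y t * Real.exp (-∫ s in (0:ℝ)..t, a s) = y 0 := by
      have := norm_le_zero_iff.1 h2
      linarith
    rw [← h3, mul_assoc, ← Real.exp_add]
    simp

variable {u : ℝ → St} {e T : ℝ}

namespace IsSol

lemma dcomp (h : IsSol u e T) {t : ℝ} (ht : t ∈ Ioo (-e) T) (i : Fin 7) (x : ℝ) :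
    HasDerivAt (fun t => u t i x) (F (u t) i x) t := by
  have h1 : HasDerivAt (fun t => u t i) (F (u t) i) t := (hasDerivAt_pi.1 (h.ode t ht)) i
  exact (BoundedContinuousFunction.evalCLM ℝ x).hasFDerivAt.comp_hasDerivAt t h1

lemma d0 (h : IsSol u e T) {t : ℝ} (ht : t ∈ Ioo (-e) T) (x : ℝ) :
    HasDerivAt (fun t => u t 0 x) (-(u t 1 x * vel (u t) x)) t := h.dcomp ht 0 x
lemma d1 (h : IsSol u e T) {t : ℝ} (ht : t ∈ Ioo (-e) T) (x : ℝ) :
    HasDerivAt (fun t => u t 1 x) (u t 0 x * vel (u t) x) t := h.dcomp ht 1 x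
lemma d2 (h : IsSol u e T) {t : ℝ} (ht : t ∈ Ioo (-e) T) (x : ℝ) :
    HasDerivAt (fun t => u t 2 x) (2 * (str (u t) x * u t 2 x)) t := h.dcomp ht 2 x
lemma d3 (h : IsSol u e T) {t : ℝ} (ht : t ∈ Ioo (-e) T) (x : ℝ) :
    HasDerivAt (fun t => u t 3 x) (-(u t 4 x * u t 1 x + u t 5 x * u t 0 x)) t := h.dcomp ht 3 x
lemma d4 (h : IsSol u e T) {t : ℝ} (ht : t ∈ Ioo (-e) T) (x : ℝ) :
    HasDerivAt (fun t => u t 4 x) (str (u t) x * u t 4 x) t := h.dcomp ht 4 x
lemma d5 (h : IsSol u e T) {t : ℝ} (ht : t ∈ Ioo (-e) T) (x : ℝ) :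
    HasDerivAt (fun t => u t 5 x) (-(str (u t) x * u t 5 x)
      + (u t 3 x - 2 * vel (u t) x) * u t 4 x) t := h.dcomp ht 5 x
lemma d6 (h : IsSol u e T) {t : ℝ} (ht : t ∈ Ioo (-e) T) (x : ℝ) :
    HasDerivAt (fun t => u t 6 x) (vel (u t) x) t := h.dcomp ht 6 x

lemma cont_u (h : IsSol u e T) : ContinuousOn u (Ioo (-e) T) :=
  fun t ht => (h.ode t ht).continuousAt.continuousWithinAt

lemma cont_str (h : IsSol u e T) (x : ℝ) : ContinuousOn (fun t => str (u t) x) (Ioo (-e) T) := by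
  have h1 : ContinuousOn (fun t => str (u t)) (Ioo (-e) T) :=
    cd_str.continuous.comp_continuousOn h.cont_u
  exact (BoundedContinuousFunction.evalCLM ℝ x).continuous.comp_continuousOn h1

lemma cont_vel (h : IsSol u e T) (x : ℝ) : ContinuousOn (fun t => vel (u t) x) (Ioo (-e) T) := by
  have h1 : ContinuousOn (fun t => vel (u t)) (Ioo (-e) T) :=
    cd_vel.continuous.comp_continuousOn h.cont_u
  exact (BoundedContinuousFunction.evalCLM ℝ x).continuous.comp_continuousOn h1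

lemma zero_mem (h : IsSol u e T) : (0:ℝ) ∈ Ioo (-e) T := ⟨by linarith [h.he], h.hT⟩

lemma R_zero (h : IsSol u e T) {t : ℝ} (ht : t ∈ Ioo (-e) T) {x : ℝ} (hx : 1/2 ≤ x^2) :
    u t 4 x = 0 := by
  obtain ⟨A, _, _, hA⟩ := lin_exp h.he h.hT (h.cont_str x)
  rw [hA (fun t => u t 4 x) (fun s hs => h.d4 hs x) t ht]
  simp only [h.i4, rho0, chi_zero hx]; simp

lemma deriv_rho0_zero {x : ℝ} (hx : 1/2 ≤ x^2) : deriv rho0 x = 0 := by
  -- `rho0` vanishes on a one sided neighbourhood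
  have h1 := hasDerivAt_rho0 x
  have h2 : ∀ s : Set ℝ, UniqueDiffWithinAt ℝ s x → (∀ y ∈ s, 1/2 ≤ y^2) → x ∈ s →
      deriv rho0 x = 0 := by
    intro s hs hy hxs
    have h3 : HasDerivWithinAt rho0 0 s x := by
      refine (hasDerivWithinAt_const x s (0:ℝ)).congr_of_mem (fun y hy' => ?_) hxs
      simp [rho0, chi_zero (hy y hy')]
    exact hs.eq_deriv _ h1.hasDerivWithinAt h3
  rcases le_total 0 x with h0 | h0
  · refine h2 (Ici x) (uniqueDiffWithinAt_Ici x) (fun y hy => ?_) self_mem_Ici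
    have : x ≤ y := hy
    nlinarith
  · refine h2 (Iic x) (uniqueDiffWithinAt_Iic x) (fun y hy => ?_) self_mem_Iic
    have : y ≤ x := hy
    nlinarith

lemma G_zero (h : IsSol u e T) {t : ℝ} (ht : t ∈ Ioo (-e) T) {x : ℝ} (hx : 1/2 ≤ x^2) :
    u t 5 x = 0 := by
  obtain ⟨A, _, _, hA⟩ := lin_exp h.he h.hT (a := fun t => -str (u t) x) (h.cont_str x).neg
  rw [hA (fun t => u t 5 x) (fun s hs => ?_) t ht]
  · simp only [h.i5, deriv_rho0_zero hx]; simp
  · have := h.d5 hs x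
    rw [h.R_zero hs hx] at this
    convert this using 1
    ring

lemma W_zero (h : IsSol u e T) {t : ℝ} (ht : t ∈ Ioo (-e) T) {x : ℝ} (hx : 1/2 ≤ x^2) :
    u t 3 x = 0 := by
  obtain ⟨A, _, _, hA⟩ := lin_exp h.he h.hT (a := fun t => 0) continuousOn_const
  rw [hA (fun t => u t 3 x) (fun s hs => ?_) t ht]
  · simp only [h.i3, om0, chi_zero hx]; simp
  · have := h.d3 hs x
    rw [h.R_zero hs hx, h.G_zero hs hx] at this
    convert this using 1
    ring

lemma W_supp (h : IsSol u e T) {t : ℝ} (ht : t ∈ Ioo (-e) T) : ∀ x, 1 ≤ |x| → u t 3 x = 0 := by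
  intro x hx
  apply h.W_zero ht
  have : 1 ≤ x^2 := by rw [← sq_abs]; nlinarith
  linarith

/-- joint smoothness -/
theorem smooth_U (h : IsSol u e T) {t : ℝ} (ht : t ∈ Ioo (-e) T) :
    ContDiffAt ℝ ∞ (fun p : ℝ × ℝ => trS p.1 (u p.2)) (0, t) := by
  refine smooth_family cd_F LB_F (a := -e) (b := T) h.zero_mem (fun s t => trS s (u t)) ?_ ?_ t ht
  · intro s hs t ht
    have h1 := (trSL s).hasFDerivAt.comp_hasDerivAt t (h.ode t ht)
    rw [trS_F hs.le (h.W_supp ht)]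
    exact h1
  · rw [contDiffAt_pi]
    intro i
    have hb3 : (u 0 3 : ℝ → ℝ) = om0 := funext h.i3
    have hb4 : (u 0 4 : ℝ → ℝ) = rho0 := funext h.i4
    have hb5 : (u 0 5 : ℝ → ℝ) = deriv rho0 := funext h.i5
    fin_cases i
    · change ContDiffAt ℝ ∞ (fun s => tr (u 0 0) s) 0
      rw [h.i0]; exact contDiff_tr_cosV.contDiffAt
    · change ContDiffAt ℝ ∞ (fun s => tr (u 0 1) s) 0
      rw [h.i1]; exact contDiff_tr_sinV.contDiffAt
    · change ContDiffAt ℝ ∞ (fun s => tr (u 0 2) s) 0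
      rw [h.i2]
      have : (fun s => tr (1:V) s) = fun _ => (1:V) := by funext s; ext x; simp
      rw [this]; exact contDiffAt_const
    · refine (contDiff_tr_infty (f := u 0 3) ?_ ?_).contDiffAt
      · rw [hb3]; exact contDiff_om0
      · rw [hb3]; exact compact_om0
    · refine (contDiff_tr_infty (f := u 0 4) ?_ ?_).contDiffAt
      · rw [hb4]; exact contDiff_rho0
      · rw [hb4]; exact compact_rho0
    · refine (contDiff_tr_infty (f := u 0 5) ?_ ?_).contDiffAt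
      · rw [hb5]; exact (contDiff_infty_iff_deriv.1 contDiff_rho0).2
      · rw [hb5]; exact compact_rho0.deriv
    · change ContDiffAt ℝ ∞ (fun s => tr (u 0 6) s) 0
      rw [h.i6]
      have : (fun s => tr (0:V) s) = fun _ => (0:V) := by funext s; ext x; simp
      rw [this]; exact contDiffAt_const

/-- joint smoothness of smooth equivariant functionals -/
lemma smooth_fun (h : IsSol u e T) {t : ℝ} (ht : t ∈ Ioo (-e) T) (x : ℝ) (Φ : St → V)
    (hΦ : ContDiff ℝ ∞ Φ)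
    (hΦ' : ∀ s, |s| ≤ 1 → ∀ t ∈ Ioo (-e) T, Φ (trS s (u t)) = tr (Φ (u t)) s) :
    ContDiffAt ℝ ∞ (fun p : ℝ × ℝ => Φ (u p.2) p.1) (x, t) := by
  have h1 : ContDiffAt ℝ ∞ (fun p : ℝ × ℝ => Φ (trS p.1 (u p.2)) x) (0, t) := by
    have h2 : ContDiffAt ℝ ∞ (fun p : ℝ × ℝ => Φ (trS p.1 (u p.2))) (0, t) :=
      hΦ.contDiffAt.comp (0, t) (h.smooth_U ht)
    exact (BoundedContinuousFunction.evalCLM ℝ x).contDiff.contDiffAt.comp (0, t) h2
  have h2 : ContDiffAt ℝ ∞ (fun p : ℝ × ℝ => Φ (trS (p.1 - x) (u p.2)) x) (x, t) := by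
    refine ContDiffAt.comp (x, t) (g := fun p : ℝ × ℝ => Φ (trS p.1 (u p.2)) x)
      (f := fun p : ℝ × ℝ => (p.1 - x, p.2)) ?_ ?_
    · simpa using h1
    · exact (contDiffAt_fst.sub contDiffAt_const).prodMk contDiffAt_snd
  refine h2.congr_of_eventuallyEq ?_
  have hev1 : ∀ᶠ y : ℝ in 𝓝 x, |y - x| < 1 := by
    have hc : ContinuousAt (fun y : ℝ => |y - x|) x := by fun_prop
    exact hc.eventually (gt_mem_nhds (by simp))
  have hev2 : ∀ᶠ s in 𝓝 t, s ∈ Ioo (-e) T := Ioo_mem_nhds ht.1 ht.2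
  rw [nhds_prod_eq]
  filter_upwards [hev1.prod_mk hev2] with p hp
  rw [hΦ' _ hp.1.le _ hp.2]
  simp

lemma smooth_comp (h : IsSol u e T) {t : ℝ} (ht : t ∈ Ioo (-e) T) (x : ℝ) (i : Fin 7) :
    ContDiffAt ℝ ∞ (fun p : ℝ × ℝ => u p.2 i p.1) (x, t) :=
  h.smooth_fun ht x (fun u => u i) (cd_coord i) (fun _ _ _ _ => rfl)

lemma smooth_vel (h : IsSol u e T) {t : ℝ} (ht : t ∈ Ioo (-e) T) (x : ℝ) :
    ContDiffAt ℝ ∞ (fun p : ℝ × ℝ => vel (u p.2) p.1) (x, t) :=
  h.smooth_fun ht x vel cd_vel (fun _ hs _ ht => trS_vel hs (h.W_supp ht))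

lemma smooth_str (h : IsSol u e T) {t : ℝ} (ht : t ∈ Ioo (-e) T) (x : ℝ) :
    ContDiffAt ℝ ∞ (fun p : ℝ × ℝ => str (u p.2) p.1) (x, t) :=
  h.smooth_fun ht x str cd_str (fun _ hs _ ht => trS_str hs (h.W_supp ht))

end IsSol

end Pool.Agent.H153R3
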