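import Mathlib
import Pool.Agent.H153R3.Sol

open Set Filter Topology MeasureTheory
open scoped BoundedContinuousFunction ContDiff

set_option maxHeartbeats 1000000

noncomputable section

namespace Pool.Agent.H153R3

/-- exchange of partial derivatives -/
lemma mixed {f g : ℝ × ℝ → ℝ} {x t : ℝ} (hf : ContDiffAt ℝ ∞ f (x, t))
    (hg : ∀ᶠ p in 𝓝 (x, t), HasDerivAt (fun s => f (p.1, s)) (g p) p.2) :
    HasDerivAt (fun s => deriv (fun y => f (y, s)) x) (deriv (fun y => g (y, t)) x) t := by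
  have hf2 : ContDiffAt ℝ 2 f (x, t) := by exact_mod_cast contDiffAt_infty.1 hf 2
  have hD : ContDiffAt ℝ 1 (fderiv ℝ f) (x, t) := hf2.fderiv_right (by norm_num)
  have hDd : HasFDerivAt (fderiv ℝ f) (fderiv ℝ (fderiv ℝ f) (x, t)) (x, t) :=
    (hD.differentiableAt (by norm_num)).hasFDerivAt
  have hev : ∀ᶠ p in 𝓝 (x, t), DifferentiableAt ℝ f p := by
    have h1 : ContDiffAt ℝ 1 f (x, t) := hf.of_le (by exact_mod_cast le_top)
    exact (h1.eventually (by simp)).mono fun p hp => hp.differentiableAt (by norm_num)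
  have hx : ∀ p : ℝ × ℝ, DifferentiableAt ℝ f p →
      HasDerivAt (fun y => f (y, p.2)) (fderiv ℝ f p (1, 0)) p.1 := by
    intro p hp
    have h1 : HasDerivAt (fun y : ℝ => (y, p.2)) ((1:ℝ), (0:ℝ)) p.1 :=
      (hasDerivAt_id p.1).prodMk (hasDerivAt_const p.1 p.2)
    exact hp.hasFDerivAt.comp_hasDerivAt p.1 h1
  have ht : ∀ p : ℝ × ℝ, DifferentiableAt ℝ f p →
      HasDerivAt (fun s => f (p.1, s)) (fderiv ℝ f p (0, 1)) p.2 := by
    intro p hp
    have h1 : HasDerivAt (fun s : ℝ => (p.1, s)) ((0:ℝ), (1:ℝ)) p.2 :=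
      (hasDerivAt_const p.2 p.1).prodMk (hasDerivAt_id p.2)
    exact hp.hasFDerivAt.comp_hasDerivAt p.2 h1
  have hgD : ∀ᶠ p in 𝓝 (x, t), g p = fderiv ℝ f p (0, 1) := by
    filter_upwards [hg, hev] with p h1 h2
    exact h1.unique (ht p h2)
  have hct : ContinuousAt (fun s : ℝ => (x, s)) t := by fun_prop
  have hcx : ContinuousAt (fun y : ℝ => (y, t)) x := by fun_prop
  have e1 : (fun s => deriv (fun y => f (y, s)) x) =ᶠ[𝓝 t] fun s => fderiv ℝ f (x, s) (1, 0) := by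
    filter_upwards [hct.eventually hev] with s hs
    exact (hx (x, s) hs).deriv
  have e2 : (fun y => g (y, t)) =ᶠ[𝓝 x] fun y => fderiv ℝ f (y, t) (0, 1) :=
    hcx.eventually hgD
  have d1 : HasDerivAt (fun s : ℝ => (x, s)) ((0:ℝ), (1:ℝ)) t :=
    (hasDerivAt_const t x).prodMk (hasDerivAt_id t)
  have d2 : HasDerivAt (fun y : ℝ => (y, t)) ((1:ℝ), (0:ℝ)) x :=
    (hasDerivAt_id x).prodMk (hasDerivAt_const x t)
  have h1 : HasDerivAt (fun s => fderiv ℝ f (x, s) (1, 0))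
      (fderiv ℝ (fderiv ℝ f) (x, t) (0, 1) (1, 0)) t :=
    (hDd.comp_hasDerivAt t d1).clm_apply (hasDerivAt_const t ((1:ℝ),(0:ℝ))) |>.congr_deriv
      (by simp)
  have h2 : HasDerivAt (fun y => fderiv ℝ f (y, t) (0, 1))
      (fderiv ℝ (fderiv ℝ f) (x, t) (1, 0) (0, 1)) x :=
    (hDd.comp_hasDerivAt x d2).clm_apply (hasDerivAt_const x ((0:ℝ),(1:ℝ))) |>.congr_deriv
      (by simp)
  have hsymm : IsSymmSndFDerivAt ℝ f (x, t) := hf2.isSymmSndFDerivAt (by simp)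
  have h3 : deriv (fun y => g (y, t)) x = fderiv ℝ (fderiv ℝ f) (x, t) (0, 1) (1, 0) := by
    rw [e2.deriv_eq, h2.deriv]
    exact hsymm _ _
  rw [h3]
  exact h1.congr_of_eventuallyEq e1

lemma const_on {e T : ℝ} (he : 0 < e) (hT : 0 < T) {f : ℝ → ℝ}
    (hf : ∀ t ∈ Ioo (-e) T, HasDerivAt f 0 t) : ∀ t ∈ Ioo (-e) T, f t = f 0 := by
  obtain ⟨A, hA0, hA1, hA⟩ := lin_exp he hT (a := fun _ => 0) continuousOn_const
  intro t ht
  have h2 := (convex_Ioo (-e) T).norm_image_sub_le_of_norm_hasDerivWithin_le (C := 0)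
    (fun s hs => (hf s hs).hasDerivWithinAt) (by simp) (show (0:ℝ) ∈ Ioo (-e) T from
      ⟨by linarith, hT⟩) ht
  rw [zero_mul] at h2
  have := norm_le_zero_iff.1 h2
  linarith

variable {u : ℝ → St} {e T : ℝ}

namespace IsSol

lemma trig (h : IsSol u e T) {t : ℝ} (ht : t ∈ Ioo (-e) T) (x : ℝ) :
    u t 0 x = Real.cos (x + u t 6 x) ∧ u t 1 x = Real.sin (x + u t 6 x) := by
  have h1 : ∀ t ∈ Ioo (-e) T, HasDerivAt (fun t => (u t 0 x - Real.cos (x + u t 6 x))^2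
      + (u t 1 x - Real.sin (x + u t 6 x))^2) 0 t := by
    intro t ht
    have h0 := h.d0 ht x
    have h1 := h.d1 ht x
    have h6 := (h.d6 ht x).const_add x
    have h7 : HasDerivAt (fun t => (u t 0 x - Real.cos (x + u t 6 x))^2
      + (u t 1 x - Real.sin (x + u t 6 x))^2) _ t :=
      ((h0.sub h6.cos).pow 2).add ((h1.sub h6.sin).pow 2)
    refine h7.congr_deriv ?_
    simp only [Pi.sub_apply]
    push_cast
    ring
  have h2 := const_on h.he h.hT h1 t ht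
  have h3 : (u t 0 x - Real.cos (x + u t 6 x))^2 + (u t 1 x - Real.sin (x + u t 6 x))^2 = 0 := by
    rw [h2, h.i0, h.i1, h.i6]; simp
  constructor <;> nlinarith [sq_nonneg (u t 0 x - Real.cos (x + u t 6 x)),
    sq_nonneg (u t 1 x - Real.sin (x + u t 6 x))]

lemma cs_one (h : IsSol u e T) {t : ℝ} (ht : t ∈ Ioo (-e) T) (x : ℝ) :
    (u t 0 x)^2 + (u t 1 x)^2 = 1 := by
  obtain ⟨h1, h2⟩ := h.trig ht x
  rw [h1, h2]
  have := Real.sin_sq_add_cos_sq (x + u t 6 x)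
  linarith

lemma c2_eq (h : IsSol u e T) {t : ℝ} (ht : t ∈ Ioo (-e) T) (x : ℝ) :
    c2 (u t) x = Real.cos (2 * (x + u t 6 x)) := by
  obtain ⟨h1, h2⟩ := h.trig ht x
  have : c2 (u t) x = u t 0 x * u t 0 x - u t 1 x * u t 1 x := rfl
  rw [this, h1, h2, Real.cos_two_mul]
  have := Real.sin_sq_add_cos_sq (x + u t 6 x)
  nlinarith

lemma s2_eq (h : IsSol u e T) {t : ℝ} (ht : t ∈ Ioo (-e) T) (x : ℝ) :
    s2 (u t) x = Real.sin (2 * (x + u t 6 x)) := by
  obtain ⟨h1, h2⟩ := h.trig ht x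
  have : s2 (u t) x = 2 * (u t 0 x * u t 1 x) := rfl
  rw [this, h1, h2, Real.sin_two_mul]
  ring

lemma differentiable_comp (h : IsSol u e T) {t : ℝ} (ht : t ∈ Ioo (-e) T) (x : ℝ) (i : Fin 7) :
    DifferentiableAt ℝ (fun y => u t i y) x := by
  have h1 := (h.smooth_comp ht x i).differentiableAt (by simp)
  exact DifferentiableAt.comp x (f := fun y : ℝ => (y, t)) (g := fun p : ℝ × ℝ => u p.2 i p.1) h1
    (by fun_prop)

/-- the Jacobian before identification -/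
def Mx (u : ℝ → St) (x t : ℝ) : ℝ := 1 + deriv (fun y => u t 6 y) x

lemma hasDerivAt_X' (h : IsSol u e T) {t : ℝ} (ht : t ∈ Ioo (-e) T) (x : ℝ) :
    HasDerivAt (fun y => y + u t 6 y) (Mx u x t) x :=
  (hasDerivAt_id x).add (h.differentiable_comp ht x 6).hasDerivAt

lemma hasDerivAt_s2' (h : IsSol u e T) {t : ℝ} (ht : t ∈ Ioo (-e) T) (x : ℝ) :
    HasDerivAt (fun y => s2 (u t) y) (2 * c2 (u t) x * Mx u x t) x := by
  have h1 : (fun y => s2 (u t) y) = fun y => Real.sin (2 * (y + u t 6 y)) :=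
    funext fun y => h.s2_eq ht y
  rw [h1, h.c2_eq ht]
  have h2 := ((h.hasDerivAt_X' ht x).const_mul 2).sin
  convert h2 using 1; ring

lemma hasDerivAt_c2' (h : IsSol u e T) {t : ℝ} (ht : t ∈ Ioo (-e) T) (x : ℝ) :
    HasDerivAt (fun y => c2 (u t) y) (-(2 * s2 (u t) x * Mx u x t)) x := by
  have h1 : (fun y => c2 (u t) y) = fun y => Real.cos (2 * (y + u t 6 y)) :=
    funext fun y => h.c2_eq ht y
  rw [h1, h.s2_eq ht]
  have h2 := ((h.hasDerivAt_X' ht x).const_mul 2).cos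
  convert h2 using 1; ring

lemma hasDerivAt_Js {v : St} {x : ℝ} (hx : x ∈ Ioo (-2:ℝ) 2) :
    HasDerivAt (fun y => Js v y) (s2 v x * v 3 x * v 2 x) x :=
  hasDerivAt_J (s2 v * v 3 * v 2) hx

lemma hasDerivAt_Jc {v : St} {x : ℝ} (hx : x ∈ Ioo (-2:ℝ) 2) :
    HasDerivAt (fun y => Jc v y) (c2 v x * v 3 x * v 2 x) x :=
  hasDerivAt_J (c2 v * v 3 * v 2) hx

lemma vel_apply (v : St) (x : ℝ) : vel v x = s2 v x * Jc v x - c2 v x * Js v x := rfl
lemma str_apply (v : St) (x : ℝ) : str v x = s2 v x * Js v x + c2 v x * Jc v x := rfl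

lemma hasDerivAt_vel' (h : IsSol u e T) {t : ℝ} (ht : t ∈ Ioo (-e) T) {x : ℝ}
    (hx : x ∈ Ioo (-2:ℝ) 2) :
    HasDerivAt (fun y => vel (u t) y) (2 * str (u t) x * Mx u x t) x := by
  have h1 := ((h.hasDerivAt_s2' ht x).mul (hasDerivAt_Jc (v := u t) hx)).sub
    ((h.hasDerivAt_c2' ht x).mul (hasDerivAt_Js (v := u t) hx))
  refine h1.congr_deriv ?_
  rw [str_apply]; ring

lemma M_eq (h : IsSol u e T) {t : ℝ} (ht : t ∈ Ioo (-e) T) {x : ℝ}
    (hx : x ∈ Ioo (-2:ℝ) 2) : Mx u x t = u t 2 x := by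
  obtain ⟨A, _, _, hA⟩ := lin_exp h.he h.hT (a := fun t => 2 * str (u t) x)
    (continuousOn_const.mul (h.cont_str x))
  have h1 := hA (fun t => Mx u x t - u t 2 x) (fun s hs => ?_) t ht
  · have h2 : Mx u x 0 - u 0 2 x = 0 := by
      unfold Mx
      rw [h.i2, h.i6]
      simp
    rw [h2, zero_mul] at h1
    linarith
  · have h3 : HasDerivAt (fun s => Mx u x s) (2 * str (u s) x * Mx u x s) s := by
      have h4 := mixed (f := fun p : ℝ × ℝ => u p.2 6 p.1) (g := fun p => vel (u p.2) p.1)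
        (h.smooth_comp hs x 6) (by
          have : ∀ᶠ p : ℝ × ℝ in 𝓝 (x, s), p.2 ∈ Ioo (-e) T :=
            continuous_snd.continuousAt.eventually (Ioo_mem_nhds hs.1 hs.2)
          filter_upwards [this] with p hp
          exact h.d6 hp p.1)
      rw [(h.hasDerivAt_vel' hs hx).deriv] at h4
      exact h4.const_add 1
    refine (h3.sub (h.d2 hs x)).congr_deriv ?_
    ring

lemma hasDerivAt_X (h : IsSol u e T) {t : ℝ} (ht : t ∈ Ioo (-e) T) {x : ℝ}
    (hx : x ∈ Ioo (-2:ℝ) 2) : HasDerivAt (fun y => y + u t 6 y) (u t 2 x) x := by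
  rw [← h.M_eq ht hx]; exact h.hasDerivAt_X' ht x

lemma hasDerivAt_s2 (h : IsSol u e T) {t : ℝ} (ht : t ∈ Ioo (-e) T) {x : ℝ}
    (hx : x ∈ Ioo (-2:ℝ) 2) :
    HasDerivAt (fun y => s2 (u t) y) (2 * c2 (u t) x * u t 2 x) x := by
  rw [← h.M_eq ht hx]; exact h.hasDerivAt_s2' ht x

lemma hasDerivAt_c2 (h : IsSol u e T) {t : ℝ} (ht : t ∈ Ioo (-e) T) {x : ℝ}
    (hx : x ∈ Ioo (-2:ℝ) 2) :
    HasDerivAt (fun y => c2 (u t) y) (-(2 * s2 (u t) x * u t 2 x)) x := by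
  rw [← h.M_eq ht hx]; exact h.hasDerivAt_c2' ht x

lemma hasDerivAt_vel (h : IsSol u e T) {t : ℝ} (ht : t ∈ Ioo (-e) T) {x : ℝ}
    (hx : x ∈ Ioo (-2:ℝ) 2) :
    HasDerivAt (fun y => vel (u t) y) (2 * str (u t) x * u t 2 x) x := by
  rw [← h.M_eq ht hx]; exact h.hasDerivAt_vel' ht hx

lemma sc_one (h : IsSol u e T) {t : ℝ} (ht : t ∈ Ioo (-e) T) (x : ℝ) :
    (c2 (u t) x)^2 + (s2 (u t) x)^2 = 1 := by
  rw [h.c2_eq ht, h.s2_eq ht]
  have := Real.sin_sq_add_cos_sq (2 * (x + u t 6 x))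
  linarith

lemma hasDerivAt_str (h : IsSol u e T) {t : ℝ} (ht : t ∈ Ioo (-e) T) {x : ℝ}
    (hx : x ∈ Ioo (-2:ℝ) 2) :
    HasDerivAt (fun y => str (u t) y) ((u t 3 x - 2 * vel (u t) x) * u t 2 x) x := by
  have h1 := ((h.hasDerivAt_s2 ht hx).mul (hasDerivAt_Js (v := u t) hx)).add
    ((h.hasDerivAt_c2 ht hx).mul (hasDerivAt_Jc (v := u t) hx))
  refine h1.congr_deriv ?_
  rw [vel_apply]
  have h2 := h.sc_one ht x
  linear_combination (u t 3 x * u t 2 x) * h2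

lemma hasDerivAt_R (h : IsSol u e T) {t : ℝ} (ht : t ∈ Ioo (-e) T) {x : ℝ}
    (hx : x ∈ Ioo (-2:ℝ) 2) :
    HasDerivAt (fun y => u t 4 y) (u t 5 x * u t 2 x) x := by
  obtain ⟨A, _, _, hA⟩ := lin_exp h.he h.hT (a := fun t => str (u t) x) (h.cont_str x)
  have h1 := hA (fun t => deriv (fun y => u t 4 y) x - u t 5 x * u t 2 x) (fun s hs => ?_) t ht
  · have h2 : deriv (fun y => u 0 4 y) x - u 0 5 x * u 0 2 x = 0 := by
      rw [h.i2, h.i5]
      have : (fun y => u 0 4 y) = rho0 := funext h.i4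
      rw [this]
      simp
    rw [h2, zero_mul] at h1
    have h3 : deriv (fun y => u t 4 y) x = u t 5 x * u t 2 x := by linarith
    rw [← h3]
    exact (h.differentiable_comp ht x 4).hasDerivAt
  · have h3 : HasDerivAt (fun s => deriv (fun y => u s 4 y) x)
        ((u s 3 x - 2 * vel (u s) x) * u s 2 x * u s 4 x
          + str (u s) x * deriv (fun y => u s 4 y) x) s := by
      have h4 := mixed (f := fun p : ℝ × ℝ => u p.2 4 p.1)
        (g := fun p => str (u p.2) p.1 * u p.2 4 p.1)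
        (h.smooth_comp hs x 4) (by
          have : ∀ᶠ p : ℝ × ℝ in 𝓝 (x, s), p.2 ∈ Ioo (-e) T :=
            continuous_snd.continuousAt.eventually (Ioo_mem_nhds hs.1 hs.2)
          filter_upwards [this] with p hp
          exact h.d4 hp p.1)
      have h5 := ((h.hasDerivAt_str hs hx).mul (h.differentiable_comp hs x 4).hasDerivAt).deriv
      refine h4.congr_deriv ?_
      exact h5
    refine (h3.sub ((h.d5 hs x).mul (h.d2 hs x))).congr_deriv ?_
    ring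

end IsSol

end Pool.Agent.H153R3
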