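import Mathlib
import Pool.Agent.H153R3.Geo

open Set Filter Topology MeasureTheory
open scoped BoundedContinuousFunction ContDiff

set_option maxHeartbeats 1000000

noncomputable section

namespace Pool.Agent.H153R3

/-- the corner half angle -/
def aa : ℝ := Real.pi / 4

lemma aa_lo : 3/4 < aa := by
  unfold aa; linarith [Real.pi_gt_three]
lemma aa_hi : aa < 4/5 := by
  unfold aa; linarith [Real.pi_lt_d2]
lemma aa_sq : 1/2 ≤ aa^2 := by nlinarith [aa_lo]
lemma aa_mem : aa ∈ Ioo (-2:ℝ) 2 := ⟨by linarith [aa_lo], by linarith [aa_hi]⟩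

variable {u : ℝ → St} {e T : ℝ}

namespace IsSol

lemma chi_neg (x : ℝ) : chi (-x) = chi x := by simp [chi]
lemma om0_neg (x : ℝ) : om0 (-x) = -om0 x := by
  simp only [om0, chi_neg]
  rw [show 2 * -x = -(2*x) by ring, Real.sin_neg]; ring
lemma rho0_neg (x : ℝ) : rho0 (-x) = rho0 x := by
  simp only [rho0, chi_neg, Real.cos_neg]
lemma deriv_rho0_neg (x : ℝ) : deriv rho0 (-x) = -deriv rho0 x := by
  have h1 : deriv (fun y => rho0 (-y)) x = -deriv rho0 (-x) := deriv_comp_neg rho0 x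
  have h2 : (fun y => rho0 (-y)) = rho0 := funext rho0_neg
  rw [h2] at h1
  linarith

lemma refl_eq (h : IsSol u e T) {t : ℝ} (ht : t ∈ Ioo (-e) T) : rfS (u t) = u t := by
  refine LB_F.unique (t₀ := 0) (a := -e) (b := T) (u := fun t => rfS (u t)) (v := u) h.zero_mem
    (fun s hs => ?_) h.ode ?_ ht
  · have := rfS.hasFDerivAt.comp_hasDerivAt s (h.ode s hs)
    rw [rfS_F]
    exact this
  · funext i
    fin_cases i
    · change rf (u 0 0) = u 0 0
      rw [h.i0]; ext x; simp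
    · change -rf (u 0 1) = u 0 1
      rw [h.i1]; ext x; simp
    · change rf (u 0 2) = u 0 2
      rw [h.i2]; ext x; simp
    · change -rf (u 0 3) = u 0 3
      ext x
      simp [h.i3, om0_neg]
    · change rf (u 0 4) = u 0 4
      ext x
      simp [h.i4, rho0_neg]
    · change -rf (u 0 5) = u 0 5
      ext x
      simp [h.i5, deriv_rho0_neg]
    · change -rf (u 0 6) = u 0 6
      rw [h.i6]; ext x; simp

lemma even0 (h : IsSol u e T) {t : ℝ} (ht : t ∈ Ioo (-e) T) (x : ℝ) : u t 0 (-x) = u t 0 x := by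
  have h1 := congrFun (h.refl_eq ht) 0
  exact DFunLike.congr_fun (F := V) h1 x
lemma odd1 (h : IsSol u e T) {t : ℝ} (ht : t ∈ Ioo (-e) T) (x : ℝ) : u t 1 (-x) = -u t 1 x := by
  have h1 := congrFun (h.refl_eq ht) 1
  have h2 := DFunLike.congr_fun (F := V) h1 x
  have h3 : -(u t 1 (-x)) = u t 1 x := h2
  linarith
lemma even2 (h : IsSol u e T) {t : ℝ} (ht : t ∈ Ioo (-e) T) (x : ℝ) : u t 2 (-x) = u t 2 x := by
  have h1 := congrFun (h.refl_eq ht) 2
  exact DFunLike.congr_fun (F := V) h1 x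
lemma odd3 (h : IsSol u e T) {t : ℝ} (ht : t ∈ Ioo (-e) T) (x : ℝ) : u t 3 (-x) = -u t 3 x := by
  have h1 := congrFun (h.refl_eq ht) 3
  have h2 := DFunLike.congr_fun (F := V) h1 x
  have h3 : -(u t 3 (-x)) = u t 3 x := h2
  linarith
lemma even4 (h : IsSol u e T) {t : ℝ} (ht : t ∈ Ioo (-e) T) (x : ℝ) : u t 4 (-x) = u t 4 x := by
  have h1 := congrFun (h.refl_eq ht) 4
  exact DFunLike.congr_fun (F := V) h1 x
lemma odd5 (h : IsSol u e T) {t : ℝ} (ht : t ∈ Ioo (-e) T) (x : ℝ) : u t 5 (-x) = -u t 5 x := by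
  have h1 := congrFun (h.refl_eq ht) 5
  have h2 := DFunLike.congr_fun (F := V) h1 x
  have h3 : -(u t 5 (-x)) = u t 5 x := h2
  linarith
lemma odd6 (h : IsSol u e T) {t : ℝ} (ht : t ∈ Ioo (-e) T) (x : ℝ) : u t 6 (-x) = -u t 6 x := by
  have h1 := congrFun (h.refl_eq ht) 6
  have h2 := DFunLike.congr_fun (F := V) h1 x
  have h3 : -(u t 6 (-x)) = u t 6 x := h2
  linarith

lemma c2_neg (h : IsSol u e T) {t : ℝ} (ht : t ∈ Ioo (-e) T) (x : ℝ) :
    c2 (u t) (-x) = c2 (u t) x := by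
  change u t 0 (-x) * u t 0 (-x) - u t 1 (-x) * u t 1 (-x) = u t 0 x * u t 0 x - u t 1 x * u t 1 x
  rw [h.even0 ht, h.odd1 ht]; ring

lemma s2_neg (h : IsSol u e T) {t : ℝ} (ht : t ∈ Ioo (-e) T) (x : ℝ) :
    s2 (u t) (-x) = -s2 (u t) x := by
  change 2 * (u t 0 (-x) * u t 1 (-x)) = -(2 * (u t 0 x * u t 1 x))
  rw [h.even0 ht, h.odd1 ht]; ring

lemma vel_neg (h : IsSol u e T) {t : ℝ} (ht : t ∈ Ioo (-e) T) (x : ℝ) :
    vel (u t) (-x) = -vel (u t) x := by
  have h1 : vel (rfS (u t)) = -rf (vel (u t)) := rfS_vel (u t)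
  rw [h.refl_eq ht] at h1
  have h2 := DFunLike.congr_fun (F := V) h1 x
  have h3 : vel (u t) x = -(vel (u t) (-x)) := h2
  linarith

/-- the displacement vanishes at the origin -/
lemma X_zero (h : IsSol u e T) {t : ℝ} (ht : t ∈ Ioo (-e) T) : u t 6 0 = 0 := by
  have := h.odd6 ht 0
  simp only [neg_zero] at this
  linarith

lemma int_odd {f : ℝ → ℝ} (hf : ∀ x, f (-x) = -f x) (a : ℝ) : ∫ y in (-a)..a, f y = 0 := by
  have h1 := intervalIntegral.integral_comp_neg (a := -a) (b := a) f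
  simp only [neg_neg] at h1
  have h2 : ∫ y in (-a)..a, f (-y) = ∫ y in (-a)..a, -f y := by
    congr 1; funext y; exact hf y
  rw [h2, intervalIntegral.integral_neg] at h1
  linarith

lemma Jc_of_large (h : IsSol u e T) {t : ℝ} (ht : t ∈ Ioo (-e) T) {x : ℝ} (hx0 : 0 ≤ x)
    (hx2 : x ≤ 2) (hx : 1/2 ≤ x^2) : Jc (u t) x = 0 := by
  have h1 : Jc (u t) x = jf (fun y => c2 (u t) y * u t 3 y * u t 2 y) x := rfl
  have hcont : Continuous (fun y => c2 (u t) y * u t 3 y * u t 2 y) :=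
    ((c2 (u t)).continuous.mul (u t 3).continuous).mul (u t 2).continuous
  rw [h1]
  unfold jf
  rw [cl_of_mem ⟨by linarith, hx2⟩]
  have h2 : ∫ y in x..(2:ℝ), c2 (u t) y * u t 3 y * u t 2 y = 0 := by
    have : ∫ y in x..(2:ℝ), c2 (u t) y * u t 3 y * u t 2 y = ∫ y in x..(2:ℝ), (0:ℝ) := by
      apply intervalIntegral.integral_congr
      intro y hy
      rw [uIcc_of_le hx2] at hy
      simp only
      rw [h.W_zero ht (by nlinarith [hy.1] : 1/2 ≤ y^2)]
      ring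
    rw [this]; simp
  have h3 : ∫ y in (-2:ℝ)..2, c2 (u t) y * u t 3 y * u t 2 y = 0 := by
    refine int_odd (f := fun y => c2 (u t) y * u t 3 y * u t 2 y) ?_ 2
    intro y
    rw [h.c2_neg ht, h.odd3 ht, h.even2 ht]; ring
  have h4 := intervalIntegral.integral_add_adjacent_intervals
    (hcont.intervalIntegrable (μ := volume) (-2:ℝ) x) (hcont.intervalIntegrable (μ := volume) x 2)
  rw [h2, add_zero, h3] at h4
  rw [h4, h2]; ring

lemma c2_aa (h : IsSol u e T) {t : ℝ} (ht : t ∈ Ioo (-e) T) : c2 (u t) aa = 0 := by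
  have hJs : ContinuousOn (fun t => Js (u t) aa) (Ioo (-e) T) := by
    have h1 : ContinuousOn (fun t => Js (u t)) (Ioo (-e) T) :=
      cd_Js.continuous.comp_continuousOn h.cont_u
    exact (BoundedContinuousFunction.evalCLM ℝ aa).continuous.comp_continuousOn h1
  have hs2 : ContinuousOn (fun t => s2 (u t) aa) (Ioo (-e) T) := by
    have h1 : ContinuousOn (fun t => s2 (u t)) (Ioo (-e) T) :=
      cd_s2.continuous.comp_continuousOn h.cont_u
    exact (BoundedContinuousFunction.evalCLM ℝ aa).continuous.comp_continuousOn h1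
  obtain ⟨A, _, _, hA⟩ := lin_exp h.he h.hT (a := fun t => 2 * s2 (u t) aa * Js (u t) aa)
    ((continuousOn_const.mul hs2).mul hJs)
  have h1 := hA (fun t => u t 0 aa * u t 0 aa - u t 1 aa * u t 1 aa) (fun s hs => ?_) t ht
  · have h2 : u 0 0 aa * u 0 0 aa - u 0 1 aa * u 0 1 aa = 0 := by
      rw [h.i0, h.i1]
      simp only [cosV_apply, sinV_apply, aa, Real.cos_pi_div_four, Real.sin_pi_div_four]
      ring
    rw [h2, zero_mul] at h1
    exact h1
  · have h0 := h.d0 hs aa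
    have h1 := h.d1 hs aa
    refine ((h0.mul h0).sub (h1.mul h1)).congr_deriv ?_
    have h2 := vel_apply (u s) aa
    rw [h.Jc_of_large hs (by linarith [aa_lo]) (by linarith [aa_hi]) aa_sq] at h2
    rw [h2]
    have h3 : c2 (u s) aa = u s 0 aa * u s 0 aa - u s 1 aa * u s 1 aa := rfl
    have h4 : s2 (u s) aa = 2 * (u s 0 aa * u s 1 aa) := rfl
    rw [h3, h4]
    ring

lemma vel_aa (h : IsSol u e T) {t : ℝ} (ht : t ∈ Ioo (-e) T) : vel (u t) aa = 0 := by
  rw [vel_apply, h.Jc_of_large ht (by linarith [aa_lo]) (by linarith [aa_hi]) aa_sq, h.c2_aa ht]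
  ring

lemma Y_aa (h : IsSol u e T) {t : ℝ} (ht : t ∈ Ioo (-e) T) : u t 6 aa = 0 := by
  have h1 := const_on h.he h.hT (f := fun t => u t 6 aa) (fun s hs => by
    have := h.d6 hs aa
    rwa [h.vel_aa hs] at this) t ht
  rw [h1, h.i6]; rfl

lemma M_pos (h : IsSol u e T) {t : ℝ} (ht : t ∈ Ioo (-e) T) (x : ℝ) : 0 < u t 2 x := by
  obtain ⟨A, _, _, hA⟩ := lin_exp h.he h.hT (a := fun t => 2 * str (u t) x)
    (continuousOn_const.mul (h.cont_str x))
  have h1 := hA (fun t => u t 2 x) (fun s hs => (h.d2 hs x).congr_deriv (by ring)) t ht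
  rw [h1, h.i2]
  simp only [BoundedContinuousFunction.coe_one, Pi.one_apply, one_mul]
  exact Real.exp_pos _

lemma X_strictMono (h : IsSol u e T) {t : ℝ} (ht : t ∈ Ioo (-e) T) :
    StrictMonoOn (fun x => x + u t 6 x) (Ioo (-2:ℝ) 2) := by
  refine strictMonoOn_of_deriv_pos (convex_Ioo _ _) ?_ ?_
  · exact (continuous_id.add (u t 6).continuous).continuousOn
  · intro x hx
    rw [interior_Ioo] at hx
    rw [(h.hasDerivAt_X ht hx).deriv]
    exact h.M_pos ht x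

lemma X_mem (h : IsSol u e T) {t : ℝ} (ht : t ∈ Ioo (-e) T) {x : ℝ} (hx : x ∈ Icc 0 aa) :
    x + u t 6 x ∈ Icc 0 aa := by
  have hm := (h.X_strictMono ht).monotoneOn
  have hx2 : x ∈ Ioo (-2:ℝ) 2 := ⟨by linarith [hx.1], by linarith [hx.2, aa_hi]⟩
  have h0 : (0:ℝ) ∈ Ioo (-2:ℝ) 2 := by constructor <;> norm_num
  have h1 := hm h0 hx2 hx.1
  have h2 := hm hx2 aa_mem hx.2
  simp only [h.X_zero ht, h.Y_aa ht] at h1 h2
  exact ⟨by linarith, by linarith⟩

/-- the integral of the Jacobian -/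
lemma int_M (h : IsSol u e T) {t : ℝ} (ht : t ∈ Ioo (-e) T) :
    ∫ y in (-aa)..aa, u t 2 y = 2 * aa := by
  have h1 : ∀ y ∈ uIcc (-aa) aa, HasDerivAt (fun y => y + u t 6 y) (u t 2 y) y := by
    intro y hy
    rw [uIcc_of_le (by linarith [aa_lo])] at hy
    exact h.hasDerivAt_X ht ⟨by linarith [hy.1, aa_hi], by linarith [hy.2, aa_hi]⟩
  rw [intervalIntegral.integral_eq_sub_of_hasDerivAt h1
    ((u t 2).continuous.intervalIntegrable _ _)]
  rw [h.odd6 ht, h.Y_aa ht]; ring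

lemma int_abs_le (h : IsSol u e T) {t : ℝ} (ht : t ∈ Ioo (-e) T) {B : ℝ}
    (hB : ∀ x, |u t 3 x| ≤ B) (k : V) (hk : ∀ x, |k x| ≤ 1) :
    (1/2) * ∫ y in (-2:ℝ)..2, |(k * u t 3 * u t 2) y| ≤ aa * B := by
  have hcont : Continuous (fun y => |(k * u t 3 * u t 2) y|) := (k * u t 3 * u t 2).continuous.abs
  have hz : ∀ y, 1/2 ≤ y^2 → |(k * u t 3 * u t 2) y| = 0 := by
    intro y hy
    simp [h.W_zero ht hy]
  have h1 := intervalIntegral.integral_add_adjacent_intervals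
    (hcont.intervalIntegrable (μ := volume) (-2:ℝ) (-aa))
    (hcont.intervalIntegrable (μ := volume) (-aa) aa)
  have h2 := intervalIntegral.integral_add_adjacent_intervals
    (hcont.intervalIntegrable (μ := volume) (-2:ℝ) aa)
    (hcont.intervalIntegrable (μ := volume) aa 2)
  have h3 : ∫ y in (-2:ℝ)..(-aa), |(k * u t 3 * u t 2) y| = 0 := by
    have : ∫ y in (-2:ℝ)..(-aa), |(k * u t 3 * u t 2) y| = ∫ y in (-2:ℝ)..(-aa), (0:ℝ) := by
      apply intervalIntegral.integral_congr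
      intro y hy
      rw [uIcc_of_le (by linarith [aa_hi])] at hy
      exact hz y (by nlinarith [hy.2, aa_lo])
    rw [this]; simp
  have h4 : ∫ y in aa..(2:ℝ), |(k * u t 3 * u t 2) y| = 0 := by
    have : ∫ y in aa..(2:ℝ), |(k * u t 3 * u t 2) y| = ∫ y in aa..(2:ℝ), (0:ℝ) := by
      apply intervalIntegral.integral_congr
      intro y hy
      rw [uIcc_of_le (by linarith [aa_hi])] at hy
      exact hz y (by nlinarith [hy.1, aa_lo])
    rw [this]; simp
  have h5 : ∫ y in (-aa)..aa, |(k * u t 3 * u t 2) y| ≤ ∫ y in (-aa)..aa, B * u t 2 y := by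
    apply intervalIntegral.integral_mono_on (by linarith [aa_lo])
    · exact hcont.intervalIntegrable _ _
    · exact (continuous_const.mul (u t 2).continuous).intervalIntegrable _ _
    · intro y _
      simp only [BoundedContinuousFunction.coe_mul, Pi.mul_apply, abs_mul]
      rw [abs_of_pos (h.M_pos ht y)]
      have h6 : |k y| * |u t 3 y| ≤ 1 * B :=
        mul_le_mul (hk y) (hB y) (abs_nonneg _) (by norm_num)
      rw [one_mul] at h6
      exact mul_le_mul_of_nonneg_right h6 (h.M_pos ht y).le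
  rw [intervalIntegral.integral_const_mul, h.int_M ht] at h5
  linarith

lemma c2_abs (h : IsSol u e T) {t : ℝ} (ht : t ∈ Ioo (-e) T) (x : ℝ) : |c2 (u t) x| ≤ 1 := by
  rw [h.c2_eq ht]; exact Real.abs_cos_le_one _
lemma s2_abs (h : IsSol u e T) {t : ℝ} (ht : t ∈ Ioo (-e) T) (x : ℝ) : |s2 (u t) x| ≤ 1 := by
  rw [h.s2_eq ht]; exact Real.abs_sin_le_one _

lemma Js_le (h : IsSol u e T) {t : ℝ} (ht : t ∈ Ioo (-e) T) {B : ℝ} (hB0 : 0 ≤ B)
    (hB : ∀ x, |u t 3 x| ≤ B) (x : ℝ) : |Js (u t) x| ≤ B := by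
  refine (J_abs_le (s2 (u t) * u t 3 * u t 2) x).trans ?_
  refine (h.int_abs_le ht hB (s2 (u t)) (h.s2_abs ht)).trans ?_
  nlinarith [aa_hi]

lemma Jc_le (h : IsSol u e T) {t : ℝ} (ht : t ∈ Ioo (-e) T) {B : ℝ} (hB0 : 0 ≤ B)
    (hB : ∀ x, |u t 3 x| ≤ B) (x : ℝ) : |Jc (u t) x| ≤ B := by
  refine (J_abs_le (c2 (u t) * u t 3 * u t 2) x).trans ?_
  refine (h.int_abs_le ht hB (c2 (u t)) (h.c2_abs ht)).trans ?_
  nlinarith [aa_hi]

lemma vel_le (h : IsSol u e T) {t : ℝ} (ht : t ∈ Ioo (-e) T) {B : ℝ} (hB0 : 0 ≤ B)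
    (hB : ∀ x, |u t 3 x| ≤ B) (x : ℝ) : |vel (u t) x| ≤ 2 * B := by
  rw [vel_apply]
  refine (abs_sub _ _).trans ?_
  rw [abs_mul, abs_mul]
  have h1 := h.Js_le ht hB0 hB x
  have h2 := h.Jc_le ht hB0 hB x
  have h3 := h.s2_abs ht x
  have h4 := h.c2_abs ht x
  nlinarith [abs_nonneg (Js (u t) x), abs_nonneg (Jc (u t) x), abs_nonneg (s2 (u t) x),
    abs_nonneg (c2 (u t) x)]

lemma str_le (h : IsSol u e T) {t : ℝ} (ht : t ∈ Ioo (-e) T) {B : ℝ} (hB0 : 0 ≤ B)
    (hB : ∀ x, |u t 3 x| ≤ B) (x : ℝ) : |str (u t) x| ≤ 2 * B := by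
  rw [str_apply]
  refine (abs_add_le _ _).trans ?_
  rw [abs_mul, abs_mul]
  have h1 := h.Js_le ht hB0 hB x
  have h2 := h.Jc_le ht hB0 hB x
  have h3 := h.s2_abs ht x
  have h4 := h.c2_abs ht x
  nlinarith [abs_nonneg (Js (u t) x), abs_nonneg (Jc (u t) x), abs_nonneg (s2 (u t) x),
    abs_nonneg (c2 (u t) x)]

end IsSol

end Pool.Agent.H153R3
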