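import Mathlib
import Pool.Agent.H153R3.Par

open Set Filter Topology MeasureTheory
open scoped BoundedContinuousFunction ContDiff

set_option maxHeartbeats 1000000

noncomputable section

namespace Pool.Agent.H153R3

lemma mono_le {f f' : ℝ → ℝ} {a b : ℝ} (hab : a ≤ b)
    (hd : ∀ t ∈ Icc a b, HasDerivAt f (f' t) t) (h0 : ∀ t ∈ Icc a b, 0 ≤ f' t) : f a ≤ f b := by
  have h1 : MonotoneOn f (Icc a b) := by
    refine monotoneOn_of_deriv_nonneg (convex_Icc a b)
      (fun t ht => (hd t ht).continuousAt.continuousWithinAt) (fun t ht => ?_) (fun t ht => ?_)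
    · exact (hd t (interior_subset ht)).differentiableAt.differentiableWithinAt
    · rw [(hd t (interior_subset ht)).deriv]; exact h0 t (interior_subset ht)
  exact h1 (left_mem_Icc.2 hab) (right_mem_Icc.2 hab) hab

lemma chi_le_one (x : ℝ) : chi x ≤ 1 := by
  unfold chi expNegInvGlue
  split_ifs with h
  · norm_num
  · push Not at h
    rw [Real.exp_le_one_iff]
    have : 0 < (1/2 - x^2)⁻¹ := inv_pos.2 h
    linarith

lemma chi_anti {x y : ℝ} (hx : 0 ≤ x) (hxy : x ≤ y) : chi y ≤ chi x := by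
  apply expNegInvGlue.monotone
  nlinarith

lemma deriv_chi_nonpos {x : ℝ} (hx : 0 ≤ x) : deriv chi x ≤ 0 := by
  have hd : HasDerivAt chi (deriv chi x) x :=
    ((contDiff_infty_iff_deriv.1 contDiff_chi).1 x).hasDerivAt
  have h1 : Tendsto (slope chi x) (𝓝[>] x) (𝓝 (deriv chi x)) :=
    (hasDerivAt_iff_tendsto_slope.1 hd).mono_left (nhdsWithin_mono _ (fun y hy => ne_of_gt hy))
  refine le_of_tendsto h1 ?_
  filter_upwards [self_mem_nhdsWithin] with y hy
  have hy' : x < y := hy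
  rw [slope_def_field]
  apply div_nonpos_of_nonpos_of_nonneg
  · linarith [chi_anti hx hy'.le]
  · linarith

variable {u : ℝ → St} {e T : ℝ}

/-- the forcing of the vorticity -/
def nu (u : ℝ → St) (x t : ℝ) : ℝ := u t 4 x * u t 1 x + u t 5 x * u t 0 x
/-- the rescaled density -/
def sg (u : ℝ → St) (x t : ℝ) : ℝ := -(u t 4 x / u t 0 x)
/-- its growth rate -/
def U1 (u : ℝ → St) (x t : ℝ) : ℝ := str (u t) x + vel (u t) x * (u t 1 x / u t 0 x)

namespace IsSol

lemma Icc0_sub {x : ℝ} (hx : x ∈ Icc 0 aa) : x ∈ Ioo (-2:ℝ) 2 :=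
  ⟨by linarith [hx.1], by linarith [hx.2, aa_hi]⟩

lemma C_pos (h : IsSol u e T) {t : ℝ} (ht : t ∈ Ioo (-e) T) {x : ℝ} (hx : x ∈ Icc 0 aa) :
    0 < u t 0 x := by
  rw [(h.trig ht x).1]
  have h1 := h.X_mem ht hx
  apply Real.cos_pos_of_mem_Ioo
  constructor
  · linarith [h1.1, Real.pi_pos]
  · have : aa = Real.pi/4 := rfl
    linarith [h1.2, Real.pi_pos]

lemma S_nonneg (h : IsSol u e T) {t : ℝ} (ht : t ∈ Ioo (-e) T) {x : ℝ} (hx : x ∈ Icc 0 aa) :
    0 ≤ u t 1 x := by
  rw [(h.trig ht x).2]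
  have h1 := h.X_mem ht hx
  apply Real.sin_nonneg_of_nonneg_of_le_pi h1.1
  have : aa = Real.pi/4 := rfl
  linarith [h1.2, Real.pi_pos]

lemma S_le_C (h : IsSol u e T) {t : ℝ} (ht : t ∈ Ioo (-e) T) {x : ℝ} (hx : x ∈ Icc 0 aa) :
    u t 1 x ≤ u t 0 x := by
  rw [(h.trig ht x).2, (h.trig ht x).1]
  have h1 := h.X_mem ht hx
  have h2 : aa = Real.pi/4 := rfl
  rw [← Real.sin_pi_div_two_sub]
  apply Real.sin_le_sin_of_le_of_le_pi_div_two
  · linarith [h1.1, Real.pi_pos]
  · linarith [h1.1]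
  · linarith [h1.2]

lemma c2_def (v : St) (x : ℝ) : c2 v x = v 0 x * v 0 x - v 1 x * v 1 x := rfl
lemma s2_def (v : St) (x : ℝ) : s2 v x = 2 * (v 0 x * v 1 x) := rfl

lemma c2_nonneg (h : IsSol u e T) {t : ℝ} (ht : t ∈ Ioo (-e) T) {x : ℝ} (hx : x ∈ Icc 0 aa) :
    0 ≤ c2 (u t) x := by
  rw [c2_def]
  have := h.S_le_C ht hx
  have := h.S_nonneg ht hx
  nlinarith

lemma s2_nonneg (h : IsSol u e T) {t : ℝ} (ht : t ∈ Ioo (-e) T) {x : ℝ} (hx : x ∈ Icc 0 aa) :
    0 ≤ s2 (u t) x := by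
  rw [s2_def]
  have := h.C_pos ht hx
  have := h.S_nonneg ht hx
  positivity

lemma d_nu (h : IsSol u e T) {t : ℝ} (ht : t ∈ Ioo (-e) T) {x : ℝ} (hx : x ∈ Icc 0 aa) :
    HasDerivAt (fun t => nu u x t) (-(U1 u x t) * nu u x t
      + (-(Js (u t) x) + (u t 0 x)^2 * -(u t 3 x)) * sg u x t) t := by
  have h1 := ((h.d4 ht x).mul (h.d1 ht x)).add ((h.d5 ht x).mul (h.d0 ht x))
  refine h1.congr_deriv ?_
  have hC := h.C_pos ht hx
  have hcs := h.cs_one ht x
  have hJ : vel (u t) x * c2 (u t) x - str (u t) x * s2 (u t) x = - Js (u t) x := by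
    rw [vel_apply, str_apply]
    have := h.sc_one ht x
    linear_combination (-(Js (u t) x)) * this
  rw [c2_def, s2_def] at hJ
  unfold nu sg U1
  rw [← hJ]
  field_simp
  linear_combination (u t 0 x * (vel (u t) x * u t 4 x * 0)) * hcs

lemma d_sg (h : IsSol u e T) {t : ℝ} (ht : t ∈ Ioo (-e) T) {x : ℝ} (hx : x ∈ Icc 0 aa) :
    HasDerivAt (fun t => sg u x t) (U1 u x t * sg u x t) t := by
  have hC := h.C_pos ht hx
  have h1 := ((h.d4 ht x).div (h.d0 ht x) hC.ne').neg
  refine h1.congr_deriv ?_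
  unfold sg U1
  field_simp
  ring

lemma cont_U1 (h : IsSol u e T) {x : ℝ} (hx : x ∈ Icc 0 aa) :
    ContinuousOn (fun t => U1 u x t) (Ioo (-e) T) := by
  have h0 : ContinuousOn (fun t => u t 0 x) (Ioo (-e) T) :=
    fun t ht => (h.d0 ht x).continuousAt.continuousWithinAt
  have h1 : ContinuousOn (fun t => u t 1 x) (Ioo (-e) T) :=
    fun t ht => (h.d1 ht x).continuousAt.continuousWithinAt
  exact (h.cont_str x).add ((h.cont_vel x).mul (h1.div h0 fun t ht => (h.C_pos ht hx).ne'))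

lemma Js_zero (h : IsSol u e T) {t : ℝ} (ht : t ∈ Ioo (-e) T) : Js (u t) 0 = 0 := by
  have h1 : Js (rfS (u t)) = -rf (Js (u t)) := rfS_Js (u t)
  rw [h.refl_eq ht] at h1
  have h2 := DFunLike.congr_fun (F := V) h1 0
  have h3 : Js (u t) 0 = -(Js (u t) (-0)) := h2
  rw [neg_zero] at h3
  linarith

/-- clamp to the label interval -/
def cl0 (x : ℝ) : ℝ := max 0 (min x aa)

lemma cl0_mem (x : ℝ) : cl0 x ∈ Icc 0 aa :=
  ⟨le_max_left _ _, max_le (by linarith [aa_lo]) (min_le_right _ _)⟩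

lemma cl0_of_mem {x : ℝ} (hx : x ∈ Icc 0 aa) : cl0 x = x := by
  unfold cl0; rw [min_eq_left hx.2, max_eq_right hx.1]

/-- positive part on the label interval -/
def Np (f : V) : V := BoundedContinuousFunction.ofNormedAddCommGroup
  (fun x => max (f (cl0 x)) 0) (by
    have : Continuous cl0 := by unfold cl0; fun_prop
    exact (f.continuous.comp this).max continuous_const) ‖f‖ (by
    intro x
    rw [Real.norm_eq_abs, abs_of_nonneg (le_max_right _ _)]
    exact max_le ((le_abs_self _).trans (f.norm_coe_le_norm _)) (norm_nonneg _))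

lemma Np_apply (f : V) (x : ℝ) : Np f x = max (f (cl0 x)) 0 := rfl

lemma continuous_Np : Continuous Np := by
  refine LipschitzWith.continuous (K := 1) (LipschitzWith.of_dist_le_mul fun f g => ?_)
  rw [NNReal.coe_one, one_mul, dist_eq_norm, dist_eq_norm]
  refine (BoundedContinuousFunction.norm_le (norm_nonneg _)).2 fun x => ?_
  rw [BoundedContinuousFunction.sub_apply, Np_apply, Np_apply, Real.norm_eq_abs]
  refine (abs_max_sub_max_le_abs _ _ _).trans ?_
  exact (f - g).norm_coe_le_norm (cl0 x)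

lemma w0_nonpos {x : ℝ} (hx : x ∈ Icc 0 aa) : om0 x ≤ 0 := by
  unfold om0
  have h1 : 0 ≤ Real.sin (2*x) := by
    apply Real.sin_nonneg_of_nonneg_of_le_pi
    · linarith [hx.1]
    · have : aa = Real.pi/4 := rfl
      linarith [hx.2, Real.pi_pos]
  have := mul_nonneg h1 (chi_nonneg x)
  linarith

lemma nu0_nonneg (h : IsSol u e T) {x : ℝ} (hx : x ∈ Icc 0 aa) : 0 ≤ nu u x 0 := by
  have hd : HasDerivAt chi (deriv chi x) x :=
    ((contDiff_infty_iff_deriv.1 contDiff_chi).1 x).hasDerivAt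
  have h1 : deriv rho0 x = -(-Real.sin x * chi x + Real.cos x * deriv chi x) :=
    (((Real.hasDerivAt_cos x).mul hd).neg).deriv
  unfold nu
  rw [h.i0, h.i1, h.i4, h.i5, h1]
  simp only [rho0, cosV_apply, sinV_apply]
  have h2 := deriv_chi_nonpos hx.1
  have h3 : -(Real.cos x * chi x) * Real.sin x +
      -(-Real.sin x * chi x + Real.cos x * deriv chi x) * Real.cos x
      = (Real.cos x)^2 * (-deriv chi x) := by ring
  rw [h3]
  exact mul_nonneg (sq_nonneg _) (by linarith)

lemma sg0_eq (h : IsSol u e T) {x : ℝ} (hx : x ∈ Icc 0 aa) : sg u x 0 = chi x := by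
  have hC := h.C_pos h.zero_mem hx
  unfold sg
  rw [h.i0, cosV_apply] at hC
  rw [h.i0, h.i4, cosV_apply]
  unfold rho0
  field_simp

/-- the vorticity keeps its sign -/
theorem W_nonpos (h : IsSol u e T) {t : ℝ} (ht : t ∈ Ico 0 T) {x : ℝ} (hx : x ∈ Icc 0 aa) :
    u t 3 x ≤ 0 := by
  set T₁ := t with hT₁
  have hT₁0 : 0 ≤ T₁ := ht.1
  have hI : ∀ s ∈ Icc 0 T₁, s ∈ Ioo (-e) T := fun s hs =>
    ⟨by linarith [h.he, hs.1], lt_of_le_of_lt hs.2 ht.2⟩
  -- a bound for the rates
  have hcn : ContinuousOn (fun s => ‖str (u s)‖ + ‖vel (u s)‖) (Icc 0 T₁) := by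
    have h1 : ContinuousOn (fun t => str (u t)) (Icc 0 T₁) :=
      cd_str.continuous.comp_continuousOn (h.cont_u.mono hI)
    have h2 : ContinuousOn (fun t => vel (u t)) (Icc 0 T₁) :=
      cd_vel.continuous.comp_continuousOn (h.cont_u.mono hI)
    exact h1.norm.add h2.norm
  obtain ⟨K, hK⟩ := isCompact_Icc.exists_bound_of_continuousOn hcn
  have hK0 : 0 ≤ K := (norm_nonneg _).trans (hK 0 ⟨le_rfl, hT₁0⟩)
  have hU : ∀ s ∈ Icc 0 T₁, ∀ y ∈ Icc 0 aa, |U1 u y s| ≤ K := by
    intro s hs y hy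
    have h1 := (le_abs_self _).trans (hK s hs)
    have h2 : |u s 1 y / u s 0 y| ≤ 1 := by
      rw [abs_of_nonneg (div_nonneg (h.S_nonneg (hI s hs) hy) (h.C_pos (hI s hs) hy).le)]
      exact (div_le_one (h.C_pos (hI s hs) hy)).2 (h.S_le_C (hI s hs) hy)
    unfold U1
    refine (abs_add_le _ _).trans ?_
    rw [abs_mul]
    have h3 : |str (u s) y| ≤ ‖str (u s)‖ := (str (u s)).norm_coe_le_norm y
    have h4 : |vel (u s) y| ≤ ‖vel (u s)‖ := (vel (u s)).norm_coe_le_norm y
    have h5 : |vel (u s) y| * |u s 1 y / u s 0 y| ≤ ‖vel (u s)‖ * 1 :=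
      mul_le_mul h4 h2 (abs_nonneg _) (norm_nonneg _)
    linarith
  set κ : ℝ → ℝ := fun s => ‖Np (u s 3)‖ with hκ
  have hκc : ContinuousOn κ (Ioo (-e) T) := by
    have h1 : ContinuousOn (fun s => u s 3) (Ioo (-e) T) := fun s hs =>
      ((hasDerivAt_pi.1 (h.ode s hs)) 3).continuousAt.continuousWithinAt
    exact (continuous_Np.comp_continuousOn h1).norm
  have hκ0 : ∀ s, 0 ≤ κ s := fun s => norm_nonneg _
  have hκw : ∀ s, ∀ y ∈ Icc 0 aa, u s 3 y ≤ κ s := by
    intro s y hy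
    have h1 := (le_abs_self _).trans ((Np (u s 3)).norm_coe_le_norm y)
    rw [Np_apply, cl0_of_mem hy] at h1
    exact (le_max_left _ _).trans h1
  obtain ⟨g, hg0, hgd, -⟩ := lin_exp h.he h.hT hκc
  have hgmono : ∀ s ∈ Icc 0 T₁, 0 ≤ g s := by
    intro s hs
    rw [← hg0]
    exact mono_le hs.1 (fun r hr => hgd r (hI r ⟨hr.1, hr.2.trans hs.2⟩)) (fun r _ => hκ0 r)
  -- lower bound of J
  have hJ : ∀ s ∈ Icc 0 T₁, ∀ y ∈ Icc 0 aa, Js (u s) y ≤ κ s := by
    intro s hs y hy
    have hs' := hI s hs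
    have h1 := mono_le (f := fun y => κ s * (y + u s 6 y) - Js (u s) y)
      (f' := fun y => κ s * u s 2 y - s2 (u s) y * u s 3 y * u s 2 y) hy.1
      (fun r hr => ((h.hasDerivAt_X hs' (Icc0_sub ⟨hr.1, hr.2.trans hy.2⟩)).const_mul (κ s)).sub
        (hasDerivAt_Js (Icc0_sub ⟨hr.1, hr.2.trans hy.2⟩)))
      (fun r hr => by
        have hr' : r ∈ Icc 0 aa := ⟨hr.1, hr.2.trans hy.2⟩
        have e1 := hκw s r hr'
        have e2 := h.s2_nonneg hs' hr'
        have e3 := (abs_le.1 (h.s2_abs hs' r)).2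
        have e4 := h.M_pos hs' r
        have e5 : s2 (u s) r * u s 3 r ≤ κ s := by
          rcases le_total (u s 3 r) 0 with hn | hn
          · exact (mul_nonpos_of_nonneg_of_nonpos e2 hn).trans (hκ0 s)
          · nlinarith
        nlinarith)
    simp only [h.X_zero hs', h.Js_zero hs', add_zero, mul_zero, sub_zero] at h1
    have h2 := (h.X_mem hs' hy).2
    have h3 := (h.X_mem hs' hy).1
    have h4 : κ s * (y + u s 6 y) ≤ κ s * 1 :=
      mul_le_mul_of_nonneg_left (by linarith [aa_hi]) (hκ0 s)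
    linarith
  set C₁ := 2 * Real.exp (2 * K * T₁) with hC₁
  set C₂ := C₁ * Real.exp (K * T₁) with hC₂
  have hC₁0 : 0 ≤ C₁ := by positivity
  have hC₂0 : 0 ≤ C₂ := by positivity
  have hw : ∀ s ∈ Icc 0 T₁, ∀ y ∈ Icc 0 aa, u s 3 y ≤ C₂ * s * g s := by
    intro s hs y hy
    obtain ⟨A, hA0, hAd, hA⟩ := lin_exp h.he h.hT (h.cont_U1 hy)
    have hAb : ∀ r ∈ Icc 0 T₁, |A r| ≤ K * T₁ := by
      intro r hr
      have h1 := norm_image_sub_le_of_norm_deriv_le_segment' (f := A)
        (f' := fun t => U1 u y t) (a := 0) (b := r) (C := K)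
        (fun q hq => (hAd q (hI q ⟨hq.1, hq.2.trans hr.2⟩)).hasDerivWithinAt)
        (fun q hq => hU q ⟨hq.1, hq.2.le.trans hr.2⟩ y hy) r (right_mem_Icc.2 hr.1)
      rw [hA0, sub_zero, sub_zero, Real.norm_eq_abs] at h1
      exact h1.trans (mul_le_mul_of_nonneg_left hr.2 hK0)
    have hsg : ∀ r ∈ Icc 0 T₁, sg u y r = chi y * Real.exp (A r) := by
      intro r hr
      rw [hA (fun t => sg u y t) (fun q hq => h.d_sg hq hy) r (hI r hr), h.sg0_eq hy]
    -- forcing
    have hν : ∀ r ∈ Icc 0 T₁, -(C₂ * g r) ≤ nu u y r := by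
      intro r hr
      have h1 := mono_le (f := fun r => nu u y r * Real.exp (A r) + C₁ * g r)
        (f' := fun r => ((-(U1 u y r) * nu u y r
          + (-(Js (u r) y) + (u r 0 y)^2 * -(u r 3 y)) * sg u y r) * Real.exp (A r)
          + nu u y r * (Real.exp (A r) * U1 u y r)) + C₁ * κ r) hr.1
        (fun q hq => by
          have hq' := hI q ⟨hq.1, hq.2.trans hr.2⟩
          exact ((h.d_nu hq' hy).mul (hAd q hq').exp).add ((hgd q hq').const_mul C₁))
        (fun q hq => by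
          have hq2 : q ∈ Icc 0 T₁ := ⟨hq.1, hq.2.trans hr.2⟩
          have hq' := hI q hq2
          have e1 := hJ q hq2 y hy
          have e2 := hκw q y hy
          have e3 := h.cs_one hq' y
          have e4 : (u q 0 y)^2 * (u q 3 y) ≤ κ q := by
            have : 0 ≤ (u q 0 y)^2 := sq_nonneg _
            have : (u q 0 y)^2 ≤ 1 := by nlinarith [sq_nonneg (u q 1 y)]
            rcases le_total (u q 3 y) 0 with hn | hn
            · exact (mul_nonpos_of_nonneg_of_nonpos (sq_nonneg _) hn).trans (hκ0 q)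
            · nlinarith
          have e5 := hsg q hq2
          have e6 := (abs_le.1 (hAb q hq2)).2
          have e7 : sg u y q * Real.exp (A q) ≤ Real.exp (2 * K * T₁) := by
            rw [e5, mul_assoc, ← Real.exp_add]
            calc chi y * Real.exp (A q + A q) ≤ 1 * Real.exp (2 * K * T₁) :=
                  mul_le_mul (chi_le_one y) (Real.exp_le_exp.2 (by linarith))
                    (Real.exp_nonneg _) zero_le_one
              _ = _ := one_mul _
          have e8 : 0 ≤ sg u y q * Real.exp (A q) := by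
            rw [e5]; have := chi_nonneg y; positivity
          have e9 : (Js (u q) y + (u q 0 y)^2 * u q 3 y) * (sg u y q * Real.exp (A q)) ≤
              2 * κ q * Real.exp (2 * K * T₁) := by
            have e10 : (Js (u q) y + (u q 0 y)^2 * u q 3 y) * (sg u y q * Real.exp (A q)) ≤
              (2 * κ q) * (sg u y q * Real.exp (A q)) :=
              mul_le_mul_of_nonneg_right (by linarith) e8
            have e11 : (2 * κ q) * (sg u y q * Real.exp (A q)) ≤
              (2 * κ q) * Real.exp (2 * K * T₁) :=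
              mul_le_mul_of_nonneg_left e7 (by linarith [hκ0 q])
            linarith
          have e12 : ((-(U1 u y q) * nu u y q
            + (-(Js (u q) y) + (u q 0 y)^2 * -(u q 3 y)) * sg u y q) * Real.exp (A q)
            + nu u y q * (Real.exp (A q) * U1 u y q)) =
            -((Js (u q) y + (u q 0 y)^2 * u q 3 y) * (sg u y q * Real.exp (A q))) := by ring
          rw [e12, hC₁]
          linarith)
      simp only [hA0, hg0, Real.exp_zero, mul_one, mul_zero, add_zero] at h1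
      have h2 := h.nu0_nonneg hy
      have h3 : -(C₁ * g r) ≤ nu u y r * Real.exp (A r) := by linarith
      have h4 : Real.exp (A r) * Real.exp (-(A r)) = 1 := by
        rw [← Real.exp_add]; simp
      have h5 : Real.exp (-(A r)) ≤ Real.exp (K * T₁) :=
        Real.exp_le_exp.2 (by linarith [(abs_le.1 (hAb r hr)).1])
      have h6 : 0 < Real.exp (-(A r)) := Real.exp_pos _
      have h7 : -(C₁ * g r) * Real.exp (-(A r)) ≤ nu u y r := by
        have := mul_le_mul_of_nonneg_right h3 h6.le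
        rwa [mul_assoc (nu u y r), h4, mul_one] at this
      have h8 : 0 ≤ C₁ * g r := mul_nonneg hC₁0 (hgmono r hr)
      have h9 : (C₁ * g r) * Real.exp (-(A r)) ≤ (C₁ * g r) * Real.exp (K * T₁) :=
        mul_le_mul_of_nonneg_left h5 h8
      rw [hC₂]
      nlinarith
    have h1 := mono_le (f := fun r => -(u r 3 y) + C₂ * (r * g r))
      (f' := fun r => -(-(u r 4 y * u r 1 y + u r 5 y * u r 0 y)) + C₂ * (1 * g r + r * κ r)) hs.1
      (fun q hq => by
        have hq' := hI q ⟨hq.1, hq.2.trans hs.2⟩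
        exact (h.d3 hq' y).neg.add (((hasDerivAt_id q).mul (hgd q hq')).const_mul C₂))
      (fun q hq => by
        have hq2 : q ∈ Icc 0 T₁ := ⟨hq.1, hq.2.trans hs.2⟩
        have e1 := hν q hq2
        unfold nu at e1
        have e2 : 0 ≤ C₂ * (q * κ q) := mul_nonneg hC₂0 (mul_nonneg hq.1 (hκ0 q))
        linarith)
    simp only [zero_mul, mul_zero, add_zero, h.i3] at h1
    have h2 := w0_nonpos hy
    nlinarith
  set C₃ := C₂ * T₁ with hC₃
  have hC₃0 : 0 ≤ C₃ := by positivity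
  have hκg : ∀ s ∈ Icc 0 T₁, κ s ≤ C₃ * g s := by
    intro s hs
    have hg1 := hgmono s hs
    refine (BoundedContinuousFunction.norm_le (by positivity)).2 fun y => ?_
    rw [Np_apply, Real.norm_eq_abs, abs_of_nonneg (le_max_right _ _)]
    refine max_le ?_ (by positivity)
    refine (hw s hs (cl0 y) (cl0_mem y)).trans ?_
    rw [hC₃]
    exact mul_le_mul_of_nonneg_right (mul_le_mul_of_nonneg_left hs.2 hC₂0) hg1
  have hT₁m : T₁ ∈ Icc 0 T₁ := ⟨hT₁0, le_rfl⟩
  have h1 := mono_le (f := fun s => -(g s * Real.exp (-(C₃ * s))))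
    (f' := fun s => -(κ s * Real.exp (-(C₃ * s)) + g s * (Real.exp (-(C₃ * s)) * -(C₃ * 1)))) hT₁0
    (fun q hq => by
      have hq' := hI q hq
      exact ((hgd q hq').mul (((hasDerivAt_id q).const_mul C₃).neg.exp)).neg)
    (fun q hq => by
      have e1 := hκg q hq
      have e2 : 0 < Real.exp (-(C₃ * q)) := Real.exp_pos _
      nlinarith)
  simp only [hg0, zero_mul, neg_zero] at h1
  have h2 : g T₁ ≤ 0 := by
    have e2 : 0 < Real.exp (-(C₃ * T₁)) := Real.exp_pos _
    by_contra hc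
    push Not at hc
    have := mul_pos hc e2
    linarith
  have h3 := hκg T₁ hT₁m
  have h4 := hκw T₁ x hx
  have h5 : C₃ * g T₁ ≤ 0 := mul_nonpos_of_nonneg_of_nonpos hC₃0 h2
  linarith

end IsSol

end Pool.Agent.H153R3
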