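import Mathlib
import Pool.Agent.H153R3.Pos

open Set Filter Topology MeasureTheory
open scoped BoundedContinuousFunction ContDiff

set_option maxHeartbeats 1000000

noncomputable section

namespace Pool.Agent.H153R3

variable {u : ℝ → St} {e T : ℝ}

/-- strain at the origin -/
def qq (u : ℝ → St) (t : ℝ) : ℝ := Jc (u t) 0
/-- minus the density at the origin -/
def PP (u : ℝ → St) (t : ℝ) : ℝ := sg u 0 t

namespace IsSol

lemma I0 (h : IsSol u e T) {t : ℝ} (ht : t ∈ Ico 0 T) : t ∈ Ioo (-e) T :=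
  ⟨by linarith [h.he, ht.1], ht.2⟩

lemma zero_mem_aa : (0:ℝ) ∈ Icc 0 aa := ⟨le_rfl, by linarith [aa_lo]⟩

lemma Js_nonpos (h : IsSol u e T) {t : ℝ} (ht : t ∈ Ico 0 T) {x : ℝ} (hx : x ∈ Icc 0 aa) :
    Js (u t) x ≤ 0 := by
  have ht' := h.I0 ht
  have h1 := mono_le (f := fun y => -Js (u t) y) (f' := fun y => -(s2 (u t) y * u t 3 y * u t 2 y))
    hx.1 (fun r hr => (hasDerivAt_Js (Icc0_sub ⟨hr.1, hr.2.trans hx.2⟩)).neg)
    (fun r hr => by
      have hr' : r ∈ Icc 0 aa := ⟨hr.1, hr.2.trans hx.2⟩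
      have e1 := h.W_nonpos ht hr'
      have e2 := h.s2_nonneg ht' hr'
      have e4 := h.M_pos ht' r
      have e5 := mul_nonneg (mul_nonneg e2 (neg_nonneg.2 e1)) e4.le
      linarith)
  rw [h.Js_zero ht'] at h1
  linarith

lemma Jc_anti (h : IsSol u e T) {t : ℝ} (ht : t ∈ Ico 0 T) {x y : ℝ} (hx : x ∈ Icc 0 aa)
    (hy : y ∈ Icc 0 aa) (hxy : x ≤ y) : Jc (u t) y ≤ Jc (u t) x := by
  have ht' := h.I0 ht
  have h1 := mono_le (f := fun y => -Jc (u t) y) (f' := fun y => -(c2 (u t) y * u t 3 y * u t 2 y))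
    hxy (fun r hr => (hasDerivAt_Jc (Icc0_sub ⟨hx.1.trans hr.1, hr.2.trans hy.2⟩)).neg)
    (fun r hr => by
      have hr' : r ∈ Icc 0 aa := ⟨hx.1.trans hr.1, hr.2.trans hy.2⟩
      have e1 := h.W_nonpos ht hr'
      have e2 := h.c2_nonneg ht' hr'
      have e4 := h.M_pos ht' r
      have e5 := mul_nonneg (mul_nonneg e2 (neg_nonneg.2 e1)) e4.le
      linarith)
  linarith

lemma Jc_nonneg (h : IsSol u e T) {t : ℝ} (ht : t ∈ Ico 0 T) {x : ℝ} (hx : x ∈ Icc 0 aa) :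
    0 ≤ Jc (u t) x := by
  have h1 := h.Jc_anti ht hx ⟨by linarith [aa_lo], le_rfl⟩ hx.2
  rwa [h.Jc_of_large (h.I0 ht) (by linarith [aa_lo]) (by linarith [aa_hi]) aa_sq] at h1

lemma Jc_le_q (h : IsSol u e T) {t : ℝ} (ht : t ∈ Ico 0 T) {x : ℝ} (hx : x ∈ Icc 0 aa) :
    Jc (u t) x ≤ qq u t := h.Jc_anti ht zero_mem_aa hx hx.1

lemma q_nonneg (h : IsSol u e T) {t : ℝ} (ht : t ∈ Ico 0 T) : 0 ≤ qq u t :=
  h.Jc_nonneg ht zero_mem_aa

lemma S_zero (h : IsSol u e T) {t : ℝ} (ht : t ∈ Ioo (-e) T) : u t 1 0 = 0 := by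
  rw [(h.trig ht 0).2, h.X_zero ht]; simp
lemma C_zero (h : IsSol u e T) {t : ℝ} (ht : t ∈ Ioo (-e) T) : u t 0 0 = 1 := by
  rw [(h.trig ht 0).1, h.X_zero ht]; simp
lemma s2_zero (h : IsSol u e T) {t : ℝ} (ht : t ∈ Ioo (-e) T) : s2 (u t) 0 = 0 := by
  rw [s2_def, h.S_zero ht]; simp
lemma c2_zero (h : IsSol u e T) {t : ℝ} (ht : t ∈ Ioo (-e) T) : c2 (u t) 0 = 1 := by
  rw [c2_def, h.S_zero ht, h.C_zero ht]; simp
lemma W_zero0 (h : IsSol u e T) {t : ℝ} (ht : t ∈ Ioo (-e) T) : u t 3 0 = 0 := by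
  have := h.odd3 ht 0
  rw [neg_zero] at this
  linarith

lemma vel_nonneg (h : IsSol u e T) {t : ℝ} (ht : t ∈ Ico 0 T) {x : ℝ} (hx : x ∈ Icc 0 aa) :
    0 ≤ vel (u t) x := by
  have ht' := h.I0 ht
  rw [vel_apply]
  have e1 := mul_nonneg (h.s2_nonneg ht' hx) (h.Jc_nonneg ht hx)
  have e2 := mul_nonneg (h.c2_nonneg ht' hx) (neg_nonneg.2 (h.Js_nonpos ht hx))
  linarith

lemma vel_le_q (h : IsSol u e T) {t : ℝ} (ht : t ∈ Ico 0 T) {x : ℝ} (hx : x ∈ Icc 0 aa) :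
    vel (u t) x ≤ qq u t * s2 (u t) x := by
  have ht' := h.I0 ht
  have h1 := mono_le (f := fun y => qq u t * s2 (u t) y - vel (u t) y)
    (f' := fun y => qq u t * (2 * c2 (u t) y * u t 2 y) - 2 * str (u t) y * u t 2 y)
    hx.1 (fun r hr => by
      have hr' : r ∈ Icc 0 aa := ⟨hr.1, hr.2.trans hx.2⟩
      exact ((h.hasDerivAt_s2 ht' (Icc0_sub hr')).const_mul _).sub
        (h.hasDerivAt_vel ht' (Icc0_sub hr')))
    (fun r hr => by
      have hr' : r ∈ Icc 0 aa := ⟨hr.1, hr.2.trans hx.2⟩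
      have e1 := h.Js_nonpos ht hr'
      have e2 := h.Jc_le_q ht hr'
      have e3 := h.s2_nonneg ht' hr'
      have e4 := h.c2_nonneg ht' hr'
      have e5 := h.M_pos ht' r
      have e6 : qq u t * (2 * c2 (u t) r * u t 2 r) - 2 * str (u t) r * u t 2 r =
        2 * u t 2 r * (c2 (u t) r * (qq u t - Jc (u t) r) + s2 (u t) r * (-Js (u t) r)) := by
        rw [str_apply]; ring
      rw [e6]
      have e7 := mul_nonneg e4 (sub_nonneg.2 e2)
      have e8 := mul_nonneg e3 (neg_nonneg.2 e1)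
      positivity)
  have h2 : vel (u t) 0 = 0 := by
    rw [vel_apply, h.s2_zero ht', h.Js_zero ht']; ring
  rw [h2, h.s2_zero ht'] at h1
  linarith

lemma U1_eq (h : IsSol u e T) {t : ℝ} (ht : t ∈ Ioo (-e) T) {x : ℝ} (hx : x ∈ Icc 0 aa) :
    U1 u x t = Jc (u t) x + (u t 1 x / u t 0 x) * Js (u t) x := by
  have hC := h.C_pos ht hx
  have h1 := h.cs_one ht x
  unfold U1
  rw [str_apply, vel_apply, s2_def, c2_def]
  field_simp
  linear_combination (u t 0 x * Jc (u t) x + u t 1 x * Js (u t) x) * h1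

lemma U1_le_q (h : IsSol u e T) {t : ℝ} (ht : t ∈ Ico 0 T) {x : ℝ} (hx : x ∈ Icc 0 aa) :
    U1 u x t ≤ qq u t := by
  have ht' := h.I0 ht
  rw [h.U1_eq ht' hx]
  have h1 := h.Jc_le_q ht hx
  have h2 : 0 ≤ u t 1 x / u t 0 x := div_nonneg (h.S_nonneg ht' hx) (h.C_pos ht' hx).le
  have h3 := mul_nonneg h2 (neg_nonneg.2 (h.Js_nonpos ht hx))
  linarith

lemma U1_zero (h : IsSol u e T) {t : ℝ} (ht : t ∈ Ioo (-e) T) : U1 u 0 t = qq u t := by
  rw [h.U1_eq ht zero_mem_aa, h.Js_zero ht]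
  unfold qq; ring

lemma d_P (h : IsSol u e T) {t : ℝ} (ht : t ∈ Ioo (-e) T) :
    HasDerivAt (fun t => PP u t) (qq u t * PP u t) t := by
  have := h.d_sg ht zero_mem_aa
  rw [h.U1_zero ht] at this
  exact this

lemma sg_nonneg (h : IsSol u e T) {t : ℝ} (ht : t ∈ Ioo (-e) T) {x : ℝ} (hx : x ∈ Icc 0 aa) :
    0 ≤ sg u x t := by
  obtain ⟨A, _, _, hA⟩ := lin_exp h.he h.hT (h.cont_U1 hx)
  rw [hA (fun t => sg u x t) (fun s hs => h.d_sg hs hx) t ht, h.sg0_eq hx]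
  exact mul_nonneg (chi_nonneg x) (Real.exp_nonneg _)

lemma P_zero (h : IsSol u e T) : PP u 0 = chi 0 := h.sg0_eq zero_mem_aa

lemma chi0_pos : 0 < chi 0 := expNegInvGlue.pos_of_pos (by norm_num)

lemma P_pos (h : IsSol u e T) {t : ℝ} (ht : t ∈ Ioo (-e) T) : 0 < PP u t := by
  obtain ⟨A, _, _, hA⟩ := lin_exp h.he h.hT (h.cont_U1 zero_mem_aa)
  have h1 := hA (fun t => sg u 0 t) (fun s hs => h.d_sg hs zero_mem_aa) t ht
  have h2 : PP u t = chi 0 * Real.exp (A t) := by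
    rw [← h.P_zero]; exact h1
  rw [h2]
  exact mul_pos chi0_pos (Real.exp_pos _)

lemma Icc_I (_h : IsSol u e T) {t₀ t₁ : ℝ} (h0 : 0 ≤ t₀) (h1 : t₁ < T) :
    ∀ t ∈ Icc t₀ t₁, t ∈ Ico 0 T := fun _ ht => ⟨h0.trans ht.1, ht.2.trans_lt h1⟩

lemma P_mono (h : IsSol u e T) {t₀ t₁ : ℝ} (h0 : 0 ≤ t₀) (h01 : t₀ ≤ t₁) (h1 : t₁ < T) :
    PP u t₀ ≤ PP u t₁ :=
  mono_le h01 (fun t ht => h.d_P (h.I0 (h.Icc_I h0 h1 t ht)))
    (fun t ht => mul_nonneg (h.q_nonneg (h.Icc_I h0 h1 t ht))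
      (h.P_pos (h.I0 (h.Icc_I h0 h1 t ht))).le)

lemma nu_nonneg (h : IsSol u e T) {t : ℝ} (ht : t ∈ Ico 0 T) {x : ℝ} (hx : x ∈ Icc 0 aa) :
    0 ≤ nu u x t := by
  obtain ⟨A, hA0, hAd, hA⟩ := lin_exp h.he h.hT (h.cont_U1 hx)
  have h1 := mono_le (f := fun r => nu u x r * Real.exp (A r))
    (f' := fun r => ((-(U1 u x r) * nu u x r
          + (-(Js (u r) x) + (u r 0 x)^2 * -(u r 3 x)) * sg u x r) * Real.exp (A r)
          + nu u x r * (Real.exp (A r) * U1 u x r))) ht.1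
    (fun q hq => by
      have hq' := h.I0 (h.Icc_I le_rfl ht.2 q hq)
      exact (h.d_nu hq' hx).mul (hAd q hq').exp)
    (fun q hq => by
      have hq1 := h.Icc_I le_rfl ht.2 q hq
      have hq' := h.I0 hq1
      have e1 := h.Js_nonpos hq1 hx
      have e2 := h.W_nonpos hq1 hx
      have e3 := h.sg_nonneg hq' hx
      have e4 : (-(U1 u x q) * nu u x q
          + (-(Js (u q) x) + (u q 0 x)^2 * -(u q 3 x)) * sg u x q) * Real.exp (A q)
          + nu u x q * (Real.exp (A q) * U1 u x q) =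
          ((-(Js (u q) x) + (u q 0 x)^2 * -(u q 3 x)) * sg u x q) * Real.exp (A q) := by ring
      rw [e4]
      have e5 : 0 ≤ (u q 0 x)^2 * -(u q 3 x) := mul_nonneg (sq_nonneg _) (by linarith)
      have e6 : 0 ≤ -(Js (u q) x) + (u q 0 x)^2 * -(u q 3 x) := by linarith
      positivity)
  simp only [hA0, Real.exp_zero, mul_one] at h1
  have h2 := h.nu0_nonneg hx
  have h3 : 0 < Real.exp (A t) := Real.exp_pos _
  by_contra hc
  push Not at hc
  have := mul_neg_of_neg_of_pos hc h3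
  linarith

lemma hasDerivAt_C (h : IsSol u e T) {t : ℝ} (ht : t ∈ Ioo (-e) T) {x : ℝ}
    (hx : x ∈ Ioo (-2:ℝ) 2) : HasDerivAt (fun y => u t 0 y) (-(u t 1 x * u t 2 x)) x := by
  have h1 : (fun y => u t 0 y) = fun y => Real.cos (y + u t 6 y) :=
    funext fun y => (h.trig ht y).1
  rw [h1, (h.trig ht x).2]
  refine ((h.hasDerivAt_X ht hx).cos).congr_deriv ?_
  ring

lemma hasDerivAt_sg (h : IsSol u e T) {t : ℝ} (ht : t ∈ Ioo (-e) T) {x : ℝ}
    (hx : x ∈ Icc 0 aa) :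
    HasDerivAt (fun y => sg u y t) (-(u t 2 x * nu u x t / (u t 0 x)^2)) x := by
  have hC := h.C_pos ht hx
  have h1 := ((h.hasDerivAt_R ht (Icc0_sub hx)).div (h.hasDerivAt_C ht (Icc0_sub hx)) hC.ne').neg
  refine h1.congr_deriv ?_
  unfold nu
  field_simp
  ring

lemma sg_anti (h : IsSol u e T) {t : ℝ} (ht : t ∈ Ico 0 T) {x y : ℝ} (hx : x ∈ Icc 0 aa)
    (hy : y ∈ Icc 0 aa) (hxy : x ≤ y) : sg u y t ≤ sg u x t := by
  have ht' := h.I0 ht
  have h1 := mono_le (f := fun y => -sg u y t)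
    (f' := fun y => -(-(u t 2 y * nu u y t / (u t 0 y)^2)))
    hxy (fun r hr => (h.hasDerivAt_sg ht' ⟨hx.1.trans hr.1, hr.2.trans hy.2⟩).neg)
    (fun r hr => by
      have hr' : r ∈ Icc 0 aa := ⟨hx.1.trans hr.1, hr.2.trans hy.2⟩
      have e1 := h.nu_nonneg ht hr'
      have e4 := h.M_pos ht' r
      rw [neg_neg]
      positivity)
  linarith

lemma ratio_anti (h : IsSol u e T) {t₀ t₁ : ℝ} (h0 : 0 ≤ t₀) (h01 : t₀ ≤ t₁) (h1 : t₁ < T)
    {x : ℝ} (hx : x ∈ Icc 0 aa) : sg u x t₁ / PP u t₁ ≤ sg u x t₀ / PP u t₀ := by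
  have h2 := mono_le (f := fun t => -(sg u x t / PP u t))
    (f' := fun t => -((U1 u x t * sg u x t * PP u t - sg u x t * (qq u t * PP u t)) / (PP u t)^2))
    h01
    (fun t ht => by
      have ht' := h.I0 (h.Icc_I h0 h1 t ht)
      exact ((h.d_sg ht' hx).div (h.d_P ht') (h.P_pos ht').ne').neg)
    (fun t ht => by
      have ht1 := h.Icc_I h0 h1 t ht
      have ht' := h.I0 ht1
      have e1 := h.U1_le_q ht1 hx
      have e2 := h.sg_nonneg ht' hx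
      have e3 := h.P_pos ht'
      have e4 : -((U1 u x t * sg u x t * PP u t - sg u x t * (qq u t * PP u t)) / (PP u t)^2)
        = ((qq u t - U1 u x t) * sg u x t) / PP u t := by
        field_simp; ring
      rw [e4]
      have e5 := mul_nonneg (sub_nonneg.2 e1) e2
      positivity)
  linarith

lemma c2_anti (h : IsSol u e T) {t : ℝ} (ht : t ∈ Ioo (-e) T) {x y : ℝ} (hx : x ∈ Icc 0 aa)
    (hy : y ∈ Icc 0 aa) (hxy : x ≤ y) : c2 (u t) y ≤ c2 (u t) x := by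
  have h1 := mono_le (f := fun y => -c2 (u t) y)
    (f' := fun y => -(-(2 * s2 (u t) y * u t 2 y)))
    hxy (fun r hr => (h.hasDerivAt_c2 ht (Icc0_sub ⟨hx.1.trans hr.1, hr.2.trans hy.2⟩)).neg)
    (fun r hr => by
      have hr' : r ∈ Icc 0 aa := ⟨hx.1.trans hr.1, hr.2.trans hy.2⟩
      have e1 := h.s2_nonneg ht hr'
      have e4 := h.M_pos ht r
      rw [neg_neg]
      positivity)
  linarith

lemma s2_pos (h : IsSol u e T) {t : ℝ} (ht : t ∈ Ioo (-e) T) {x : ℝ} (hx : x ∈ Ioc 0 aa) :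
    0 < s2 (u t) x := by
  have hx' : x ∈ Icc 0 aa := ⟨hx.1.le, hx.2⟩
  rw [h.s2_eq ht]
  have h1 := h.X_mem ht hx'
  have hm := h.X_strictMono ht
  have h2 := hm (a := 0) (b := x) (Icc0_sub zero_mem_aa) (Icc0_sub hx') hx.1
  simp only [h.X_zero ht, add_zero] at h2
  have h3 : aa = Real.pi/4 := rfl
  exact Real.sin_pos_of_pos_of_lt_pi (by linarith) (by linarith [h1.2, Real.pi_pos])

/-- time derivative of `sin 2X` -/
lemma d_s2 (h : IsSol u e T) {t : ℝ} (ht : t ∈ Ioo (-e) T) (x : ℝ) :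
    HasDerivAt (fun t => s2 (u t) x) (2 * c2 (u t) x * vel (u t) x) t := by
  have h1 := ((h.d0 ht x).mul (h.d1 ht x)).const_mul 2
  refine h1.congr_deriv ?_
  rw [c2_def]; ring

end IsSol

end Pool.Agent.H153R3
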