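import Mathlib
import Pool.Agent.H153R3.Fact

open Set Filter Topology MeasureTheory
open scoped BoundedContinuousFunction ContDiff

set_option maxHeartbeats 1000000

noncomputable section

namespace Pool.Agent.H153R3

variable {u : ℝ → St} {e T : ℝ}

/-- vorticity over `sin 2X`, times the square of the density -/
def al (u : ℝ → St) (x t : ℝ) : ℝ := -(u t 3 x) / s2 (u t) x * (PP u t)^2
/-- forcing over `sin 2X`, times the cube of the density -/
def be (u : ℝ → St) (x t : ℝ) : ℝ := nu u x t / s2 (u t) x * (PP u t)^3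

namespace IsSol

/-- derivative of `al` with a lower bound -/
lemma d_al (h : IsSol u e T) {t : ℝ} (ht : t ∈ Ico 0 T) {x : ℝ} (hx : x ∈ Ioc 0 aa) :
    ∃ d, HasDerivAt (fun t => al u x t) d t ∧ be u x t / PP u t ≤ d := by
  have ht' := h.I0 ht
  have hx' : x ∈ Icc 0 aa := ⟨hx.1.le, hx.2⟩
  have hs := h.s2_pos ht' hx
  have hP := h.P_pos ht'
  have h1 := (((h.d3 ht' x).neg.div (h.d_s2 ht' x) hs.ne').mul ((h.d_P ht').pow 2))
  refine ⟨_, h1, ?_⟩
  have e1 := h.vel_le_q ht hx'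
  have e2 := h.vel_nonneg ht hx'
  have e3 := (abs_le.1 (h.c2_abs ht' x)).2
  have e4 := h.W_nonpos ht hx'
  have e5 := h.c2_nonneg ht' hx'
  have e6 : 0 ≤ qq u t * s2 (u t) x - c2 (u t) x * vel (u t) x := by nlinarith
  have e7 : 0 ≤ (-(u t 3 x)) * (qq u t * s2 (u t) x - c2 (u t) x * vel (u t) x) :=
    mul_nonneg (by linarith) e6
  have e8 : (be u x t / PP u t) + 2 * (PP u t)^2 / (s2 (u t) x)^2 *
      ((-(u t 3 x)) * (qq u t * s2 (u t) x - c2 (u t) x * vel (u t) x)) =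
      (- -(u t 4 x * u t 1 x + u t 5 x * u t 0 x) * s2 (u t) x -
        (-fun t => u t 3 x) t * (2 * c2 (u t) x * vel (u t) x)) / (s2 (u t) x)^2 * (PP u t)^2 +
      ((-fun t => u t 3 x) / fun t => s2 (u t) x) t *
        (↑2 * (PP u t)^(2-1) * (qq u t * PP u t)) := by
    simp only [Pi.neg_apply, Pi.div_apply, be, nu]
    push_cast
    field_simp
    ring
  have e9 : 0 ≤ 2 * (PP u t)^2 / (s2 (u t) x)^2 *
      ((-(u t 3 x)) * (qq u t * s2 (u t) x - c2 (u t) x * vel (u t) x)) :=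
    mul_nonneg (by positivity) e7
  refine le_trans ?_ (le_of_eq e8)
  linarith

/-- derivative of `be` with a lower bound -/
lemma d_be (h : IsSol u e T) {t : ℝ} (ht : t ∈ Ico 0 T) {x : ℝ} (hx : x ∈ Ioc 0 aa) :
    ∃ d, HasDerivAt (fun t => be u x t) d t ∧
      (u t 0 x)^2 * sg u x t * PP u t * al u x t ≤ d := by
  have ht' := h.I0 ht
  have hx' : x ∈ Icc 0 aa := ⟨hx.1.le, hx.2⟩
  have hs := h.s2_pos ht' hx
  have hP := h.P_pos ht'
  have h1 := (((h.d_nu ht' hx').div (h.d_s2 ht' x) hs.ne').mul ((h.d_P ht').pow 3))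
  refine ⟨_, h1, ?_⟩
  have e1 := h.vel_le_q ht hx'
  have e2 := h.vel_nonneg ht hx'
  have e3 := (abs_le.1 (h.c2_abs ht' x)).2
  have e4 := h.nu_nonneg ht hx'
  have e5 := h.c2_nonneg ht' hx'
  have e10 := h.U1_le_q ht hx'
  have e11 := h.Js_nonpos ht hx'
  have e12 := h.sg_nonneg ht' hx'
  have e6 : 0 ≤ qq u t * s2 (u t) x - c2 (u t) x * vel (u t) x := by nlinarith
  have e13 : 0 ≤ (qq u t - U1 u x t) * s2 (u t) x := mul_nonneg (by linarith) hs.le
  have e7 : 0 ≤ nu u x t * (2 * (qq u t * s2 (u t) x - c2 (u t) x * vel (u t) x)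
      + (qq u t - U1 u x t) * s2 (u t) x) + (-Js (u t) x) * sg u x t * s2 (u t) x := by
    have a1 := mul_nonneg e4 e6
    have a2 := mul_nonneg e4 e13
    have a3 := mul_nonneg (mul_nonneg (neg_nonneg.2 e11) e12) hs.le
    linarith
  have e8 : ((u t 0 x)^2 * sg u x t * PP u t * al u x t) + (PP u t)^3 / (s2 (u t) x)^2 *
      (nu u x t * (2 * (qq u t * s2 (u t) x - c2 (u t) x * vel (u t) x)
      + (qq u t - U1 u x t) * s2 (u t) x) + (-Js (u t) x) * sg u x t * s2 (u t) x) =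
      ((-(U1 u x t) * nu u x t
      + (-(Js (u t) x) + (u t 0 x)^2 * -(u t 3 x)) * sg u x t) * s2 (u t) x -
        nu u x t * (2 * c2 (u t) x * vel (u t) x)) / (s2 (u t) x)^2 * (PP u t)^3 +
      ((fun t => nu u x t) / fun t => s2 (u t) x) t *
        (↑3 * (PP u t)^(3-1) * (qq u t * PP u t)) := by
    simp only [Pi.div_apply, al]
    push_cast
    field_simp
    ring
  have e9 : 0 ≤ (PP u t)^3 / (s2 (u t) x)^2 *
      (nu u x t * (2 * (qq u t * s2 (u t) x - c2 (u t) x * vel (u t) x)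
      + (qq u t - U1 u x t) * s2 (u t) x) + (-Js (u t) x) * sg u x t * s2 (u t) x) :=
    mul_nonneg (by positivity) e7
  refine le_trans ?_ (le_of_eq e8)
  linarith

lemma be_nonneg (h : IsSol u e T) {t : ℝ} (ht : t ∈ Ico 0 T) {x : ℝ} (hx : x ∈ Ioc 0 aa) :
    0 ≤ be u x t := by
  have hx' : x ∈ Icc 0 aa := ⟨hx.1.le, hx.2⟩
  have e4 := h.nu_nonneg ht hx'
  have hs := h.s2_pos (h.I0 ht) hx
  have hP := h.P_pos (h.I0 ht)
  unfold be
  positivity

lemma al_mono (h : IsSol u e T) {t₀ t₁ : ℝ} (h0 : 0 ≤ t₀) (h01 : t₀ ≤ t₁) (h1 : t₁ < T)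
    {x : ℝ} (hx : x ∈ Ioc 0 aa) : al u x t₀ ≤ al u x t₁ := by
  choose! d hd hd' using fun t (ht : t ∈ Ico 0 T) => h.d_al ht hx
  refine mono_le h01 (fun t ht => hd t (h.Icc_I h0 h1 t ht)) (fun t ht => ?_)
  have ht' := h.Icc_I h0 h1 t ht
  refine le_trans ?_ (hd' t ht')
  exact div_nonneg (h.be_nonneg ht' hx) (h.P_pos (h.I0 ht')).le

lemma al_zero (h : IsSol u e T) {x : ℝ} (hx : x ∈ Ioc 0 aa) :
    al u x 0 = chi x * (chi 0)^2 := by
  have hs := h.s2_pos h.zero_mem hx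
  unfold al
  rw [h.P_zero, h.i3]
  rw [h.s2_eq h.zero_mem, h.i6] at hs ⊢
  simp only [BoundedContinuousFunction.coe_zero, Pi.zero_apply, add_zero] at hs ⊢
  unfold om0
  field_simp

/-- exponential growth near the symmetry axis -/
lemma al_exp (h : IsSol u e T) {t₀ t₁ : ℝ} (h0 : 0 ≤ t₀) (h01 : t₀ ≤ t₁) (h1 : t₁ < T)
    {x : ℝ} (hx : x ∈ Ioc 0 aa) {P₀ lam A₀ : ℝ} (hP₀ : 0 < P₀) (hlam : 0 < lam)
    (hlam' : 5 * lam^2 ≤ P₀) (hA₀ : 0 ≤ A₀)
    (hC : ∀ t ∈ Icc t₀ t₁, 4/5 ≤ (u t 0 x)^2)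
    (hz : ∀ t ∈ Icc t₀ t₁, PP u t / 2 ≤ sg u x t)
    (hP : ∀ t ∈ Icc t₀ t₁, P₀ ≤ PP u t ∧ PP u t ≤ 2 * P₀)
    (hal : A₀ ≤ al u x t₀) :
    ∀ t ∈ Icc t₀ t₁, A₀ / 2 * Real.exp (lam * (t - t₀)) ≤ al u x t := by
  choose! da hda hda' using fun t (ht : t ∈ Ico 0 T) => h.d_al ht hx
  choose! db hdb hdb' using fun t (ht : t ∈ Ico 0 T) => h.d_be ht hx
  set k := 5/2 * lam / P₀^2 with hk
  have hk0 : 0 < k := by positivity
  have hal0 : ∀ t ∈ Icc t₀ t₁, 0 ≤ al u x t := fun t ht =>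
    hA₀.trans (hal.trans (h.al_mono h0 ht.1 (ht.2.trans_lt h1) hx))
  -- lower bounds for the derivatives
  have ha : ∀ t ∈ Icc t₀ t₁, lam * k * be u x t ≤ da t := by
    intro t ht
    have ht' := h.Icc_I h0 h1 t ht
    refine le_trans ?_ (hda' t ht')
    have e1 := h.be_nonneg ht' hx
    obtain ⟨e2, e3⟩ := hP t ht
    have e4 : 0 < PP u t := lt_of_lt_of_le hP₀ e2
    rw [le_div_iff₀ e4]
    have e5 : lam * k * PP u t ≤ 1 := by
      have e6 : lam * k * PP u t ≤ lam * k * (2 * P₀) :=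
        mul_le_mul_of_nonneg_left e3 (by positivity)
      have e7 : lam * k * (2 * P₀) = 5 * lam^2 / P₀ := by rw [hk]; field_simp
      have e8 : 5 * lam^2 / P₀ ≤ 1 := (div_le_one hP₀).2 hlam'
      linarith
    nlinarith
  have hb : ∀ t ∈ Icc t₀ t₁, 2/5 * P₀^2 * al u x t ≤ db t := by
    intro t ht
    have ht' := h.Icc_I h0 h1 t ht
    refine le_trans ?_ (hdb' t ht')
    have e1 := hal0 t ht
    obtain ⟨e2, e3⟩ := hP t ht
    have e4 : 0 < PP u t := lt_of_lt_of_le hP₀ e2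
    refine mul_le_mul_of_nonneg_right ?_ e1
    have e5 := hC t ht
    have e6 := hz t ht
    have e7 : 4/5 * (PP u t / 2) ≤ (u t 0 x)^2 * sg u x t :=
      mul_le_mul e5 e6 (by positivity) (sq_nonneg _)
    have e8 : 4/5 * (PP u t / 2) * PP u t ≤ (u t 0 x)^2 * sg u x t * PP u t :=
      mul_le_mul_of_nonneg_right e7 e4.le
    nlinarith
  have hexp : ∀ t, HasDerivAt (fun t => Real.exp (lam * (t - t₀)))
      (Real.exp (lam * (t - t₀)) * (lam * 1)) t := fun t =>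
    (((hasDerivAt_id t).sub_const t₀).const_mul lam).exp
  have hexpn : ∀ t, HasDerivAt (fun t => Real.exp (-(lam * (t - t₀))))
      (Real.exp (-(lam * (t - t₀))) * -(lam * 1)) t := fun t =>
    (((hasDerivAt_id t).sub_const t₀).const_mul lam).neg.exp
  -- the combination grows
  have hy : ∀ t ∈ Icc t₀ t₁, A₀ * Real.exp (lam * (t - t₀)) ≤ al u x t + k * be u x t := by
    intro t ht
    have h2 := mono_le (f := fun t => (al u x t + k * be u x t) * Real.exp (-(lam * (t - t₀))))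
      (f' := fun t => (da t + k * db t) * Real.exp (-(lam * (t - t₀))) +
        (al u x t + k * be u x t) * (Real.exp (-(lam * (t - t₀))) * -(lam * 1))) ht.1
      (fun s hs => by
        have hs' := h.Icc_I h0 h1 s ⟨hs.1, hs.2.trans ht.2⟩
        exact ((hda s hs').add ((hdb s hs').const_mul k)).mul (hexpn s))
      (fun s hs => by
        have hs2 : s ∈ Icc t₀ t₁ := ⟨hs.1, hs.2.trans ht.2⟩
        have e1 := ha s hs2
        have e2 := mul_le_mul_of_nonneg_left (hb s hs2) hk0.le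
        have e3 : k * (2/5 * P₀^2 * al u x s) = lam * al u x s := by
          rw [hk]; field_simp
        have e4 : 0 < Real.exp (-(lam * (s - t₀))) := Real.exp_pos _
        have e5 : (da s + k * db s) * Real.exp (-(lam * (s - t₀))) +
          (al u x s + k * be u x s) * (Real.exp (-(lam * (s - t₀))) * -(lam * 1)) =
          (da s + k * db s - lam * (al u x s + k * be u x s)) * Real.exp (-(lam * (s - t₀))) := by
          ring
        rw [e5]
        exact mul_nonneg (by linarith) e4.le)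
    simp only [sub_self, mul_zero, neg_zero, Real.exp_zero, mul_one] at h2
    have e6 : 0 ≤ k * be u x t₀ :=
      mul_nonneg hk0.le (h.be_nonneg ⟨h0, h01.trans_lt h1⟩ hx)
    have e7 : A₀ ≤ (al u x t + k * be u x t) * Real.exp (-(lam * (t - t₀))) := by linarith
    have e8 : Real.exp (-(lam * (t - t₀))) * Real.exp (lam * (t - t₀)) = 1 := by
      rw [← Real.exp_add]; simp
    have e9 := mul_le_mul_of_nonneg_right e7 (Real.exp_nonneg (lam * (t - t₀)))
    rwa [mul_assoc, e8, mul_one] at e9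
  intro t ht
  have h2 := mono_le
    (f := fun t => (al u x t - A₀ / 2 * Real.exp (lam * (t - t₀))) * Real.exp (lam * (t - t₀)))
    (f' := fun t => (da t - A₀ / 2 * (Real.exp (lam * (t - t₀)) * (lam * 1))) *
      Real.exp (lam * (t - t₀)) + (al u x t - A₀ / 2 * Real.exp (lam * (t - t₀))) *
      (Real.exp (lam * (t - t₀)) * (lam * 1))) ht.1
    (fun s hs => by
      have hs' := h.Icc_I h0 h1 s ⟨hs.1, hs.2.trans ht.2⟩
      exact ((hda s hs').sub ((hexp s).const_mul (A₀/2))).mul (hexp s))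
    (fun s hs => by
      have hs2 : s ∈ Icc t₀ t₁ := ⟨hs.1, hs.2.trans ht.2⟩
      have e1 := ha s hs2
      have e2 := mul_le_mul_of_nonneg_left (hy s hs2) hlam.le
      have e4 : 0 < Real.exp (lam * (s - t₀)) := Real.exp_pos _
      have e5 : (da s - A₀ / 2 * (Real.exp (lam * (s - t₀)) * (lam * 1))) *
        Real.exp (lam * (s - t₀)) + (al u x s - A₀ / 2 * Real.exp (lam * (s - t₀))) *
        (Real.exp (lam * (s - t₀)) * (lam * 1)) =
        (da s + lam * al u x s - lam * (A₀ * Real.exp (lam * (s - t₀)))) *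
          Real.exp (lam * (s - t₀)) := by
        ring
      rw [e5]
      refine mul_nonneg ?_ e4.le
      nlinarith)
  simp only [sub_self, mul_zero, Real.exp_zero, mul_one] at h2
  have e1 : 0 ≤ (al u x t - A₀ / 2 * Real.exp (lam * (t - t₀))) * Real.exp (lam * (t - t₀)) := by
    linarith
  have e4 : 0 < Real.exp (lam * (t - t₀)) := Real.exp_pos _
  have e5 : 0 ≤ al u x t - A₀ / 2 * Real.exp (lam * (t - t₀)) :=
    nonneg_of_mul_nonneg_left e1 e4
  linarith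

/-- first phase -/
lemma phase1 (h : IsSol u e T) {t₀ t₁ : ℝ} (h0 : 0 ≤ t₀) (h01 : t₀ ≤ t₁) (h1 : t₁ < T)
    {x₁ : ℝ} (hx : x₁ ∈ Ioc 0 aa) {P₀ lam A₀ : ℝ} (hP₀ : 0 < P₀) (hlam : 0 < lam)
    (hlam' : 5 * lam^2 ≤ P₀) (hA₀ : 0 ≤ A₀)
    (hC : ∀ t ∈ Icc t₀ t₁, 3/5 ≤ c2 (u t) x₁)
    (hs : ∀ t ∈ Icc t₀ t₁, 1/5 ≤ s2 (u t) x₁)
    (hz : ∀ t ∈ Icc t₀ t₁, PP u t / 2 ≤ sg u x₁ t)
    (hP : ∀ t ∈ Icc t₀ t₁, P₀ ≤ PP u t ∧ PP u t ≤ 2 * P₀)
    (hal : ∀ x ∈ Ioc 0 x₁, A₀ ≤ al u x t₀) :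
    P₀ + A₀ / (800 * P₀ * lam) * (Real.exp (lam * (t₁ - t₀)) - 1) ≤ PP u t₁ := by
  have hx₁ : x₁ ∈ Icc 0 aa := ⟨hx.1.le, hx.2⟩
  have hal2 : ∀ x ∈ Ioc 0 x₁, ∀ t ∈ Icc t₀ t₁,
      A₀ / 2 * Real.exp (lam * (t - t₀)) ≤ al u x t := by
    intro x hx'
    have hx2 : x ∈ Ioc 0 aa := ⟨hx'.1, hx'.2.trans hx.2⟩
    have hx3 : x ∈ Icc 0 aa := ⟨hx'.1.le, hx'.2.trans hx.2⟩
    refine h.al_exp h0 h01 h1 hx2 hP₀ hlam hlam' hA₀ (fun t ht => ?_) (fun t ht => ?_) hP
      (hal x hx')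
    · have ht' := h.I0 (h.Icc_I h0 h1 t ht)
      have e1 := h.c2_anti ht' hx3 hx₁ hx'.2
      have e2 := hC t ht
      have e3 := h.cs_one ht' x
      rw [c2_def (u t) x] at e1
      nlinarith
    · have ht' := h.Icc_I h0 h1 t ht
      exact (hz t ht).trans (h.sg_anti ht' hx3 hx₁ hx'.2)
  -- lower bound for the strain
  have hq : ∀ t ∈ Icc t₀ t₁, A₀ * Real.exp (lam * (t - t₀)) / (800 * P₀^2) ≤ qq u t := by
    intro t ht
    have ht1 := h.Icc_I h0 h1 t ht
    have ht' := h.I0 ht1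
    have hPt := h.P_pos ht'
    set m := A₀ / 2 * Real.exp (lam * (t - t₀)) / (PP u t)^2 with hm
    have hm0 : 0 ≤ m := by positivity
    have hw : ∀ y ∈ Icc 0 x₁, m * s2 (u t) y ≤ -(u t 3 y) := by
      intro y hy
      rcases eq_or_lt_of_le hy.1 with h2 | h2
      · rw [← h2, h.s2_zero ht', h.W_zero0 ht']; simp
      · have e1 := hal2 y ⟨h2, hy.2⟩ t ht
        have e2 := h.s2_pos ht' ⟨h2, hy.2.trans hx.2⟩
        unfold al at e1
        have e3 : m ≤ -(u t 3 y) / s2 (u t) y := by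
          rw [hm, div_le_iff₀ (by positivity)]
          exact e1
        rwa [le_div_iff₀ e2] at e3
    have h2 := mono_le (f := fun y => -Jc (u t) y - m * ((s2 (u t) y)^2 / 4))
      (f' := fun y => -(c2 (u t) y * u t 3 y * u t 2 y) -
        m * ((↑2 * (s2 (u t) y)^(2-1) * (2 * c2 (u t) y * u t 2 y)) / 4)) hx.1.le
      (fun r hr => by
        have hr' : r ∈ Icc 0 aa := ⟨hr.1, hr.2.trans hx.2⟩
        exact (hasDerivAt_Jc (Icc0_sub hr')).neg.sub
          ((((h.hasDerivAt_s2 ht' (Icc0_sub hr')).pow 2).div_const 4).const_mul m))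
      (fun r hr => by
        have hr' : r ∈ Icc 0 aa := ⟨hr.1, hr.2.trans hx.2⟩
        have e1 := hw r hr
        have e2 := h.c2_nonneg ht' hr'
        have e3 := h.M_pos ht' r
        have e4 : -(c2 (u t) r * u t 3 r * u t 2 r) -
          m * ((↑2 * (s2 (u t) r)^(2-1) * (2 * c2 (u t) r * u t 2 r)) / 4) =
          (c2 (u t) r * u t 2 r) * (-(u t 3 r) - m * s2 (u t) r) := by
          push_cast; ring
        rw [e4]
        exact mul_nonneg (mul_nonneg e2 e3.le) (by linarith))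
    rw [h.s2_zero ht'] at h2
    have e1 := h.Jc_nonneg ht1 hx₁
    have e2 := hs t ht
    have e3 : 1/100 ≤ (s2 (u t) x₁)^2 / 4 := by nlinarith
    have e4 : m * (1/100) ≤ m * ((s2 (u t) x₁)^2 / 4) := mul_le_mul_of_nonneg_left e3 hm0
    have e5 : m / 100 ≤ qq u t := by
      unfold qq
      simp only [ne_eq, OfNat.ofNat_ne_zero, not_false_eq_true, zero_pow, zero_div, mul_zero,
        sub_zero] at h2
      linarith
    refine le_trans ?_ e5
    have e6 : (PP u t)^2 ≤ (2 * P₀)^2 := pow_le_pow_left₀ hPt.le (hP t ht).2 2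
    rw [hm, div_div, div_le_div_iff₀ (by positivity) (by positivity)]
    have e7 : 0 ≤ A₀ * Real.exp (lam * (t - t₀)) := by positivity
    nlinarith
  have h2 := mono_le (f := fun t => PP u t - A₀ / (800 * P₀ * lam) * Real.exp (lam * (t - t₀)))
    (f' := fun t => qq u t * PP u t - A₀ / (800 * P₀ * lam) *
      (Real.exp (lam * (t - t₀)) * (lam * 1))) h01
    (fun t ht => by
      have ht' := h.I0 (h.Icc_I h0 h1 t ht)
      exact (h.d_P ht').sub ((((hasDerivAt_id t).sub_const t₀).const_mul lam).exp.const_mul _))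
    (fun t ht => by
      have e1 := hq t ht
      have e2 := (hP t ht).1
      have e3 : A₀ * Real.exp (lam * (t - t₀)) / (800 * P₀^2) * P₀ ≤ qq u t * PP u t :=
        mul_le_mul e1 e2 hP₀.le (le_trans (by positivity) e1)
      have e4 : A₀ / (800 * P₀ * lam) * (Real.exp (lam * (t - t₀)) * (lam * 1)) =
        A₀ * Real.exp (lam * (t - t₀)) / (800 * P₀^2) * P₀ := by
        field_simp
      rw [e4]; linarith)
  simp only [sub_self, mul_zero, Real.exp_zero, mul_one] at h2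
  have e1 := (hP t₀ (left_mem_Icc.2 h01)).1
  have e2 : A₀ / (800 * P₀ * lam) * (Real.exp (lam * (t₁ - t₀)) - 1) =
    A₀ / (800 * P₀ * lam) * Real.exp (lam * (t₁ - t₀)) - A₀ / (800 * P₀ * lam) := by ring
  rw [e2]
  linarith

end IsSol

end Pool.Agent.H153R3
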