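import Mathlib
import Pool.Agent.H153R3.Phase

open Set Filter Topology MeasureTheory
open scoped BoundedContinuousFunction ContDiff

set_option maxHeartbeats 1000000

noncomputable section

namespace Pool.Agent.H153R3

variable {u : ℝ → St} {e T : ℝ}

/-- total vorticity of the labels in `[0,x]` -/
def Lf (u : ℝ → St) (x t : ℝ) : ℝ := -(J (u t 3 * u t 2) x - J (u t 3 * u t 2) 0)

namespace IsSol

lemma d_Lf (h : IsSol u e T) {t : ℝ} (ht : t ∈ Ioo (-e) T) (x : ℝ) :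
    HasDerivAt (fun t => Lf u x t) (-(J (F (u t) 3 * u t 2 + u t 3 * F (u t) 2) x
      - J (F (u t) 3 * u t 2 + u t 3 * F (u t) 2) 0)) t := by
  have h3 := (hasDerivAt_pi.1 (h.ode t ht)) 3
  have h2 := (hasDerivAt_pi.1 (h.ode t ht)) 2
  have h1 : HasDerivAt (fun t => u t 3 * u t 2) (F (u t) 3 * u t 2 + u t 3 * F (u t) 2) t :=
    h3.mul h2
  have h4 : ∀ y, HasDerivAt (fun t => J (u t 3 * u t 2) y)
      (J (F (u t) 3 * u t 2 + u t 3 * F (u t) 2) y) t := fun y => by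
    have h5 : HasDerivAt (fun t => J (u t 3 * u t 2))
      (J (F (u t) 3 * u t 2 + u t 3 * F (u t) 2)) t := J.hasFDerivAt.comp_hasDerivAt t h1
    exact (BoundedContinuousFunction.evalCLM ℝ y).hasFDerivAt.comp_hasDerivAt t h5
  exact ((h4 x).sub (h4 0)).neg

/-- second phase -/
lemma phase2 (h : IsSol u e T) {t₀ t₁ : ℝ} (h0 : 0 ≤ t₀) (h01 : t₀ ≤ t₁) (h1 : t₁ < T)
    {x₁ : ℝ} (hx : x₁ ∈ Ioc 0 aa) {P₀ : ℝ} (hP₀ : 0 < P₀)
    (hC : ∀ t ∈ Icc t₀ t₁, 3/5 ≤ c2 (u t) x₁)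
    (hz : ∀ t ∈ Icc t₀ t₁, sg u x₁ t ≤ PP u t / 2)
    (hP : ∀ t ∈ Icc t₀ t₁, P₀ ≤ PP u t ∧ PP u t ≤ 2 * P₀) :
    P₀ + 3/200 * P₀^2 * (t₁ - t₀)^2 ≤ PP u t₁ := by
  have hx₁ : x₁ ∈ Icc 0 aa := ⟨hx.1.le, hx.2⟩
  have hc2 : ∀ t ∈ Icc t₀ t₁, ∀ y ∈ Icc 0 x₁, 3/5 ≤ c2 (u t) y := by
    intro t ht y hy
    have ht' := h.I0 (h.Icc_I h0 h1 t ht)
    exact (hC t ht).trans (h.c2_anti ht' ⟨hy.1, hy.2.trans hx.2⟩ hx₁ hy.2)
  -- the total vorticity is nonnegative
  have hL0 : ∀ t ∈ Icc t₀ t₁, 0 ≤ Lf u x₁ t := by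
    intro t ht
    have ht1 := h.Icc_I h0 h1 t ht
    have ht' := h.I0 ht1
    have h2 := mono_le (f := fun y => -(J (u t 3 * u t 2) y)) (f' := fun y => -(u t 3 y * u t 2 y))
      hx.1.le (fun r hr => (hasDerivAt_J (u t 3 * u t 2) (Icc0_sub ⟨hr.1, hr.2.trans hx.2⟩)).neg)
      (fun r hr => by
        have hr' : r ∈ Icc 0 aa := ⟨hr.1, hr.2.trans hx.2⟩
        have e1 := h.W_nonpos ht1 hr'
        have e2 := h.M_pos ht' r
        have := mul_nonneg (neg_nonneg.2 e1) e2.le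
        linarith)
    unfold Lf
    linarith
  -- strain bound
  have hqL : ∀ t ∈ Icc t₀ t₁, 3/5 * Lf u x₁ t ≤ qq u t := by
    intro t ht
    have ht1 := h.Icc_I h0 h1 t ht
    have ht' := h.I0 ht1
    have h2 := mono_le (f := fun y => -Jc (u t) y + 3/5 * J (u t 3 * u t 2) y)
      (f' := fun y => -(c2 (u t) y * u t 3 y * u t 2 y) + 3/5 * (u t 3 y * u t 2 y)) hx.1.le
      (fun r hr => by
        have hr' : r ∈ Icc 0 aa := ⟨hr.1, hr.2.trans hx.2⟩
        exact (hasDerivAt_Jc (Icc0_sub hr')).neg.add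
          ((hasDerivAt_J (u t 3 * u t 2) (Icc0_sub hr')).const_mul (3/5)))
      (fun r hr => by
        have hr' : r ∈ Icc 0 aa := ⟨hr.1, hr.2.trans hx.2⟩
        have e1 := h.W_nonpos ht1 hr'
        have e2 := h.M_pos ht' r
        have e3 := hc2 t ht r hr
        have e4 := mul_nonneg (mul_nonneg (neg_nonneg.2 e1) e2.le) (sub_nonneg.2 e3)
        nlinarith)
    have e1 := h.Jc_nonneg ht1 hx₁
    unfold Lf qq
    linarith
  -- growth of the total vorticity
  have hLd : ∀ t ∈ Icc t₀ t₁, 2/5 * PP u t - 3 * qq u t * Lf u x₁ t ≤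
      -(J (F (u t) 3 * u t 2 + u t 3 * F (u t) 2) x₁
      - J (F (u t) 3 * u t 2 + u t 3 * F (u t) 2) 0) := by
    intro t ht
    have ht1 := h.Icc_I h0 h1 t ht
    have ht' := h.I0 ht1
    have h2 := mono_le (f := fun y => -(J (F (u t) 3 * u t 2 + u t 3 * F (u t) 2) y)
        + 3 * qq u t * -(J (u t 3 * u t 2) y) + 4/5 * sg u y t)
      (f' := fun y => -((F (u t) 3 * u t 2 + u t 3 * F (u t) 2) y)
        + 3 * qq u t * -((u t 3 * u t 2) y) + 4/5 * (-(u t 2 y * nu u y t / (u t 0 y)^2))) hx.1.le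
      (fun r hr => by
        have hr' : r ∈ Icc 0 aa := ⟨hr.1, hr.2.trans hx.2⟩
        exact (((hasDerivAt_J (F (u t) 3 * u t 2 + u t 3 * F (u t) 2) (Icc0_sub hr')).neg.add
          ((hasDerivAt_J (u t 3 * u t 2) (Icc0_sub hr')).neg.const_mul (3 * qq u t))).add
          ((h.hasDerivAt_sg ht' hr').const_mul (4/5))))
      (fun r hr => by
        have hr' : r ∈ Icc 0 aa := ⟨hr.1, hr.2.trans hx.2⟩
        have e1 := h.W_nonpos ht1 hr'
        have e2 := h.M_pos ht' r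
        have e3 := hc2 t ht r hr
        have e4 := h.nu_nonneg ht1 hr'
        have e5 := h.q_nonneg ht1
        have e6 := h.vel_le_q ht1 hr'
        have e7 := h.Js_nonpos ht1 hr'
        have e8 := h.Jc_nonneg ht1 hr'
        have e9 := h.s2_nonneg ht' hr'
        have e10 := h.sc_one ht' r
        have e11 := h.cs_one ht' r
        have hC0 := h.C_pos ht' hr'
        have hCsq : 4/5 ≤ (u t 0 r)^2 := by
          rw [c2_def] at e3; nlinarith
        have e12 : s2 (u t) r ≤ 4/5 := by nlinarith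
        -- `2 str + 3 q ≥ 0`
        have e13 : 0 ≤ 2 * str (u t) r + 3 * qq u t := by
          have f1 : c2 (u t) r * (-Js (u t) r) ≤ qq u t * s2 (u t) r := by
            rw [vel_apply] at e6
            have := mul_nonneg e9 e8
            linarith
          have f2 : 3/5 * (-Js (u t) r) ≤ qq u t * s2 (u t) r :=
            le_trans (mul_le_mul_of_nonneg_right e3 (neg_nonneg.2 e7)) f1
          have f3 : s2 (u t) r * (3/5 * (-Js (u t) r)) ≤ s2 (u t) r * (qq u t * s2 (u t) r) :=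
            mul_le_mul_of_nonneg_left f2 e9
          have f4 : (s2 (u t) r)^2 ≤ 16/25 := by nlinarith
          have f5 : s2 (u t) r * (qq u t * s2 (u t) r) ≤ 16/25 * qq u t := by
            have : s2 (u t) r * (qq u t * s2 (u t) r) = (s2 (u t) r)^2 * qq u t := by ring
            rw [this]
            exact mul_le_mul_of_nonneg_right f4 e5
          have f6 := mul_nonneg (le_trans (by norm_num) e3 : (0:ℝ) ≤ c2 (u t) r) e8
          rw [str_apply]
          linarith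
        have e14 : (F (u t) 3 * u t 2 + u t 3 * F (u t) 2) r =
            -(nu u r t) * u t 2 r + u t 3 r * (2 * (str (u t) r * u t 2 r)) := rfl
        have e15 : (u t 3 * u t 2) r = u t 3 r * u t 2 r := rfl
        have e16 : 4/5 * (u t 2 r * nu u r t / (u t 0 r)^2) ≤ nu u r t * u t 2 r := by
          have f1 : 0 ≤ u t 2 r * nu u r t := mul_nonneg e2.le e4
          have f2 : u t 2 r * nu u r t / (u t 0 r)^2 ≤ u t 2 r * nu u r t / (4/5) :=
            div_le_div_of_nonneg_left f1 (by norm_num) hCsq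
          linarith
        rw [e14, e15]
        have e17 := mul_nonneg (mul_nonneg (neg_nonneg.2 e1) e2.le) e13
        nlinarith)
    have e1 := hz t ht
    have e2 : PP u t = sg u 0 t := rfl
    unfold Lf
    rw [← e2] at h2
    linarith
  -- the weighted total vorticity
  have hLP : ∀ t ∈ Icc t₀ t₁, 2/5 * P₀^4 * (t - t₀) ≤ Lf u x₁ t * (PP u t)^3 := by
    intro t ht
    have h2 := mono_le (f := fun t => Lf u x₁ t * (PP u t)^3 - 2/5 * P₀^4 * (t - t₀))
      (f' := fun t => (-(J (F (u t) 3 * u t 2 + u t 3 * F (u t) 2) x₁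
        - J (F (u t) 3 * u t 2 + u t 3 * F (u t) 2) 0)) * (PP u t)^3 +
        Lf u x₁ t * (↑3 * (PP u t)^(3-1) * (qq u t * PP u t)) - 2/5 * P₀^4 * 1) ht.1
      (fun s hs => by
        have hs' := h.I0 (h.Icc_I h0 h1 s ⟨hs.1, hs.2.trans ht.2⟩)
        exact ((h.d_Lf hs' x₁).mul ((h.d_P hs').pow 3)).sub
          (((hasDerivAt_id s).sub_const t₀).const_mul (2/5 * P₀^4)))
      (fun s hs => by
        have hs2 : s ∈ Icc t₀ t₁ := ⟨hs.1, hs.2.trans ht.2⟩
        have hs' := h.I0 (h.Icc_I h0 h1 s hs2)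
        have e1 := hLd s hs2
        have e2 := (hP s hs2).1
        have e3 : 0 < PP u s := h.P_pos hs'
        have e4 : 0 ≤ (PP u s)^3 := by positivity
        have e5 := mul_le_mul_of_nonneg_right e1 e4
        have e6 : P₀^4 ≤ (PP u s)^4 := pow_le_pow_left₀ hP₀.le e2 4
        push_cast
        nlinarith)
    simp only [sub_self, mul_zero, sub_zero] at h2
    have e1 := hL0 t₀ (left_mem_Icc.2 h01)
    have e3 : 0 < PP u t₀ := h.P_pos (h.I0 (h.Icc_I h0 h1 t₀ (left_mem_Icc.2 h01)))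
    have e4 : 0 ≤ Lf u x₁ t₀ * (PP u t₀)^3 := by positivity
    linarith
  have hq : ∀ t ∈ Icc t₀ t₁, 3/100 * P₀ * (t - t₀) ≤ qq u t := by
    intro t ht
    have e1 := hLP t ht
    have e2 := (hP t ht).2
    have e3 : 0 < PP u t := h.P_pos (h.I0 (h.Icc_I h0 h1 t ht))
    have e4 : (PP u t)^3 ≤ (2 * P₀)^3 := pow_le_pow_left₀ e3.le e2 3
    have e5 : Lf u x₁ t * (PP u t)^3 ≤ Lf u x₁ t * (2 * P₀)^3 :=
      mul_le_mul_of_nonneg_left e4 (hL0 t ht)
    have e6 : 2/5 * P₀^4 * (t - t₀) ≤ Lf u x₁ t * (8 * P₀^3) := by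
      have : (2 * P₀)^3 = 8 * P₀^3 := by ring
      rw [← this]; linarith
    have e7 : P₀^3 * (P₀ * (t - t₀) / 20) ≤ P₀^3 * Lf u x₁ t := by nlinarith
    have e8 : P₀ * (t - t₀) / 20 ≤ Lf u x₁ t := le_of_mul_le_mul_left e7 (by positivity)
    have e9 := hqL t ht
    linarith
  have h2 := mono_le (f := fun t => PP u t - 3/200 * P₀^2 * (t - t₀)^2)
    (f' := fun t => qq u t * PP u t - 3/200 * P₀^2 * (↑2 * (t - t₀)^(2-1) * 1)) h01
    (fun t ht => by
      have ht' := h.I0 (h.Icc_I h0 h1 t ht)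
      exact (h.d_P ht').sub ((((hasDerivAt_id t).sub_const t₀).pow 2).const_mul _))
    (fun t ht => by
      have e1 := hq t ht
      have e2 := (hP t ht).1
      have e3 : 3/100 * P₀ * (t - t₀) * P₀ ≤ qq u t * PP u t := by
        have e4 : 0 ≤ t - t₀ := by linarith [ht.1]
        exact mul_le_mul e1 e2 hP₀.le (le_trans (by positivity) e1)
      push_cast
      nlinarith)
  simp only [sub_self, ne_eq, OfNat.ofNat_ne_zero, not_false_eq_true, zero_pow, mul_zero,
    sub_zero] at h2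
  have e1 := (hP t₀ (left_mem_Icc.2 h01)).1
  linarith

end IsSol

end Pool.Agent.H153R3
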