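import Mathlib
import Pool.Agent.H153R3.Phase2

open Set Filter Topology MeasureTheory
open scoped BoundedContinuousFunction ContDiff

set_option maxHeartbeats 1000000

noncomputable section

namespace Pool.Agent.H153R3

variable {u : ℝ → St} {e T : ℝ}

/-- the constant of the first phase -/
def Ac : ℝ := chi (1/8) * (chi 0)^2

lemma Ac_pos : 0 < Ac := by
  have h1 : 0 < chi (1/8) := expNegInvGlue.pos_of_pos (by norm_num)
  have h2 := IsSol.chi0_pos
  unfold Ac; positivity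

/-- the constant of the doubling time -/
def Dc : ℝ := 5 * (1 + 320 * (Nat.factorial 9 : ℝ) / Ac)

lemma Dc_pos : 0 < Dc := by
  have := Ac_pos
  unfold Dc; positivity

lemma exp_lower {y : ℝ} (hy : 0 ≤ y) : (y/2)^10 / (Nat.factorial 9 : ℝ) ≤ Real.exp y - 1 := by
  have h1 : Real.exp y = Real.exp (y/2) * Real.exp (y/2) := by
    rw [← Real.exp_add]; congr 1; ring
  have h2 : y/2 + 1 ≤ Real.exp (y/2) := Real.add_one_le_exp _
  have h3 : (y/2)^9 / (Nat.factorial 9 : ℝ) ≤ Real.exp (y/2) :=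
    Real.pow_div_factorial_le_exp (y/2) (by positivity) 9
  have h4 : 0 ≤ (y/2)^9 / (Nat.factorial 9 : ℝ) := by positivity
  have h5 : (y/2)^10 / (Nat.factorial 9 : ℝ) = (y/2) * ((y/2)^9 / (Nat.factorial 9 : ℝ)) := by
    ring
  rw [h1, h5]
  have h6 : (y/2) * ((y/2)^9 / (Nat.factorial 9 : ℝ)) ≤ (y/2) * Real.exp (y/2) :=
    mul_le_mul_of_nonneg_left h3 (by positivity)
  nlinarith

namespace IsSol

/-- the density at the origin doubles quickly -/
theorem doubling (h : IsSol u e T) {t₀ : ℝ} (h0 : 0 ≤ t₀) {r : ℝ} (hr : 0 < r)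
    (hrP : r^4 = PP u t₀) (h1 : t₀ + (Dc / r + 9 / r^2) < T) :
    ∃ t₁ ∈ Icc t₀ (t₀ + (Dc / r + 9 / r^2)), 2 * PP u t₀ ≤ PP u t₁ := by
  by_contra hcon
  push Not at hcon
  have hD := Dc_pos
  have hA := Ac_pos
  set P₀ := PP u t₀ with hP₀def
  have hP₀ : 0 < P₀ := by rw [← hrP]; positivity
  set Δ₁ := Dc / r with hΔ₁
  set Δ₂ := 9 / r^2 with hΔ₂
  have hΔ₁0 : 0 < Δ₁ := by positivity
  have hΔ₂0 : 0 < Δ₂ := by positivity
  set te := t₀ + (Δ₁ + Δ₂) with hte
  have ht0e : t₀ ≤ te := by linarith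
  have hPb : ∀ t ∈ Icc t₀ te, P₀ ≤ PP u t ∧ PP u t ≤ 2 * P₀ := by
    intro t ht
    exact ⟨h.P_mono h0 ht.1 (ht.2.trans_lt h1), (hcon t ht).le⟩
  have ht0 : t₀ ∈ Ico 0 T := ⟨h0, by linarith⟩
  have ht0' := h.I0 ht0
  -- the boundary label
  have hθ : Real.arctan (1/8) ∈ Icc (-aa) aa := by
    have e1 : Real.arctan (1/8) ≤ Real.arctan 1 := Real.arctan_le_arctan_iff.2 (by norm_num)
    rw [Real.arctan_one] at e1
    have e2 : 0 ≤ Real.arctan (1/8) := by
      rw [← Real.arctan_zero]; exact Real.arctan_le_arctan_iff.2 (by norm_num)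
    exact ⟨by linarith [aa_lo], e1⟩
  have hθ0 : 0 < Real.arctan (1/8) := by
    rw [← Real.arctan_zero]; exact Real.arctan_strictMono (by norm_num)
  obtain ⟨x₁, hx₁, hx₁'⟩ : ∃ x ∈ Icc (-aa) aa, x + u t₀ 6 x = Real.arctan (1/8) := by
    have h1 := intermediate_value_Icc (f := fun x => x + u t₀ 6 x) (a := -aa) (b := aa)
      (by linarith [aa_lo]) (continuous_id.add (u t₀ 6).continuous).continuousOn
    simp only [h.Y_aa ht0', h.odd6 ht0', neg_zero, add_zero] at h1
    obtain ⟨x, hx, hx'⟩ := h1 hθ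
    exact ⟨x, hx, hx'⟩
  have hx₁0 : 0 < x₁ := by
    by_contra hc
    push Not at hc
    have hm := (h.X_strictMono ht0').monotoneOn
    have h2 := hm (a := x₁) (b := 0) ⟨by linarith [hx₁.1, aa_hi], by linarith⟩
      (Icc0_sub zero_mem_aa) hc
    simp only [h.X_zero ht0', add_zero] at h2
    linarith
  have hx : x₁ ∈ Ioc 0 aa := ⟨hx₁0, hx₁.2⟩
  have hxi : x₁ ∈ Icc 0 aa := ⟨hx₁0.le, hx₁.2⟩
  -- the label is at most one eighth
  have hx8 : x₁ ≤ 1/8 := by
    have e1 : 0 ≤ u t₀ 6 x₁ := by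
      have h2 := mono_le (f := fun t => u t 6 x₁) (f' := fun t => vel (u t) x₁) h0
        (fun t ht => h.d6 (h.I0 ⟨ht.1, ht.2.trans_lt ht0.2⟩) x₁)
        (fun t ht => h.vel_nonneg ⟨ht.1, ht.2.trans_lt ht0.2⟩ hxi)
      simp only [h.i6, BoundedContinuousFunction.coe_zero, Pi.zero_apply] at h2
      exact h2
    have e2 : Real.arctan (1/8) ≤ 1/8 := by
      have := Real.le_tan hθ0.le (Real.arctan_lt_pi_div_two _)
      rwa [Real.tan_arctan] at this
    linarith
  have hτ0 : u t₀ 1 x₁ / u t₀ 0 x₁ = 1/8 := by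
    rw [(h.trig ht0' x₁).1, (h.trig ht0' x₁).2, hx₁', ← Real.tan_eq_sin_div_cos, Real.tan_arctan]
  -- motion of the boundary label
  have hdτ : ∀ t ∈ Ioo (-e) T, HasDerivAt (fun t => u t 1 x₁ / u t 0 x₁)
      (vel (u t) x₁ / (u t 0 x₁)^2) t := by
    intro t ht
    have hC := h.C_pos ht hxi
    refine ((h.d1 ht x₁).div (h.d0 ht x₁) hC.ne').congr_deriv ?_
    have := h.cs_one ht x₁
    field_simp
    linear_combination vel (u t) x₁ * this
  have hIe := h.Icc_I h0 h1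
  have hτlo : ∀ t ∈ Icc t₀ te, 1/8 ≤ u t 1 x₁ / u t 0 x₁ := by
    intro t ht
    rw [← hτ0]
    refine mono_le ht.1 (fun s hs => hdτ s (h.I0 (hIe s ⟨hs.1, hs.2.trans ht.2⟩)))
      (fun s hs => ?_)
    exact div_nonneg (h.vel_nonneg (hIe s ⟨hs.1, hs.2.trans ht.2⟩) hxi) (sq_nonneg _)
  have hτhi : ∀ t ∈ Icc t₀ te, u t 1 x₁ / u t 0 x₁ ≤ 1/2 := by
    intro t ht
    have h2 := mono_le (f := fun t => -(u t 1 x₁ / u t 0 x₁ / (PP u t)^2))
      (f' := fun t => -((vel (u t) x₁ / (u t 0 x₁)^2 * (PP u t)^2 - u t 1 x₁ / u t 0 x₁ *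
        (↑2 * (PP u t)^(2-1) * (qq u t * PP u t))) / ((PP u t)^2)^2)) ht.1
      (fun s hs => by
        have hs' := h.I0 (hIe s ⟨hs.1, hs.2.trans ht.2⟩)
        exact ((hdτ s hs').div ((h.d_P hs').pow 2) (pow_ne_zero 2 (h.P_pos hs').ne')).neg)
      (fun s hs => by
        have hs1 := hIe s ⟨hs.1, hs.2.trans ht.2⟩
        have hs' := h.I0 hs1
        have e1 := h.vel_le_q hs1 hxi
        have e2 := h.P_pos hs'
        have e3 := h.C_pos hs' hxi
        rw [s2_def] at e1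
        have e4 : -((vel (u s) x₁ / (u s 0 x₁)^2 * (PP u s)^2 - u s 1 x₁ / u s 0 x₁ *
          (↑2 * (PP u s)^(2-1) * (qq u s * PP u s))) / ((PP u s)^2)^2) =
          (qq u s * (2 * (u s 0 x₁ * u s 1 x₁)) - vel (u s) x₁) / ((u s 0 x₁)^2 * (PP u s)^2) := by
          push_cast
          field_simp
          ring
        rw [e4]
        exact div_nonneg (by linarith) (by positivity))
    have e1 := h.P_pos (h.I0 (hIe t ht))
    have e2 := (hPb t ht).2
    rw [hτ0] at h2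
    have e3 : u t 1 x₁ / u t 0 x₁ / (PP u t)^2 ≤ 1/8 / P₀^2 := by linarith
    rw [div_le_div_iff₀ (by positivity) (by positivity)] at e3
    have e4 : (PP u t)^2 ≤ (2 * P₀)^2 := pow_le_pow_left₀ e1.le e2 2
    have e5 : u t 1 x₁ / u t 0 x₁ * P₀^2 ≤ 1/2 * P₀^2 := by nlinarith
    exact le_of_mul_le_mul_right e5 (by positivity)
  have hCsq : ∀ t ∈ Icc t₀ te, (u t 0 x₁)^2 * (1 + (u t 1 x₁ / u t 0 x₁)^2) = 1 := by
    intro t ht
    have hC := h.C_pos (h.I0 (hIe t ht)) hxi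
    have := h.cs_one (h.I0 (hIe t ht)) x₁
    field_simp
    linarith
  have hc2 : ∀ t ∈ Icc t₀ te, 3/5 ≤ c2 (u t) x₁ := by
    intro t ht
    have e1 := hCsq t ht
    have e2 := hτlo t ht
    have e3 := hτhi t ht
    have e4 := h.cs_one (h.I0 (hIe t ht)) x₁
    set τ := u t 1 x₁ / u t 0 x₁ with hτ
    have e5 : τ^2 ≤ 1/4 := by nlinarith
    have e6 : 4/5 ≤ (u t 0 x₁)^2 := by nlinarith [sq_nonneg (u t 0 x₁)]
    rw [c2_def]
    nlinarith
  have hs2 : ∀ t ∈ Icc t₀ te, 1/5 ≤ s2 (u t) x₁ := by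
    intro t ht
    have e1 := hCsq t ht
    have e2 := hτlo t ht
    have e3 := hτhi t ht
    have hC := h.C_pos (h.I0 (hIe t ht)) hxi
    have e7 : s2 (u t) x₁ = 2 * (u t 1 x₁ / u t 0 x₁) * (u t 0 x₁)^2 := by
      rw [s2_def]; field_simp
    rw [e7]
    set τ := u t 1 x₁ / u t 0 x₁ with hτ
    have e5 : τ^2 ≤ 1/4 := by nlinarith
    have e6 : 4/5 ≤ (u t 0 x₁)^2 := by nlinarith [sq_nonneg (u t 0 x₁)]
    nlinarith
  -- lower bound for `al` at the initial time
  have hal : ∀ x ∈ Ioc 0 x₁, Ac ≤ al u x t₀ := by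
    intro x hx'
    have hx2 : x ∈ Ioc 0 aa := ⟨hx'.1, hx'.2.trans hx.2⟩
    have e1 := h.al_mono le_rfl h0 ht0.2 hx2
    rw [h.al_zero hx2] at e1
    refine le_trans ?_ e1
    unfold Ac
    exact mul_le_mul_of_nonneg_right (chi_anti hx'.1.le (hx'.2.trans hx8)) (sq_nonneg _)
  set lam := 2/5 * r^2 with hlam
  have hlam0 : 0 < lam := by positivity
  have hlam' : 5 * lam^2 ≤ P₀ := by
    rw [← hrP, hlam]
    nlinarith [sq_nonneg (r^2)]
  set ts := t₀ + Δ₁ with hts
  have hts1 : t₀ ≤ ts := by linarith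
  have hts2 : ts ≤ te := by linarith
  have hsub1 : ∀ t ∈ Icc t₀ ts, t ∈ Icc t₀ te := fun t ht => ⟨ht.1, ht.2.trans hts2⟩
  have hsub2 : ∀ t ∈ Icc ts te, t ∈ Icc t₀ te := fun t ht => ⟨hts1.trans ht.1, ht.2⟩
  by_cases hcase : PP u ts / 2 ≤ sg u x₁ ts
  · -- first phase
    have hz : ∀ t ∈ Icc t₀ ts, PP u t / 2 ≤ sg u x₁ t := by
      intro t ht
      have e1 := h.ratio_anti (h0.trans ht.1) ht.2 (hts2.trans_lt h1) hxi
      have e2 := h.P_pos (h.I0 (hIe t (hsub1 t ht)))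
      have e3 := h.P_pos (h.I0 (hIe ts ⟨hts1, hts2⟩))
      have e4 : 1/2 ≤ sg u x₁ ts / PP u ts := by
        rw [le_div_iff₀ e3]; linarith
      have e5 := e4.trans e1
      rw [le_div_iff₀ e2] at e5
      linarith
    have key := h.phase1 h0 hts1 (hts2.trans_lt h1) hx hP₀ hlam0 hlam' hA.le
      (fun t ht => hc2 t (hsub1 t ht)) (fun t ht => hs2 t (hsub1 t ht)) hz
      (fun t ht => hPb t (hsub1 t ht)) hal
    have hlt := hcon ts ⟨hts1, hts2⟩
    have e1 : lam * (ts - t₀) = 2/5 * r * Dc := by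
      rw [hlam, hts, hΔ₁]; field_simp; ring
    rw [e1] at key
    have e2 := exp_lower (y := 2/5 * r * Dc) (by positivity)
    have e3 : P₀ ≤ Ac / (800 * P₀ * lam) * (Real.exp (2/5 * r * Dc) - 1) := by
      have e4 : 800 * P₀ * lam * P₀ ≤ Ac * (Real.exp (2/5 * r * Dc) - 1) := by
        have e5 : 800 * P₀ * lam * P₀ = 320 * r^10 := by
          rw [← hrP, hlam]; ring
        have e6 : (2/5 * r * Dc / 2)^10 = r^10 * (Dc/5)^10 := by ring
        have e7 : (1:ℝ) + 320 * (Nat.factorial 9 : ℝ) / Ac ≤ (Dc/5)^10 := by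
          have e8 : Dc / 5 = 1 + 320 * (Nat.factorial 9 : ℝ) / Ac := by unfold Dc; ring
          rw [e8]
          have e9 : (1:ℝ) ≤ 1 + 320 * (Nat.factorial 9 : ℝ) / Ac := by
            have : 0 ≤ 320 * (Nat.factorial 9 : ℝ) / Ac := by positivity
            linarith
          exact le_self_pow₀ e9 (by norm_num)
        have e8 : 320 * (Nat.factorial 9 : ℝ) / Ac ≤ (Dc/5)^10 := by linarith
        have e9 : 320 * (Nat.factorial 9 : ℝ) ≤ Ac * (Dc/5)^10 := by
          rw [div_le_iff₀ hA] at e8; linarith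
        have hf : (0:ℝ) < (Nat.factorial 9 : ℝ) := by positivity
        have e10 : 320 * r^10 ≤ Ac * (r^10 * (Dc/5)^10 / (Nat.factorial 9 : ℝ)) := by
          rw [mul_div_assoc', le_div_iff₀ hf]
          have := mul_le_mul_of_nonneg_left e9 (by positivity : 0 ≤ r^10)
          nlinarith
        rw [e6] at e2
        rw [e5]
        exact e10.trans (mul_le_mul_of_nonneg_left e2 hA.le)
      rw [div_mul_eq_mul_div, le_div_iff₀ (by positivity)]
      linarith
    linarith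
  · -- second phase
    push Not at hcase
    have hz : ∀ t ∈ Icc ts te, sg u x₁ t ≤ PP u t / 2 := by
      intro t ht
      have e1 := h.ratio_anti (h0.trans hts1) ht.1 (ht.2.trans_lt h1) hxi
      have e2 := h.P_pos (h.I0 (hIe t (hsub2 t ht)))
      have e3 := h.P_pos (h.I0 (hIe ts ⟨hts1, hts2⟩))
      have e4 : sg u x₁ ts / PP u ts ≤ 1/2 := by
        rw [div_le_iff₀ e3]; linarith
      have e5 := e1.trans e4
      rw [div_le_iff₀ e2] at e5
      linarith
    have key := h.phase2 (h0.trans hts1) hts2 h1 hx hP₀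
      (fun t ht => hc2 t (hsub2 t ht)) hz
      (fun t ht => hPb t (hsub2 t ht))
    have hlt := hcon te ⟨ht0e, le_rfl⟩
    have e1 : te - ts = 9 / r^2 := by rw [hte, hts]; ring
    rw [e1] at key
    have e2 : 3/200 * P₀^2 * (9/r^2)^2 = 243/200 * P₀ := by
      rw [← hrP]; field_simp; ring
    rw [e2] at key
    linarith

/-- no solution lives forever -/
theorem finite_time : ∃ B : ℝ, ∀ (u : ℝ → St) (e T : ℝ), IsSol u e T → T ≤ B := by
  have hχ := chi0_pos
  -- fourth root of the initial density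
  obtain ⟨r₀, hr₀, hr₀4⟩ : ∃ r : ℝ, 0 < r ∧ r^4 = chi 0 := by
    refine ⟨Real.sqrt (Real.sqrt (chi 0)), by positivity, ?_⟩
    have : Real.sqrt (Real.sqrt (chi 0))^4 = ((Real.sqrt (Real.sqrt (chi 0)))^2)^2 := by ring
    rw [this, Real.sq_sqrt (Real.sqrt_nonneg _), Real.sq_sqrt hχ.le]
  have hD := Dc_pos
  set K := Dc + 9 / r₀ with hK
  have hK0 : 0 < K := by positivity
  refine ⟨7 * K / r₀, fun u e T h => ?_⟩
  by_contra hcon
  push Not at hcon
  set B := 7 * K / r₀ with hB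
  have key : ∀ n : ℕ, ∃ t r : ℝ, 0 ≤ t ∧ 0 < r ∧ r^4 = PP u t ∧ (7/6)^n * r₀ ≤ r ∧
      t + 7 * K / r ≤ B := by
    intro n
    induction n with
    | zero =>
      refine ⟨0, r₀, le_rfl, hr₀, ?_, by simp, by simp [hB]⟩
      rw [h.P_zero]; exact hr₀4
    | succ n ih =>
      obtain ⟨t, r, ht, hr, hrP, hrn, htr⟩ := ih
      have hr₀r : r₀ ≤ r := by
        have : (1:ℝ) ≤ (7/6)^n := one_le_pow₀ (by norm_num)
        nlinarith
      have hstep : Dc / r + 9 / r^2 ≤ K / r := by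
        have e1 : 9 / r^2 = (9 / r) / r := by field_simp
        have e2 : 9 / r ≤ 9 / r₀ := div_le_div_of_nonneg_left (by norm_num) hr₀ hr₀r
        rw [e1, ← add_div]
        exact div_le_div_of_nonneg_right (by linarith) hr.le
      have hKr : 0 < K / r := by positivity
      have h7 : 7 * K / r = 7 * (K / r) := by ring
      have hlt : t + (Dc / r + 9 / r^2) < T := by linarith
      obtain ⟨t₁, ht₁, hdb⟩ := h.doubling ht hr hrP hlt
      have hP₁ : 0 < PP u t₁ := by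
        have : 0 < PP u t := by rw [← hrP]; positivity
        linarith
      refine ⟨t₁, Real.sqrt (Real.sqrt (PP u t₁)), ht.trans ht₁.1, by positivity, ?_, ?_, ?_⟩
      · have : Real.sqrt (Real.sqrt (PP u t₁))^4 = ((Real.sqrt (Real.sqrt (PP u t₁)))^2)^2 := by ring
        rw [this, Real.sq_sqrt (Real.sqrt_nonneg _), Real.sq_sqrt hP₁.le]
      all_goals
        have hr4 : Real.sqrt (Real.sqrt (PP u t₁))^4 = PP u t₁ := by
          have : Real.sqrt (Real.sqrt (PP u t₁))^4 = ((Real.sqrt (Real.sqrt (PP u t₁)))^2)^2 := by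
            ring
          rw [this, Real.sq_sqrt (Real.sqrt_nonneg _), Real.sq_sqrt hP₁.le]
        have hgrow : 7/6 * r ≤ Real.sqrt (Real.sqrt (PP u t₁)) := by
          have e1 : (7/6 * r)^4 ≤ (Real.sqrt (Real.sqrt (PP u t₁)))^4 := by
            rw [hr4]
            have : (7/6 * r)^4 ≤ 2 * r^4 := by
              have : 0 ≤ r^4 := by positivity
              nlinarith
            rw [hrP] at this
            linarith
          exact (pow_le_pow_iff_left₀ (by positivity) (Real.sqrt_nonneg _) (by norm_num)).1 e1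
      · rw [pow_succ]
        nlinarith
      · set r₁ := Real.sqrt (Real.sqrt (PP u t₁)) with hr₁
        have hr₁0 : 0 < r₁ := by positivity
        have e1 : 7 * K / r₁ ≤ 7 * K / (7/6 * r) :=
          div_le_div_of_nonneg_left (by positivity) (by positivity) hgrow
        have e2 : 7 * K / (7/6 * r) = 6 * (K / r) := by field_simp
        have e3 := ht₁.2
        linarith
  -- boundedness of the density on compact time intervals
  have hcont : ContinuousOn (fun t => PP u t) (Icc 0 B) := fun t ht =>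
    (h.d_P (h.I0 ⟨ht.1, ht.2.trans_lt hcon⟩)).continuousAt.continuousWithinAt
  obtain ⟨C, hC⟩ := isCompact_Icc.exists_bound_of_continuousOn hcont
  obtain ⟨n, hn⟩ := pow_unbounded_of_one_lt ((|C| + 1) / r₀) (by norm_num : (1:ℝ) < 7/6)
  obtain ⟨t, r, ht, hr, hrP, hrn, htr⟩ := key n
  have hKr : 0 < 7 * K / r := by positivity
  have htB : t ∈ Icc 0 B := ⟨ht, by linarith⟩
  have h1 := (le_abs_self _).trans (hC t htB)
  rw [← hrP] at h1
  have h2 : |C| + 1 < r := by
    rw [div_lt_iff₀ hr₀] at hn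
    linarith
  have h3 : 1 ≤ r := by linarith [abs_nonneg C]
  have h4 : r ≤ r^4 := le_self_pow₀ h3 (by norm_num)
  linarith [le_abs_self C]

end IsSol

end Pool.Agent.H153R3
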