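import Mathlib
import Pool.Agent.H153R3.Par

open Set Filter Topology MeasureTheory
open scoped BoundedContinuousFunction ContDiff

set_option maxHeartbeats 1000000

noncomputable section

namespace Pool.Agent.H153R3

variable {u : ℝ → St} {e T : ℝ}

namespace IsSol

lemma abs0 (h : IsSol u e T) {t : ℝ} (ht : t ∈ Ioo (-e) T) (x : ℝ) : |u t 0 x| ≤ 1 := by
  rw [(h.trig ht x).1]; exact Real.abs_cos_le_one _
lemma abs1 (h : IsSol u e T) {t : ℝ} (ht : t ∈ Ioo (-e) T) (x : ℝ) : |u t 1 x| ≤ 1 := by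
  rw [(h.trig ht x).2]; exact Real.abs_sin_le_one _

lemma norm_V_le {f : V} {C : ℝ} (hC : 0 ≤ C) (h : ∀ x, |f x| ≤ C) : ‖f‖ ≤ C :=
  (BoundedContinuousFunction.norm_le hC).2 h

lemma abs_V_le (f : V) (x : ℝ) : |f x| ≤ ‖f‖ := f.norm_coe_le_norm x

/-- the bounds propagate for a short time -/
lemma propagate (h : IsSol u e T) {B t₁ : ℝ} (hB : 1 ≤ B) (ht₁ : t₁ ∈ Ico 0 T)
    (hδ : T - t₁ ≤ 1 / (100 * B)) (h3 : ‖u t₁ 3‖ ≤ B) (h4 : ‖u t₁ 4‖ ≤ B) (h5 : ‖u t₁ 5‖ ≤ B) :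
    ∀ t ∈ Ico t₁ T, ‖u t 3‖ ≤ 2 * B ∧ ‖u t 4‖ ≤ 2 * B ∧ ‖u t 5‖ ≤ 2 * B := by
  intro t ht
  have hI : ∀ s ∈ Icc t₁ t, s ∈ Ioo (-e) T := fun s hs =>
    ⟨by linarith [h.he, ht₁.1, hs.1], lt_of_le_of_lt hs.2 ht.2⟩
  have hd : ∀ s ∈ Ioo (-e) T, HasDerivAt (fun s => ((u s 3, u s 4, u s 5) : V × V × V))
      ((F (u s) 3, F (u s) 4, F (u s) 5) : V × V × V) s := by
    intro s hs
    have h0 := hasDerivAt_pi.1 (h.ode s hs)
    exact (h0 3).prodMk ((h0 4).prodMk (h0 5))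
  have key := image_norm_le_of_norm_deriv_right_lt_deriv_boundary
    (f := fun s => ((u s 3, u s 4, u s 5) : V × V × V))
    (f' := fun s => ((F (u s) 3, F (u s) 4, F (u s) 5) : V × V × V)) (a := t₁) (b := t)
    (B := fun s => B + 100 * B^2 * (s - t₁)) (B' := fun _ => 100 * B^2)
    (fun s hs => (hd s (hI s hs)).continuousAt.continuousWithinAt)
    (fun s hs => (hd s (hI s (Ico_subset_Icc_self hs))).hasDerivWithinAt)
    (by
      simp only [sub_self, mul_zero, add_zero]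
      exact max_le h3 (max_le h4 h5))
    (fun s => by
      have := (((hasDerivAt_id s).sub_const t₁).const_mul (100 * B^2)).const_add B
      simpa using this)
    (by
      intro s hs hn
      have hs' := hI s (Ico_subset_Icc_self hs)
      have hle : B + 100 * B^2 * (s - t₁) ≤ 2 * B := by
        have h1 : s - t₁ ≤ 1 / (100 * B) := by linarith [hs.2, ht.2]
        have h2 : 100 * B^2 * (s - t₁) ≤ 100 * B^2 * (1 / (100 * B)) :=
          mul_le_mul_of_nonneg_left h1 (by positivity)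
        have h3 : 100 * B^2 * (1 / (100 * B)) = B := by field_simp
        linarith
      have hn' : ‖((u s 3, u s 4, u s 5) : V × V × V)‖ ≤ 2 * B := hn.trans_le hle
      have n3 : ‖u s 3‖ ≤ 2 * B := (norm_fst_le _).trans hn'
      have n45 : ‖((u s 4, u s 5) : V × V)‖ ≤ 2 * B :=
        (norm_snd_le ((u s 3, u s 4, u s 5) : V × V × V)).trans hn'
      have n4 : ‖u s 4‖ ≤ 2 * B := (norm_fst_le ((u s 4, u s 5) : V × V)).trans n45
      have n5 : ‖u s 5‖ ≤ 2 * B := (norm_snd_le ((u s 4, u s 5) : V × V)).trans n45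
      have p3 : ∀ x, |u s 3 x| ≤ 2 * B := fun x => (abs_V_le _ x).trans n3
      have p4 : ∀ x, |u s 4 x| ≤ 2 * B := fun x => (abs_V_le _ x).trans n4
      have p5 : ∀ x, |u s 5 x| ≤ 2 * B := fun x => (abs_V_le _ x).trans n5
      have pv : ∀ x, |vel (u s) x| ≤ 4 * B := fun x =>
        (h.vel_le hs' (by linarith) p3 x).trans (by linarith)
      have ps : ∀ x, |str (u s) x| ≤ 4 * B := fun x =>
        (h.str_le hs' (by linarith) p3 x).trans (by linarith)
      have q3 : ‖F (u s) 3‖ ≤ 28 * B^2 := by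
        refine norm_V_le (by positivity) fun x => ?_
        change |-(u s 4 x * u s 1 x + u s 5 x * u s 0 x)| ≤ _
        rw [abs_neg]
        refine (abs_add_le _ _).trans ?_
        rw [abs_mul, abs_mul]
        have a1 := mul_le_mul (p4 x) (h.abs1 hs' x) (abs_nonneg _) (by linarith)
        have a2 := mul_le_mul (p5 x) (h.abs0 hs' x) (abs_nonneg _) (by linarith)
        nlinarith
      have q4 : ‖F (u s) 4‖ ≤ 28 * B^2 := by
        refine norm_V_le (by positivity) fun x => ?_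
        change |str (u s) x * u s 4 x| ≤ _
        rw [abs_mul]
        have a1 := mul_le_mul (ps x) (p4 x) (abs_nonneg _) (by linarith)
        nlinarith
      have q5 : ‖F (u s) 5‖ ≤ 28 * B^2 := by
        refine norm_V_le (by positivity) fun x => ?_
        change |-(str (u s) x * u s 5 x) + (u s 3 x - 2 * vel (u s) x) * u s 4 x| ≤ _
        refine (abs_add_le _ _).trans ?_
        rw [abs_neg, abs_mul, abs_mul]
        have a1 := mul_le_mul (ps x) (p5 x) (abs_nonneg _) (by linarith)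
        have a3 : |u s 3 x - 2 * vel (u s) x| ≤ 10 * B := by
          refine (abs_sub _ _).trans ?_
          rw [abs_mul, abs_of_pos (by norm_num : (0:ℝ) < 2)]
          linarith [p3 x, pv x]
        have a2 := mul_le_mul a3 (p4 x) (abs_nonneg _) (by linarith)
        nlinarith
      have q : ‖((F (u s) 3, F (u s) 4, F (u s) 5) : V × V × V)‖ ≤ 28 * B^2 :=
        max_le q3 (max_le q4 q5)
      refine q.trans_lt ?_
      nlinarith)
  have hfin := key (right_mem_Icc.2 ht.1)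
  have hle : B + 100 * B^2 * (t - t₁) ≤ 2 * B := by
    have h1 : t - t₁ ≤ 1 / (100 * B) := by linarith [ht.2]
    have h2 : 100 * B^2 * (t - t₁) ≤ 100 * B^2 * (1 / (100 * B)) :=
      mul_le_mul_of_nonneg_left h1 (by positivity)
    have h3 : 100 * B^2 * (1 / (100 * B)) = B := by field_simp
    linarith
  have hn' : ‖((u t 3, u t 4, u t 5) : V × V × V)‖ ≤ 2 * B := hfin.trans hle
  have n45 : ‖((u t 4, u t 5) : V × V)‖ ≤ 2 * B :=
    (norm_snd_le ((u t 3, u t 4, u t 5) : V × V × V)).trans hn'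
  exact ⟨(norm_fst_le ((u t 3, u t 4, u t 5) : V × V × V)).trans hn',
    (norm_fst_le ((u t 4, u t 5) : V × V)).trans n45,
    (norm_snd_le ((u t 4, u t 5) : V × V)).trans n45⟩

theorem bu_of_unbounded (h : IsSol u e T)
    (hunb : ∀ t₁ ∈ Ico 0 T, ∀ R : ℝ, ¬ ∀ t ∈ Ico t₁ T, ‖u t‖ ≤ R) :
    ∀ M : ℝ, ∃ t₀ ∈ Ico 0 T, ∀ t ∈ Ioo t₀ T, ∃ x ∈ Ioo (-aa) aa,
      M < |u t 3 x| + Real.sqrt ((u t 4 x)^2 + (u t 5 x)^2) := by
  intro M
  by_contra hcon
  push Not at hcon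
  set B := max M 1 with hBdef
  have hB : 1 ≤ B := le_max_right _ _
  have hB0 : 0 ≤ B := by linarith
  have hT := h.hT
  obtain ⟨t₁, ht₁, hx⟩ := hcon (max 0 (T - 1 / (100 * B)))
    ⟨le_max_left _ _, max_lt hT (by
      have : 0 < 1 / (100 * B) := by positivity
      linarith)⟩
  have ht₁0 : 0 < t₁ := lt_of_le_of_lt (le_max_left _ _) ht₁.1
  have ht₁δ : T - 1 / (100 * B) < t₁ := lt_of_le_of_lt (le_max_right _ _) ht₁.1
  have ht₁I : t₁ ∈ Ioo (-e) T := ⟨by linarith [h.he], ht₁.2⟩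
  have ht₁' : t₁ ∈ Ico 0 T := ⟨ht₁0.le, ht₁.2⟩
  have hout : ∀ x, x ∉ Ioo (-aa) aa → 1/2 ≤ x^2 := by
    intro x hx
    have : aa ≤ |x| := by
      by_contra hc
      push Not at hc
      exact hx (abs_lt.1 hc)
    have h1 : aa^2 ≤ x^2 := by
      rw [← sq_abs x]
      exact pow_le_pow_left₀ (by linarith [aa_lo]) this 2
    linarith [aa_sq]
  have h3 : ‖u t₁ 3‖ ≤ B := by
    refine norm_V_le hB0 fun x => ?_
    by_cases hx' : x ∈ Ioo (-aa) aa
    · have := hx x hx'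
      have h1 := Real.sqrt_nonneg ((u t₁ 4 x)^2 + (u t₁ 5 x)^2)
      linarith [le_max_left M 1]
    · rw [h.W_zero ht₁I (hout x hx')]; simpa using hB0
  have h4 : ‖u t₁ 4‖ ≤ B := by
    refine norm_V_le hB0 fun x => ?_
    by_cases hx' : x ∈ Ioo (-aa) aa
    · have := hx x hx'
      have h1 : |u t₁ 4 x| ≤ Real.sqrt ((u t₁ 4 x)^2 + (u t₁ 5 x)^2) :=
        Real.abs_le_sqrt (by nlinarith [sq_nonneg (u t₁ 5 x)])
      linarith [le_max_left M 1, abs_nonneg (u t₁ 3 x)]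
    · rw [h.R_zero ht₁I (hout x hx')]; simpa using hB0
  have h5 : ‖u t₁ 5‖ ≤ B := by
    refine norm_V_le hB0 fun x => ?_
    by_cases hx' : x ∈ Ioo (-aa) aa
    · have := hx x hx'
      have h1 : |u t₁ 5 x| ≤ Real.sqrt ((u t₁ 4 x)^2 + (u t₁ 5 x)^2) :=
        Real.abs_le_sqrt (by nlinarith [sq_nonneg (u t₁ 4 x)])
      linarith [le_max_left M 1, abs_nonneg (u t₁ 3 x)]
    · rw [h.G_zero ht₁I (hout x hx')]; simpa using hB0
  have hprop := h.propagate hB ht₁' (by linarith) h3 h4 h5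
  have hI : ∀ t ∈ Ico t₁ T, t ∈ Ioo (-e) T := fun t ht => ⟨by linarith [h.he, ht.1], ht.2⟩
  have pv : ∀ t ∈ Ico t₁ T, ∀ x, |vel (u t) x| ≤ 4 * B := fun t ht x =>
    (h.vel_le (hI t ht) (B := 2 * B) (by linarith)
      (fun x => (abs_V_le _ x).trans (hprop t ht).1) x).trans (by linarith)
  have ps : ∀ t ∈ Ico t₁ T, ∀ x, |str (u t) x| ≤ 4 * B := fun t ht x =>
    (h.str_le (hI t ht) (B := 2 * B) (by linarith)
      (fun x => (abs_V_le _ x).trans (hprop t ht).1) x).trans (by linarith)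
  have hT1 : T - t₁ ≤ 1 := by
    have : 1 / (100 * B) ≤ 1 := by
      rw [div_le_one (by positivity)]; linarith
    linarith
  have h6 : ∀ t ∈ Ico t₁ T, ‖u t 6‖ ≤ ‖u t₁ 6‖ + 4 * B := by
    intro t ht
    have h7 := norm_image_sub_le_of_norm_deriv_le_segment' (f := fun t => u t 6)
      (f' := fun t => F (u t) 6) (a := t₁) (b := t) (C := 4 * B)
      (fun s hs => ((hasDerivAt_pi.1 (h.ode s (hI s ⟨hs.1, hs.2.trans_lt ht.2⟩))) 6).hasDerivWithinAt)
      (fun s hs => norm_V_le (by linarith) (pv s ⟨hs.1, hs.2.trans ht.2⟩)) t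
      (right_mem_Icc.2 ht.1)
    have h8 : ‖u t 6‖ ≤ ‖u t 6 - u t₁ 6‖ + ‖u t₁ 6‖ := norm_le_norm_sub_add _ _
    have h9 : 4 * B * (t - t₁) ≤ 4 * B := by nlinarith [ht.2]
    linarith
  have h2 : ∀ t ∈ Ico t₁ T, ‖u t 2‖ ≤ ‖u t₁ 2‖ * Real.exp (8 * B) := by
    intro t ht
    have h7 := norm_le_gronwallBound_of_norm_deriv_right_le (f := fun t => u t 2)
      (f' := fun t => F (u t) 2) (a := t₁) (b := t) (δ := ‖u t₁ 2‖) (K := 8 * B) (ε := 0)
      (fun s hs => ((hasDerivAt_pi.1 (h.ode s (hI s ⟨hs.1, hs.2.trans_lt ht.2⟩))) 2).continuousAt.continuousWithinAt)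
      (fun s hs => ((hasDerivAt_pi.1 (h.ode s (hI s ⟨hs.1, hs.2.trans ht.2⟩))) 2).hasDerivWithinAt)
      le_rfl
      (fun s hs => by
        have hs' : s ∈ Ico t₁ T := ⟨hs.1, hs.2.trans ht.2⟩
        rw [add_zero]
        refine norm_V_le (by positivity) fun x => ?_
        change |2 * (str (u s) x * u s 2 x)| ≤ _
        rw [abs_mul, abs_mul, abs_of_pos (by norm_num : (0:ℝ) < 2)]
        have a1 := mul_le_mul (ps s hs' x) (abs_V_le (u s 2) x) (abs_nonneg _) (by linarith)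
        linarith) t (right_mem_Icc.2 ht.1)
    rw [gronwallBound_ε0] at h7
    refine h7.trans ?_
    refine mul_le_mul_of_nonneg_left ?_ (norm_nonneg _)
    apply Real.exp_le_exp.2
    have : t - t₁ ≤ 1 := by linarith [ht.2]
    nlinarith
  refine hunb t₁ ht₁' (1 + 2 * B + (‖u t₁ 6‖ + 4 * B) + ‖u t₁ 2‖ * Real.exp (8 * B)) fun t ht => ?_
  have hp := hprop t ht
  have n6 := norm_nonneg (u t₁ 6)
  have n2 : 0 ≤ ‖u t₁ 2‖ * Real.exp (8 * B) := by positivity
  refine (pi_norm_le_iff_of_nonneg (by positivity)).2 fun i => ?_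
  fin_cases i
  · change ‖u t 0‖ ≤ _
    have : ‖u t 0‖ ≤ 1 := norm_V_le zero_le_one (h.abs0 (hI t ht))
    linarith
  · change ‖u t 1‖ ≤ _
    have : ‖u t 1‖ ≤ 1 := norm_V_le zero_le_one (h.abs1 (hI t ht))
    linarith
  · change ‖u t 2‖ ≤ _
    linarith [h2 t ht]
  · change ‖u t 3‖ ≤ _
    linarith
  · change ‖u t 4‖ ≤ _
    linarith
  · change ‖u t 5‖ ≤ _
    linarith
  · change ‖u t 6‖ ≤ _
    linarith [h6 t ht]

end IsSol

end Pool.Agent.H153R3
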