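import Mathlib
import Pool.Agent.H153R3.Par

open Set Filter Topology MeasureTheory
open scoped BoundedContinuousFunction ContDiff

set_option maxHeartbeats 1000000

noncomputable section

namespace Pool.Agent.H153R3

/-- the label of a point -/
def lab (u : ℝ → St) (θ t : ℝ) : ℝ := Function.invFunOn (fun x => x + u t 6 x) (Ioo (-2:ℝ) 2) θ

variable {u : ℝ → St} {e T : ℝ}

namespace IsSol

lemma lab_X (h : IsSol u e T) {t : ℝ} (ht : t ∈ Ioo (-e) T) {x : ℝ} (hx : x ∈ Ioo (-2:ℝ) 2) :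
    lab u (x + u t 6 x) t = x :=
  (h.X_strictMono ht).injOn.leftInvOn_invFunOn hx

lemma Icc_sub {x : ℝ} (hx : x ∈ Icc (-aa) aa) : x ∈ Ioo (-2:ℝ) 2 :=
  ⟨by linarith [hx.1, aa_hi], by linarith [hx.2, aa_hi]⟩

lemma Y_naa (h : IsSol u e T) {t : ℝ} (ht : t ∈ Ioo (-e) T) : u t 6 (-aa) = 0 := by
  rw [h.odd6 ht, h.Y_aa ht, neg_zero]

lemma exists_label (h : IsSol u e T) {t : ℝ} (ht : t ∈ Ioo (-e) T) {θ : ℝ}
    (hθ : θ ∈ Icc (-aa) aa) : ∃ x ∈ Icc (-aa) aa, x + u t 6 x = θ := by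
  have h1 := intermediate_value_Icc (f := fun x => x + u t 6 x) (a := -aa) (b := aa)
    (by linarith [aa_lo]) (continuous_id.add (u t 6).continuous).continuousOn
  simp only [h.Y_aa ht, h.Y_naa ht, add_zero] at h1
  obtain ⟨x, hx, hx'⟩ := h1 hθ
  exact ⟨x, hx, hx'⟩

lemma exists_label' (h : IsSol u e T) {t : ℝ} (ht : t ∈ Ioo (-e) T) {θ : ℝ}
    (hθ : θ ∈ Ioo (-aa) aa) : ∃ x ∈ Ioo (-aa) aa, x + u t 6 x = θ := by
  obtain ⟨x, hx, hx'⟩ := h.exists_label ht (Ioo_subset_Icc_self hθ)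
  refine ⟨x, ⟨lt_of_le_of_ne hx.1 ?_, lt_of_le_of_ne hx.2 ?_⟩, hx'⟩
  · rintro rfl
    rw [h.Y_naa ht] at hx'
    linarith [hθ.1]
  · rintro rfl
    rw [h.Y_aa ht] at hx'
    linarith [hθ.2]

lemma X_Ioo (h : IsSol u e T) {t : ℝ} (ht : t ∈ Ioo (-e) T) {x : ℝ}
    (hx : x ∈ Ioo (-aa) aa) : x + u t 6 x ∈ Ioo (-aa) aa := by
  have hm := h.X_strictMono ht
  have h1 := hm (Icc_sub (left_mem_Icc.2 (by linarith [aa_lo]))) (Icc_sub (Ioo_subset_Icc_self hx))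
    hx.1
  have h2 := hm (Icc_sub (Ioo_subset_Icc_self hx)) (Icc_sub (right_mem_Icc.2 (by linarith [aa_lo])))
    hx.2
  simp only [h.Y_aa ht, h.Y_naa ht, add_zero] at h1 h2
  exact ⟨h1, h2⟩

/-- partial derivatives of a differentiable function of two variables -/
lemma fst_deriv {f : ℝ × ℝ → ℝ} {p : ℝ × ℝ} (hp : DifferentiableAt ℝ f p) :
    HasDerivAt (fun y => f (y, p.2)) (fderiv ℝ f p (1, 0)) p.1 := by
  have h1 : HasDerivAt (fun y : ℝ => (y, p.2)) ((1:ℝ), (0:ℝ)) p.1 :=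
    (hasDerivAt_id p.1).prodMk (hasDerivAt_const p.1 p.2)
  exact hp.hasFDerivAt.comp_hasDerivAt p.1 h1

lemma snd_deriv {f : ℝ × ℝ → ℝ} {p : ℝ × ℝ} (hp : DifferentiableAt ℝ f p) :
    HasDerivAt (fun s => f (p.1, s)) (fderiv ℝ f p (0, 1)) p.2 := by
  have h1 : HasDerivAt (fun s : ℝ => (p.1, s)) ((0:ℝ), (1:ℝ)) p.2 :=
    (hasDerivAt_const p.2 p.1).prodMk (hasDerivAt_id p.2)
  exact hp.hasFDerivAt.comp_hasDerivAt p.2 h1

lemma lin_two (L : ℝ × ℝ →L[ℝ] ℝ) (a b : ℝ) : L (a, b) = a * L (1, 0) + b * L (0, 1) := by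
  have : ((a, b) : ℝ × ℝ) = a • ((1:ℝ), (0:ℝ)) + b • ((0:ℝ), (1:ℝ)) := by
    ext <;> simp
  rw [this, map_add, map_smul, map_smul, smul_eq_mul, smul_eq_mul]

lemma lab_smooth (h : IsSol u e T) {t : ℝ} (ht : t ∈ Ioo (-e) T) {x : ℝ}
    (hx : x ∈ Ioo (-2:ℝ) 2) :
    ContDiffAt ℝ ∞ (fun p : ℝ × ℝ => lab u p.1 p.2) (x + u t 6 x, t) := by
  set f : ℝ × ℝ → ℝ := fun p => p.1 + u p.2 6 p.1 with hf
  have hfs : ContDiffAt ℝ ∞ f (x, t) := contDiffAt_fst.add (h.smooth_comp ht x 6)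
  have hfd : DifferentiableAt ℝ f (x, t) := hfs.differentiableAt (by simp)
  set L := fderiv ℝ f (x, t) with hL
  have hL1 : L (1, 0) = u t 2 x := (fst_deriv hfd).unique (h.hasDerivAt_X ht hx)
  have hL2 : L (0, 1) = vel (u t) x := (snd_deriv hfd).unique ((h.d6 ht x).const_add x)
  set Φ : ℝ × ℝ → ℝ × ℝ := fun p => (f p, p.2) with hΦ
  have hΦs : ContDiffAt ℝ ∞ Φ (x, t) := hfs.prodMk contDiffAt_snd
  have hM := h.M_pos ht x
  let A : (ℝ × ℝ) ≃L[ℝ] (ℝ × ℝ) := ContinuousLinearEquiv.equivOfInverse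
    (L.prod (ContinuousLinearMap.snd ℝ ℝ ℝ))
    (((u t 2 x)⁻¹ • (ContinuousLinearMap.fst ℝ ℝ ℝ - vel (u t) x • ContinuousLinearMap.snd ℝ ℝ ℝ)).prod
      (ContinuousLinearMap.snd ℝ ℝ ℝ))
    (by
      rintro ⟨a, b⟩
      simp only [ContinuousLinearMap.prod_apply, ContinuousLinearMap.coe_snd',
        smul_apply, sub_apply,
        ContinuousLinearMap.coe_fst', smul_eq_mul, Prod.mk.injEq, and_true]
      rw [lin_two L a b, hL1, hL2]
      field_simp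
      ring)
    (by
      rintro ⟨a, b⟩
      simp only [ContinuousLinearMap.prod_apply, ContinuousLinearMap.coe_snd',
        smul_apply, sub_apply,
        ContinuousLinearMap.coe_fst', smul_eq_mul, Prod.mk.injEq, and_true]
      rw [lin_two L, hL1, hL2]
      field_simp
      ring)
  have hΦd : HasFDerivAt Φ (A : ℝ × ℝ →L[ℝ] ℝ × ℝ) (x, t) :=
    hfd.hasFDerivAt.prodMk hasFDerivAt_snd
  have hinv := hΦs.to_localInverse hΦd (by simp)
  have hri := (hΦs.hasStrictFDerivAt' hΦd (by simp)).eventually_right_inverse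
  have hΦx : Φ (x, t) = (x + u t 6 x, t) := rfl
  have hai := hΦs.localInverse_apply_image hΦd (by simp)
  set g := hΦs.localInverse hΦd (by simp) with hg
  have hgc : ContinuousAt g (Φ (x, t)) := hinv.continuousAt
  have hev1 : ∀ᶠ p in 𝓝 (Φ (x, t)), (g p).1 ∈ Ioo (-2:ℝ) 2 ∧ (g p).2 ∈ Ioo (-e) T := by
    have hopen : IsOpen (Ioo (-2:ℝ) 2 ×ˢ Ioo (-e) T) := isOpen_Ioo.prod isOpen_Ioo
    have hmem : g (Φ (x, t)) ∈ Ioo (-2:ℝ) 2 ×ˢ Ioo (-e) T := by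
      rw [hai]; exact ⟨hx, ht⟩
    exact hgc.eventually (hopen.mem_nhds hmem)
  have heq : (fun p : ℝ × ℝ => lab u p.1 p.2) =ᶠ[𝓝 (Φ (x, t))] fun p => (g p).1 := by
    filter_upwards [hri, hev1] with p hp1 hp2
    have hp3 : Φ (g p) = p := hp1
    have hp4 : (g p).2 = p.2 := (congrArg Prod.snd hp3 : (Φ (g p)).2 = p.2)
    have hp5 : (g p).1 + u (g p).2 6 (g p).1 = p.1 := (congrArg Prod.fst hp3 : (Φ (g p)).1 = p.1)
    rw [← hp5, ← hp4]
    exact h.lab_X hp2.2 hp2.1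
  rw [← hΦx]
  exact (contDiffAt_fst.comp _ hinv).congr_of_eventuallyEq heq

lemma eu_smooth (h : IsSol u e T) {t : ℝ} (ht : t ∈ Ioo (-e) T) {x : ℝ}
    (hx : x ∈ Ioo (-2:ℝ) 2) {f : ℝ × ℝ → ℝ} (hf : ContDiffAt ℝ ∞ f (x, t)) :
    ContDiffAt ℝ ∞ (fun p : ℝ × ℝ => f (lab u p.1 p.2, p.2)) (x + u t 6 x, t) := by
  refine ContDiffAt.comp (x + u t 6 x, t) (g := f)
    (f := fun p : ℝ × ℝ => (lab u p.1 p.2, p.2)) ?_ ?_
  · simp only [h.lab_X ht hx]; exact hf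
  · exact (h.lab_smooth ht hx).prodMk contDiffAt_snd

lemma eu_dx (h : IsSol u e T) {t : ℝ} (ht : t ∈ Ioo (-e) T) {x : ℝ}
    (hx : x ∈ Ioo (-2:ℝ) 2) {f : ℝ × ℝ → ℝ} (hf : ContDiffAt ℝ ∞ f (x, t)) {f' : ℝ}
    (hd : HasDerivAt (fun y => f (y, t)) (f' * u t 2 x) x) :
    HasDerivAt (fun φ => f (lab u φ t, t)) f' (x + u t 6 x) := by
  have h1 : DifferentiableAt ℝ (fun p : ℝ × ℝ => f (lab u p.1 p.2, p.2)) (x + u t 6 x, t) :=
    (h.eu_smooth ht hx hf).differentiableAt (by simp)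
  have h2 := fst_deriv h1
  simp only at h2
  set d := fderiv ℝ (fun p : ℝ × ℝ => f (lab u p.1 p.2, p.2)) (x + u t 6 x, t) (1, 0) with hdd
  have h3 := HasDerivAt.comp x (h₂ := fun φ => f (lab u φ t, t)) (h := fun y => y + u t 6 y) h2
    (h.hasDerivAt_X ht hx)
  have h4 : ((fun φ => f (lab u φ t, t)) ∘ fun y => y + u t 6 y) =ᶠ[𝓝 x] fun y => f (y, t) := by
    filter_upwards [Ioo_mem_nhds hx.1 hx.2] with y hy
    simp only [Function.comp_apply, h.lab_X ht hy]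
  have h5 := (h3.congr_of_eventuallyEq h4.symm).unique hd
  have h6 : d = f' := mul_right_cancel₀ (h.M_pos ht x).ne' h5
  rw [← h6]
  exact h2

lemma eu_dt (h : IsSol u e T) {t : ℝ} (ht : t ∈ Ioo (-e) T) {x : ℝ}
    (hx : x ∈ Ioo (-2:ℝ) 2) {f : ℝ × ℝ → ℝ} (hf : ContDiffAt ℝ ∞ f (x, t)) {f' ft : ℝ}
    (hd : HasDerivAt (fun y => f (y, t)) (f' * u t 2 x) x)
    (hdt : HasDerivAt (fun s => f (x, s)) ft t) :
    HasDerivAt (fun s => f (lab u (x + u t 6 x) s, s)) (ft - vel (u t) x * f') t := by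
  have h1 : DifferentiableAt ℝ (fun p : ℝ × ℝ => f (lab u p.1 p.2, p.2)) (x + u t 6 x, t) :=
    (h.eu_smooth ht hx hf).differentiableAt (by simp)
  have h2 := fst_deriv h1
  have h2' := snd_deriv h1
  have h3 := h.eu_dx ht hx hf hd
  simp only at h2 h2'
  set L := fderiv ℝ (fun p : ℝ × ℝ => f (lab u p.1 p.2, p.2)) (x + u t 6 x, t) with hL
  have h4 : L (1, 0) = f' := h2.unique h3
  have h5 : HasDerivAt (fun s => (x + u s 6 x, s)) (vel (u t) x, (1:ℝ)) t :=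
    ((h.d6 ht x).const_add x).prodMk (hasDerivAt_id t)
  have h6 := HasFDerivAt.comp_hasDerivAt (f := fun s : ℝ => ((x + u s 6 x, s) : ℝ × ℝ)) t
    h1.hasFDerivAt h5
  have h7 : ((fun p : ℝ × ℝ => f (lab u p.1 p.2, p.2)) ∘ fun s => (x + u s 6 x, s)) =ᶠ[𝓝 t]
      fun s => f (x, s) := by
    filter_upwards [Ioo_mem_nhds ht.1 ht.2] with s hs
    simp only [Function.comp_apply, h.lab_X hs hx]
  have h8 := (h6.congr_of_eventuallyEq h7.symm).unique hdt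
  rw [lin_two, h4, one_mul] at h8
  refine h2'.congr_deriv ?_
  linarith

/-- the conclusion, from a Lagrangian solution with the blow-up property -/
theorem conclude (h : IsSol u e T)
    (hbu : ∀ M : ℝ, ∃ t₀ ∈ Ico 0 T, ∀ t ∈ Ioo t₀ T, ∃ x ∈ Ioo (-aa) aa,
      M < |u t 3 x| + Real.sqrt ((u t 4 x)^2 + (u t 5 x)^2)) :
    ∃ (T : ℝ) (w R Ψ : ℝ → ℝ → ℝ), 0 < T ∧
      ContDiffOn ℝ ((⊤ : ℕ∞) : WithTop ℕ∞) (fun p : ℝ × ℝ => w p.1 p.2)
        (Set.Icc (-(Real.pi / 4)) (Real.pi / 4) ×ˢ Set.Ico 0 T) ∧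
      ContDiffOn ℝ ((⊤ : ℕ∞) : WithTop ℕ∞) (fun p : ℝ × ℝ => R p.1 p.2)
        (Set.Icc (-(Real.pi / 4)) (Real.pi / 4) ×ˢ Set.Ico 0 T) ∧
      (∀ t ∈ Set.Ico 0 T,
        ContDiffOn ℝ 2 (fun θ => Ψ θ t) (Set.Icc (-(Real.pi / 4)) (Real.pi / 4)) ∧
        Ψ (-(Real.pi / 4)) t = 0 ∧ Ψ (Real.pi / 4) t = 0 ∧
        (∫ θ in (-(Real.pi / 4))..(Real.pi / 4), Ψ θ t * Real.cos (2 * θ)) = 0 ∧
        (∀ θ ∈ Set.Ioo (-(Real.pi / 4)) (Real.pi / 4),
          deriv (deriv (fun φ => Ψ φ t)) θ + 4 * Ψ θ t = w θ t)) ∧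
      (∀ t ∈ Set.Ioo 0 T, ∀ θ ∈ Set.Ioo (-(Real.pi / 4)) (Real.pi / 4),
        deriv (fun s => w θ s) t + 2 * Ψ θ t * deriv (fun φ => w φ t) θ
            + (R θ t * Real.sin θ + deriv (fun φ => R φ t) θ * Real.cos θ) = 0 ∧
        deriv (fun s => R θ s) t + 2 * Ψ θ t * deriv (fun φ => R φ t) θ
            - deriv (fun φ => Ψ φ t) θ * R θ t = 0) ∧
      (∀ t ∈ Set.Ico 0 T,
        w (-(Real.pi / 4)) t = 0 ∧ w (Real.pi / 4) t = 0 ∧
        R (-(Real.pi / 4)) t = 0 ∧ R (Real.pi / 4) t = 0 ∧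
        derivWithin (fun φ => R φ t) (Set.Icc (-(Real.pi / 4)) (Real.pi / 4)) (-(Real.pi / 4)) = 0 ∧
        derivWithin (fun φ => R φ t) (Set.Icc (-(Real.pi / 4)) (Real.pi / 4)) (Real.pi / 4) = 0) ∧
      (∀ M : ℝ, ∃ t₀ ∈ Set.Ico 0 T, ∀ t ∈ Set.Ioo t₀ T,
        ∃ θ ∈ Set.Ioo (-(Real.pi / 4)) (Real.pi / 4),
          M < |w θ t| + Real.sqrt (R θ t ^ 2 + (deriv (fun φ => R φ t) θ) ^ 2)) := by
  have hI : ∀ t ∈ Ico 0 T, t ∈ Ioo (-e) T := fun t ht => ⟨by linarith [h.he, ht.1], ht.2⟩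
  have hI' : ∀ t ∈ Ioo 0 T, t ∈ Ioo (-e) T := fun t ht => ⟨by linarith [h.he, ht.1], ht.2⟩
  have hnaa : -aa ∈ Icc (-aa) aa := left_mem_Icc.2 (by linarith [aa_lo])
  have haa : aa ∈ Icc (-aa) aa := right_mem_Icc.2 (by linarith [aa_lo])
  -- derivatives
  have hW' : ∀ t ∈ Ioo (-e) T, ∀ x ∈ Ioo (-2:ℝ) 2,
      HasDerivAt (fun y => u t 3 y) ((deriv (fun y => u t 3 y) x / u t 2 x) * u t 2 x) x := by
    intro t ht x _
    refine (h.differentiable_comp ht x 3).hasDerivAt.congr_deriv ?_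
    rw [div_mul_cancel₀ _ (h.M_pos ht x).ne']
  have hΨs : ∀ t ∈ Ioo (-e) T, ∀ x, ContDiffAt ℝ ∞ (fun p : ℝ × ℝ => vel (u p.2) p.1 / 2) (x, t) :=
    fun t ht x => (h.smooth_vel ht x).div_const 2
  have hΨd : ∀ t ∈ Ioo (-e) T, ∀ x ∈ Ioo (-2:ℝ) 2,
      HasDerivAt (fun φ => vel (u t) (lab u φ t) / 2) (str (u t) x) (x + u t 6 x) := by
    intro t ht x hx
    refine h.eu_dx ht hx (f := fun p : ℝ × ℝ => vel (u p.2) p.1 / 2) (hΨs t ht x) ?_
    refine ((h.hasDerivAt_vel ht hx).div_const 2).congr_deriv ?_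
    ring
  have hRd : ∀ t ∈ Ioo (-e) T, ∀ x ∈ Ioo (-2:ℝ) 2,
      HasDerivAt (fun φ => u t 4 (lab u φ t)) (u t 5 x) (x + u t 6 x) := by
    intro t ht x hx
    exact h.eu_dx ht hx (f := fun p : ℝ × ℝ => u p.2 4 p.1) (h.smooth_comp ht x 4)
      (h.hasDerivAt_R ht hx)
  refine ⟨T, fun θ t => u t 3 (lab u θ t), fun θ t => u t 4 (lab u θ t),
    fun θ t => vel (u t) (lab u θ t) / 2, h.hT, ?_, ?_, ?_, ?_, ?_, ?_⟩
  · rintro ⟨θ, t⟩ ⟨hθ, ht⟩
    obtain ⟨x, hx, rfl⟩ := h.exists_label (hI t ht) hθ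
    exact (h.eu_smooth (hI t ht) (Icc_sub hx) (f := fun p : ℝ × ℝ => u p.2 3 p.1)
      (h.smooth_comp (hI t ht) x 3)).contDiffWithinAt
  · rintro ⟨θ, t⟩ ⟨hθ, ht⟩
    obtain ⟨x, hx, rfl⟩ := h.exists_label (hI t ht) hθ
    exact (h.eu_smooth (hI t ht) (Icc_sub hx) (f := fun p : ℝ × ℝ => u p.2 4 p.1)
      (h.smooth_comp (hI t ht) x 4)).contDiffWithinAt
  · intro t ht
    have ht' := hI t ht
    refine ⟨?_, ?_, ?_, ?_, ?_⟩
    · intro θ hθ
      obtain ⟨x, hx, rfl⟩ := h.exists_label (hI t ht) hθ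
      have h1 := h.eu_smooth (hI t ht) (Icc_sub hx) (f := fun p : ℝ × ℝ => vel (u p.2) p.1 / 2)
        (hΨs t ht' x)
      have h2 : ContDiffAt ℝ ∞ (fun θ => vel (u t) (lab u θ t) / 2) (x + u t 6 x) :=
        ContDiffAt.comp (x + u t 6 x) (f := fun θ : ℝ => (θ, t)) (g := fun p : ℝ × ℝ =>
          vel (u p.2) (lab u p.1 p.2) / 2) h1 (contDiffAt_id.prodMk contDiffAt_const)
      have h3 : ContDiffAt ℝ 2 (fun θ => vel (u t) (lab u θ t) / 2) (x + u t 6 x) := by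
        exact_mod_cast contDiffAt_infty.1 h2 2
      exact h3.contDiffWithinAt
    · have h1 := h.lab_X ht' (Icc_sub hnaa)
      rw [h.Y_naa ht', add_zero] at h1
      change vel (u t) (lab u (-aa) t) / 2 = 0
      rw [h1, h.vel_neg ht', h.vel_aa ht']; simp
    · have h1 := h.lab_X ht' (Icc_sub haa)
      rw [h.Y_aa ht', add_zero] at h1
      change vel (u t) (lab u (aa) t) / 2 = 0
      rw [h1, h.vel_aa ht']; simp
    · change ∫ θ in (-aa)..aa, vel (u t) (lab u θ t) / 2 * Real.cos (2 * θ) = 0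
      have hodd : ∀ θ ∈ Icc (-aa) aa, vel (u t) (lab u (-θ) t) = -vel (u t) (lab u θ t) := by
        intro θ hθ
        obtain ⟨x, hx, rfl⟩ := h.exists_label ht' hθ
        rw [h.lab_X ht' (Icc_sub hx)]
        have h1 : -(x + u t 6 x) = -x + u t 6 (-x) := by rw [h.odd6 ht']; ring
        rw [h1, h.lab_X ht' (Icc_sub ⟨by linarith [hx.2], by linarith [hx.1]⟩), h.vel_neg ht']
      have h1 := intervalIntegral.integral_comp_neg (a := -aa) (b := aa)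
        (fun θ => vel (u t) (lab u θ t) / 2 * Real.cos (2 * θ))
      simp only [neg_neg] at h1
      have h2 : ∫ θ in (-aa)..aa, vel (u t) (lab u (-θ) t) / 2 * Real.cos (2 * -θ) =
          ∫ θ in (-aa)..aa, -(vel (u t) (lab u θ t) / 2 * Real.cos (2 * θ)) := by
        apply intervalIntegral.integral_congr
        intro θ hθ
        rw [uIcc_of_le (by linarith [aa_lo])] at hθ
        simp only
        rw [hodd θ hθ, show 2 * -θ = -(2*θ) by ring, Real.cos_neg]; ring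
      rw [h2, intervalIntegral.integral_neg] at h1
      linarith
    · intro θ hθ
      change θ ∈ Ioo (-aa) aa at hθ
      obtain ⟨x, hx, rfl⟩ := h.exists_label' ht' hθ
      have hx2 := Icc_sub (Ioo_subset_Icc_self hx)
      have h1 : deriv (fun φ => vel (u t) (lab u φ t) / 2) =ᶠ[𝓝 (x + u t 6 x)]
          fun φ => str (u t) (lab u φ t) := by
        filter_upwards [Ioo_mem_nhds hθ.1 hθ.2] with φ hφ
        obtain ⟨y, hy, rfl⟩ := h.exists_label' ht' hφ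
        have hy2 := Icc_sub (Ioo_subset_Icc_self hy)
        rw [(hΨd t ht' y hy2).deriv, h.lab_X ht' hy2]
      have h2 : HasDerivAt (fun φ => str (u t) (lab u φ t)) (u t 3 x - 2 * vel (u t) x)
          (x + u t 6 x) :=
        h.eu_dx ht' hx2 (f := fun p : ℝ × ℝ => str (u p.2) p.1) (h.smooth_str ht' x)
          (h.hasDerivAt_str ht' hx2)
      rw [h1.deriv_eq, h2.deriv]
      simp only
      rw [h.lab_X ht' hx2]; ring
  · intro t ht θ hθ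
    have ht' := hI' t ht
    change θ ∈ Ioo (-aa) aa at hθ
    obtain ⟨x, hx, rfl⟩ := h.exists_label' ht' hθ
    have hx2 := Icc_sub (Ioo_subset_Icc_self hx)
    have hlab := h.lab_X ht' hx2
    have e1 := h.eu_dx ht' hx2 (f := fun p : ℝ × ℝ => u p.2 3 p.1) (h.smooth_comp ht' x 3)
      (hW' t ht' x hx2)
    have e2 := h.eu_dt ht' hx2 (f := fun p : ℝ × ℝ => u p.2 3 p.1) (h.smooth_comp ht' x 3)
      (hW' t ht' x hx2) (h.d3 ht' x)
    have e3 := h.eu_dt ht' hx2 (f := fun p : ℝ × ℝ => u p.2 4 p.1) (h.smooth_comp ht' x 4)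
      (h.hasDerivAt_R ht' hx2) (h.d4 ht' x)
    simp only at e1 e2 e3
    obtain ⟨g1, g2⟩ := h.trig ht' x
    constructor
    · rw [e2.deriv, e1.deriv, (hRd t ht' x hx2).deriv]
      beta_reduce
      rw [hlab, ← g1, ← g2]; ring
    · rw [e3.deriv, (hRd t ht' x hx2).deriv, (hΨd t ht' x hx2).deriv]
      beta_reduce
      rw [hlab]; ring
  · intro t ht
    have ht' := hI t ht
    have h1 := h.lab_X ht' (Icc_sub haa)
    rw [h.Y_aa ht', add_zero] at h1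
    have h2 := h.lab_X ht' (Icc_sub hnaa)
    rw [h.Y_naa ht', add_zero] at h2
    have hsq : 1/2 ≤ (-aa)^2 := by rw [neg_sq]; exact aa_sq
    have hR1 := hRd t ht' aa (Icc_sub haa)
    rw [h.Y_aa ht', add_zero, h.G_zero ht' aa_sq] at hR1
    have hR2 := hRd t ht' (-aa) (Icc_sub hnaa)
    rw [h.Y_naa ht', add_zero, h.G_zero ht' hsq] at hR2
    refine ⟨?_, ?_, ?_, ?_, ?_, ?_⟩
    · change u t 3 (lab u (-aa) t) = 0
      rw [h2]; exact h.W_zero ht' hsq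
    · change u t 3 (lab u aa t) = 0
      rw [h1]; exact h.W_zero ht' aa_sq
    · change u t 4 (lab u (-aa) t) = 0
      rw [h2]; exact h.R_zero ht' hsq
    · change u t 4 (lab u aa t) = 0
      rw [h1]; exact h.R_zero ht' aa_sq
    · exact (hR2.hasDerivWithinAt (s := Icc (-aa) aa)).derivWithin
        (uniqueDiffOn_Icc (by linarith [aa_lo]) (-aa) hnaa)
    · exact (hR1.hasDerivWithinAt (s := Icc (-aa) aa)).derivWithin
        (uniqueDiffOn_Icc (by linarith [aa_lo]) aa haa)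
  · intro M
    obtain ⟨t₀, ht₀, hM⟩ := hbu M
    refine ⟨t₀, ht₀, fun t ht => ?_⟩
    obtain ⟨x, hx, hx'⟩ := hM t ht
    have ht' : t ∈ Ioo (-e) T := ⟨by linarith [h.he, ht₀.1, ht.1], ht.2⟩
    have hx2 := Icc_sub (Ioo_subset_Icc_self hx)
    refine ⟨x + u t 6 x, h.X_Ioo ht' hx, ?_⟩
    rw [(hRd t ht' x hx2).deriv]
    simp only
    rw [h.lab_X ht' hx2]
    exact hx'

end IsSol

end Pool.Agent.H153R3
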