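import Mathlib
import Pool.Agent.H153R3.Euler
import Pool.Agent.H153R3.Cont
import Pool.Agent.H153R3.Blow

open Set Filter Topology MeasureTheory
open scoped BoundedContinuousFunction ContDiff

noncomputable section

namespace Pool.Agent.H153R3

/-- a maximal Lagrangian solution, which blows up -/
theorem exists_blowup : ∃ (u : ℝ → St) (e T : ℝ), IsSol u e T ∧
    ∀ M : ℝ, ∃ t₀ ∈ Ico 0 T, ∀ t ∈ Ioo t₀ T, ∃ x ∈ Ioo (-aa) aa,
      M < |u t 3 x| + Real.sqrt ((u t 4 x)^2 + (u t 5 x)^2) := by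
  obtain ⟨wV, hw⟩ := exists_V_of_compact contDiff_om0.continuous compact_om0
  obtain ⟨rV, hr⟩ := exists_V_of_compact contDiff_rho0.continuous compact_rho0
  obtain ⟨gV, hg⟩ := exists_V_of_compact ((contDiff_infty_iff_deriv.1 contDiff_rho0).2.continuous)
    compact_rho0.deriv
  set u₀ : St := ![cosV, sinV, 1, wV, rV, gV, 0] with hu₀
  have hsol : ∀ (u : ℝ → St) (e T : ℝ), 0 < e → 0 < T → u 0 = u₀ →
      (∀ t ∈ Ioo (-e) T, HasDerivAt u (F (u t)) t) → IsSol u e T := by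
    intro u e T he hT hu hd
    refine ⟨he, hT, hd, ?_, ?_, ?_, ?_, ?_, ?_, ?_⟩
    · rw [hu]; rfl
    · rw [hu]; rfl
    · rw [hu]; rfl
    · intro x; rw [hu]; exact hw x
    · intro x; rw [hu]; exact hr x
    · intro x; rw [hu]; exact hg x
    · rw [hu]; rfl
  obtain ⟨B, hB⟩ := IsSol.finite_time
  have hF1 : ContDiff ℝ 1 F := cd_F.of_le (by exact_mod_cast le_top)
  obtain ⟨e, he, T, hT, u, hu0, hud, hunb⟩ := exists_max hF1 LB_F u₀ B (by
    intro e he T hT hBT
    rintro ⟨u, hu0, hud⟩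
    have := hB u e T (hsol u e T he hT hu0 hud)
    linarith)
  have h := hsol u e T he hT hu0 hud
  exact ⟨u, e, T, h, h.bu_of_unbounded hunb⟩

end Pool.Agent.H153R3
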